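import Pool.Agent.R531.Agp.LV

/-!
# Acyclic graphs, and the acyclic graph word problem
-/

namespace Pool.Agent.R531.Agp

open NPC

section

variable {n : ℕ} {E : List (Edge n)}

theorem walk_append {u v : ℕ} {p q : List (Edge n)} :
    Walk E u (p ++ q) v ↔ ∃ w, Walk E u p w ∧ Walk E w q v := by
  induction p generalizing u with
  | nil => simp [Walk]
  | cons e p ih =>
    simp only [List.cons_append, Walk, ih]
    constructor
    · rintro ⟨h1, h2, w, h3, h4⟩; exact ⟨w, ⟨h1, h2, h3⟩, h4⟩
    · rintro ⟨w, ⟨h1, h2, h3⟩, h4⟩; exact ⟨h1, h2, w, h3, h4⟩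

theorem walk_iff {u v : ℕ} {p : List (Edge n)} :
    Walk E u p v ↔ (∀ e ∈ p, e ∈ E) ∧ Chain u p v := by
  induction p generalizing u with
  | nil => simp [Walk, Chain]
  | cons e p ih =>
    simp only [Walk, Chain, ih, List.mem_cons, forall_eq_or_imp]
    tauto

theorem walk_nodup (hE : Acyclic E) {u v : ℕ} {p : List (Edge n)} (h : Walk E u p v) :
    p.Nodup := by
  induction p generalizing u with
  | nil => exact List.nodup_nil
  | cons e p ih =>
    obtain ⟨h1, h2, h3⟩ := h
    rw [List.nodup_cons]
    refine ⟨fun he => ?_, ih h3⟩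
    obtain ⟨p1, p2, rfl⟩ := List.append_of_mem he
    obtain ⟨w, h4, h5⟩ := walk_append.1 h3
    obtain ⟨-, h6, -⟩ := h5
    have : Walk E e.1.1 (e :: p1) e.1.1 := ⟨h1, rfl, by rw [← h6] at h4; exact h4⟩
    exact absurd (hE _ _ this) (by simp)

theorem walk_length_le (hE : Acyclic E) {u v : ℕ} {p : List (Edge n)} (h : Walk E u p v) :
    p.length ≤ E.length :=
  ((walk_nodup hE h).subperm fun e he => (walk_iff.1 h).1 e he).length_le

/-- One round of the acyclicity test. -/
def layF (E S : List (Edge n)) : List (Edge n) :=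
  E.filter fun e => S.any fun e' => decide (e'.1.2 = e.1.1)

/-- The acyclicity test. -/
def acyc (E : List (Edge n)) : Bool := ((layF E)^[E.length] E).isEmpty

theorem mem_layer (t : ℕ) : ∀ e : Edge n, e ∈ (layF E)^[t] E ↔
    ∃ u p, Walk E u (p ++ [e]) e.1.2 ∧ p.length = t := by
  induction t with
  | zero =>
    intro e
    constructor
    · intro h
      exact ⟨e.1.1, [], ⟨h, rfl, rfl⟩, rfl⟩
    · rintro ⟨u, p, h, hp⟩
      rw [List.length_eq_zero_iff] at hp
      subst hp
      exact h.1
  | succ t ih =>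
    intro e
    rw [Function.iterate_succ_apply', layF, List.mem_filter, List.any_eq_true]
    constructor
    · rintro ⟨he, e', he', h⟩
      obtain ⟨u, p, hp, hl⟩ := (ih e').1 he'
      rw [decide_eq_true_eq] at h
      refine ⟨u, p ++ [e'], ?_, by simp [hl]⟩
      rw [walk_append]
      exact ⟨e'.1.2, hp, he, h.symm, rfl⟩
    · rintro ⟨u, p, hp, hl⟩
      obtain ⟨w, h1, h2, h3, -⟩ := walk_append.1 hp
      refine ⟨h2, ?_⟩
      rcases List.eq_nil_or_concat p with rfl | ⟨p', e', rfl⟩
      · simp at hl
      · rw [List.concat_eq_append] at h1 hl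
        obtain ⟨w', h4, h5, h6, h7⟩ := walk_append.1 h1
        have h7 : e'.1.2 = w := h7
        refine ⟨e', (ih e').2 ⟨u, p', ?_, by simpa using hl⟩, ?_⟩
        · rw [walk_append]; exact ⟨w', h4, h5, h6, rfl⟩
        · rw [decide_eq_true_eq, h7, h3]

theorem acyc_iff : acyc E = true ↔ Acyclic E := by
  unfold acyc
  rw [List.isEmpty_iff]
  constructor
  · intro h u c hc
    by_contra hne
    have hlen : 1 ≤ c.length := by
      rcases c with _ | ⟨e, c⟩
      · exact absurd rfl hne
      · simp
    have hrep : ∀ k, Walk E u (List.replicate k c).flatten u := by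
      intro k
      induction k with
      | zero => exact rfl
      | succ k ih =>
        rw [List.replicate_succ, List.flatten_cons, walk_append]
        exact ⟨u, hc, ih⟩
    have h1 := hrep (E.length + 1)
    set P := (List.replicate (E.length + 1) c).flatten with hP
    have hPl : E.length + 1 ≤ P.length := by
      rw [hP, List.length_flatten, List.map_replicate, List.sum_replicate, smul_eq_mul]
      nlinarith
    rw [← List.take_append_drop (E.length + 1) P] at h1
    obtain ⟨w, h2, -⟩ := walk_append.1 h1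
    have h3 : (P.take (E.length + 1)).length = E.length + 1 := by
      rw [List.length_take]; omega
    rcases List.eq_nil_or_concat (P.take (E.length + 1)) with h4 | ⟨p', e', h4⟩
    · rw [h4] at h3; simp at h3
    · rw [List.concat_eq_append] at h4
      rw [h4] at h2 h3
      obtain ⟨w', h5, h6, h7, h8⟩ := walk_append.1 h2
      have h9 : e' ∈ (layF E)^[E.length] E := by
        rw [mem_layer]
        exact ⟨u, p', walk_append.2 ⟨w', h5, h6, h7, rfl⟩, by simpa using h3⟩
      rw [h] at h9
      exact absurd h9 (by simp)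
  · intro hE
    rw [List.eq_nil_iff_forall_not_mem]
    intro e he
    obtain ⟨u, p, hp, hl⟩ := (mem_layer _ e).1 he
    have := walk_length_le hE hp
    simp at this
    omega

/-- The program of a graph. -/
def prog (E : List (Edge n)) : List (Edge n) := E.flatMap fun _ => E

theorem sublist_prog_aux (p : List (Edge n)) (hp : ∀ e ∈ p, e ∈ E) :
    ∀ F : List (Edge n), p.length ≤ F.length → p.Sublist (F.flatMap fun _ => E) := by
  induction p with
  | nil => intro F _; exact List.nil_sublist _
  | cons e p ih =>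
    intro F hF
    cases F with
    | nil => simp at hF
    | cons f F =>
      rw [List.flatMap_cons]
      have h1 : [e].Sublist E := List.singleton_sublist.2 (hp e List.mem_cons_self)
      exact h1.append (ih (fun e' he' => hp e' (List.mem_cons_of_mem _ he')) F (by simpa using hF))

theorem mem_prog {e : Edge n} (h : e ∈ prog E) : e ∈ E := by
  unfold prog at h
  rw [List.mem_flatMap] at h
  obtain ⟨_, _, h⟩ := h
  exact h

theorem prg_prog_iff {G : Type*} [Group G] (g : Fin n → G) (hE : Acyclic E) (α ω : ℕ) :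
    Prg g (prog E, α, ω) ↔ ∃ p : List (Edge n), Walk E α p ω ∧ pval g p = 1 := by
  constructor
  · rintro ⟨p, h1, h2, h3⟩
    exact ⟨p, walk_iff.2 ⟨fun e he => mem_prog (h1.subset he), h2⟩, h3⟩
  · rintro ⟨p, h1, h2⟩
    exact ⟨p, sublist_prog_aux p (walk_iff.1 h1).1 E (walk_length_le hE h1), (walk_iff.1 h1).2, h2⟩

theorem agp_iff {G : Type*} [Group G] (g : Fin n → G) (I : List (Edge n) × ℕ × ℕ) :
    AGP g I ↔ acyc I.1 = true ∧ Prg g (prog I.1, I.2.1, I.2.2) := by
  rw [acyc_iff]
  constructor
  · rintro ⟨h1, h2⟩; exact ⟨h1, (prg_prog_iff g h1 _ _).2 h2⟩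
  · rintro ⟨h1, h2⟩; exact ⟨h1, (prg_prog_iff g h1 _ _).1 h2⟩

theorem sz_sublist_le {β : Type} [TEnc β] {l l' : List β} (h : l.Sublist l') : sz l ≤ sz l' := by
  induction h with
  | slnil => exact le_rfl
  | cons a _ ih => rw [sz_list_cons]; omega
  | cons_cons a _ ih => rw [sz_list_cons, sz_list_cons]; omega

theorem layF_sublist (k : ℕ) : ((layF E)^[k] E).Sublist E := by
  cases k with
  | zero => exact List.Sublist.refl _
  | succ k => rw [Function.iterate_succ_apply']; exact List.filter_sublist

theorem poly_acyc : Poly (fun E : List (Edge n) => acyc E) := by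
  have h1 : Poly (fun x : List (Edge n) × List (Edge n) => layF x.1 x.2) := by
    unfold layF
    have h2 : Poly (fun y : (List (Edge n) × List (Edge n)) × Edge n =>
        y.1.2.any fun e' => decide (e'.1.2 = y.2.1.1)) := by
      have h3 : Poly (fun z : ((List (Edge n) × List (Edge n)) × Edge n) × Edge n =>
          decide (z.2.1.2 = z.1.2.1.1)) :=
        NPC.Poly.decide_eq (NPC.Poly.snd (NPC.Poly.fst (NPC.Poly.snd NPC.Poly.id)))
          (NPC.Poly.fst (NPC.Poly.fst (NPC.Poly.snd (NPC.Poly.fst NPC.Poly.id))))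
      exact NPC.Poly.any (l := fun y : (List (Edge n) × List (Edge n)) × Edge n => y.1.2)
        (p := fun y (e' : Edge n) => decide (e'.1.2 = y.2.1.1))
        (NPC.Poly.snd (NPC.Poly.fst NPC.Poly.id)) h3
    exact NPC.Poly.filter (l := fun x : List (Edge n) × List (Edge n) => x.1)
      (p := fun x (e : Edge n) => x.2.any fun e' => decide (e'.1.2 = e.1.1))
      (NPC.Poly.fst NPC.Poly.id) h2
  have h2 := NPC.Poly.iterLen (l := fun E : List (Edge n) => E) (s := fun E : List (Edge n) => E)
    (F := fun E S => layF E S) NPC.Poly.id NPC.Poly.id h1 Polynomial.X (by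
      intro E k _
      rw [Polynomial.eval_X]
      exact sz_sublist_le (layF_sublist k))
  exact NPC.Poly.isEmpty h2

theorem poly_prog : Poly (fun E : List (Edge n) => prog E) :=
  NPC.Poly.flatMap (l := fun E : List (Edge n) => E) (F := fun E (_ : Edge n) => E)
    NPC.Poly.id (NPC.Poly.fst NPC.Poly.id)

/-- The acyclic graph word problem reduces to the program problem. -/
theorem lv_agp_of_prg {G : Type*} [Group G] (g : Fin n → G) (h : LV (Prg g)) : LV (AGP g) := by
  have h1 : Poly (fun I : List (Edge n) × ℕ × ℕ => acyc I.1) :=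
    poly_acyc.comp (NPC.Poly.fst NPC.Poly.id)
  have h2 : Poly (fun I : List (Edge n) × ℕ × ℕ => (prog I.1, I.2.1, I.2.2)) :=
    NPC.Poly.pair (poly_prog.comp (NPC.Poly.fst NPC.Poly.id)) (NPC.Poly.pair
      (NPC.Poly.fst (NPC.Poly.snd NPC.Poly.id)) (NPC.Poly.snd (NPC.Poly.snd NPC.Poly.id)))
  exact LV.of_poly h h2 h1 fun I => agp_iff g I

/-- Large balls and subset sum in `P`: the acyclic graph word problem has a Las Vegas algorithm. -/
theorem lv_agp {G : Type*} [Group G] (g : Fin n → G)
    (hgen : Subgroup.closure (Set.range g) = ⊤) (hB : BigBalls g) (hS : InPP (SSP g)) :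
    LV (AGP g) := lv_agp_of_prg g (lv_prg g hgen hB hS)

end

end Pool.Agent.R531.Agp
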