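import Mathlib

/-!
# Trivial products in free products contain trivial products of letters from one factor
-/

namespace Pool.Agent.R531.Agp

open Monoid

section nf

variable {ι : Type*} {M : ι → Type*} [∀ i, Group (M i)]

/-- The value of a list of letters and empty letters. -/
def cval (t : List (Option (Σ i, M i))) : CoprodI M :=
  (t.map fun o => o.elim 1 fun l => CoprodI.of l.2).prod

@[simp] theorem cval_nil : cval ([] : List (Option (Σ i, M i))) = 1 := rfl

@[simp] theorem cval_none (t : List (Option (Σ i, M i))) : cval (none :: t) = cval t := by
  simp [cval]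

@[simp] theorem cval_some (l : Σ i, M i) (t : List (Option (Σ i, M i))) :
    cval (some l :: t) = CoprodI.of l.2 * cval t := by simp [cval]

theorem nf_block (t : List (Option (Σ i, M i))) :
    (∃ a b c, t = a ++ b ++ c ∧ (∃ l, some l ∈ b) ∧ (∃ i, ∀ l, some l ∈ b → l.1 = i) ∧
      cval b = 1) ∨
    ∃ W : List (Σ i, M i), (∀ l ∈ W, l.2 ≠ 1) ∧ W.IsChain (fun l l' => l.1 ≠ l'.1) ∧
      (W.map fun l => (CoprodI.of l.2 : CoprodI M)).prod = cval t ∧ (W = [] → ∀ o ∈ t, o = none) ∧
      (∀ l W', W = l :: W' → ∃ b c, t = b ++ c ∧ (∃ l, some l ∈ b) ∧
        (∀ l', some l' ∈ b → l'.1 = l.1) ∧ cval b = CoprodI.of l.2) := by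
  induction t with
  | nil => right; exact ⟨[], by simp, by simp, by simp, by simp, by simp⟩
  | cons o t ih =>
    rcases ih with ⟨a, b, c, rfl, h1, h2, h3⟩ | ⟨W, h1, h2, h3, h4, h5⟩
    · left; exact ⟨o :: a, b, c, by simp, h1, h2, h3⟩
    · cases o with
      | none =>
        right
        refine ⟨W, h1, h2, by simpa using h3, ?_, ?_⟩
        · intro hW o ho
          rcases List.mem_cons.1 ho with rfl | ho
          · rfl
          · exact h4 hW o ho
        · intro l W' hW
          obtain ⟨b, c, rfl, g1, g2, g3⟩ := h5 l W' hW
          refine ⟨none :: b, c, by simp, ?_, ?_, by simpa using g3⟩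
          · obtain ⟨l, hl⟩ := g1; exact ⟨l, List.mem_cons_of_mem _ hl⟩
          · intro l' hl'
            rcases List.mem_cons.1 hl' with h | h
            · exact absurd h (by simp)
            · exact g2 l' h
      | some l0 =>
        obtain ⟨i, x⟩ := l0
        by_cases hx : x = 1
        · left
          subst hx
          refine ⟨[], [some ⟨i, 1⟩], t, by simp, ⟨_, List.mem_singleton_self _⟩, ⟨i, ?_⟩, by simp⟩
          intro l hl
          rw [List.mem_singleton, Option.some.injEq] at hl
          rw [hl]
        · cases W with
          | nil =>
            right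
            refine ⟨[⟨i, x⟩], by simpa using hx, by simp, ?_, by simp, ?_⟩
            · simp only [List.map_cons, List.map_nil, List.prod_cons, List.prod_nil,
                cval_some] at h3 ⊢
              rw [← h3]
            · intro l W' hW
              simp only [List.cons.injEq] at hW
              refine ⟨[some ⟨i, x⟩], t, by simp, ⟨_, List.mem_singleton_self _⟩, ?_, ?_⟩
              · intro l' hl'
                rw [List.mem_singleton, Option.some.injEq] at hl'
                rw [hl', ← hW.1]
              · rw [← hW.1]; simp
          | cons l1 W' =>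
            obtain ⟨j, y⟩ := l1
            by_cases hij : i = j
            · subst hij
              obtain ⟨b, c, rfl, g1, g2, g3⟩ := h5 _ _ rfl
              by_cases hxy : x * y = 1
              · left
                refine ⟨[], some ⟨i, x⟩ :: b, c, by simp, ⟨_, List.mem_cons_self⟩, ⟨i, ?_⟩, ?_⟩
                · intro l hl
                  rcases List.mem_cons.1 hl with h | h
                  · rw [Option.some.injEq] at h; rw [h]
                  · exact g2 l h
                · rw [cval_some, g3, ← map_mul, hxy, map_one]
              · right
                refine ⟨⟨i, x * y⟩ :: W', ?_, ?_, ?_, by simp, ?_⟩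
                · intro l hl
                  rcases List.mem_cons.1 hl with rfl | hl
                  · exact hxy
                  · exact h1 l (List.mem_cons_of_mem _ hl)
                · rw [List.isChain_cons] at h2 ⊢
                  exact h2
                · simp only [List.map_cons, List.prod_cons, cval_some] at h3 ⊢
                  rw [map_mul, mul_assoc, h3]
                · intro l W'' hW
                  simp only [List.cons.injEq] at hW
                  refine ⟨some ⟨i, x⟩ :: b, c, by simp, ⟨_, List.mem_cons_self⟩, ?_, ?_⟩
                  · intro l' hl'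
                    rw [← hW.1]
                    rcases List.mem_cons.1 hl' with h | h
                    · rw [Option.some.injEq] at h; rw [h]
                    · exact g2 l' h
                  · rw [← hW.1, cval_some, g3, ← map_mul]
            · right
              refine ⟨⟨i, x⟩ :: ⟨j, y⟩ :: W', ?_, ?_, ?_, by simp, ?_⟩
              · intro l hl
                rcases List.mem_cons.1 hl with rfl | hl
                · exact hx
                · exact h1 l hl
              · rw [List.isChain_cons_cons]
                exact ⟨hij, h2⟩
              · simp only [List.map_cons, List.prod_cons, cval_some] at h3 ⊢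
                rw [← h3]
              · intro l W'' hW
                simp only [List.cons.injEq] at hW
                refine ⟨[some ⟨i, x⟩], t, by simp, ⟨_, List.mem_singleton_self _⟩, ?_, ?_⟩
                · intro l' hl'
                  rw [List.mem_singleton, Option.some.injEq] at hl'
                  rw [hl', ← hW.1]
                · rw [← hW.1]; simp

/-- A product of letters that is trivial in the free product contains a trivial block of letters
from one factor. -/
theorem exists_block (t : List (Option (Σ i, M i))) (ht : cval t = 1) (hl : ∃ l, some l ∈ t) :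
    ∃ a b c, t = a ++ b ++ c ∧ (∃ l, some l ∈ b) ∧ (∃ i, ∀ l, some l ∈ b → l.1 = i) ∧
      cval b = 1 := by
  classical
  rcases nf_block t with h | ⟨W, h1, h2, h3, h4, -⟩
  · exact h
  · exfalso
    let w : CoprodI.Word M := ⟨W, h1, h2⟩
    have hw : w.prod = 1 := by
      have : w.prod = (W.map fun l => (CoprodI.of l.2 : CoprodI M)).prod := rfl
      rw [this, h3, ht]
    have hw2 : w = CoprodI.Word.empty := by
      have := (CoprodI.Word.equiv (M := M)).symm.injective (a₁ := w) (a₂ := CoprodI.Word.empty)
      apply this
      change w.prod = CoprodI.Word.empty.prod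
      rw [hw, CoprodI.Word.prod_empty]
    have hW : W = [] := congrArg CoprodI.Word.toList hw2
    obtain ⟨l, hl⟩ := hl
    exact absurd (h4 hW _ hl) (by simp)

end nf

section two

universe u v

variable {G : Type u} {H : Type v} [Group G] [Group H]

/-- The two factors in a common universe. -/
def Fam (G : Type u) (H : Type v) : Bool → Type (max u v)
  | true => ULift.{v} G
  | false => ULift.{u} H

instance (b : Bool) : Group (Fam G H b) :=
  match b with
  | true => inferInstanceAs (Group (ULift.{v} G))
  | false => inferInstanceAs (Group (ULift.{u} H))

/-- The comparison map. -/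
def cmp (G : Type u) (H : Type v) [Group G] [Group H] :
    Monoid.Coprod G H →* CoprodI (Fam G H) :=
  Monoid.Coprod.lift
    ((CoprodI.of (M := Fam G H) (i := true)).comp (MulEquiv.ulift (α := G)).symm.toMonoidHom)
    ((CoprodI.of (M := Fam G H) (i := false)).comp (MulEquiv.ulift (α := H)).symm.toMonoidHom)

/-- The letter of a member of a factor. -/
def lft : G ⊕ H → Σ b, Fam G H b
  | Sum.inl x => ⟨true, ULift.up x⟩
  | Sum.inr y => ⟨false, ULift.up y⟩

/-- The value of a list of members of the factors in the free product. -/
def sval (t : List (Option (G ⊕ H))) : Monoid.Coprod G H :=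
  (t.map fun o => o.elim 1 (Sum.elim Monoid.Coprod.inl Monoid.Coprod.inr)).prod

theorem cmp_inl (x : G) : cmp G H (Monoid.Coprod.inl x) =
    CoprodI.of (lft (G := G) (H := H) (Sum.inl x)).2 := rfl

theorem cmp_inr (y : H) : cmp G H (Monoid.Coprod.inr y) =
    CoprodI.of (lft (G := G) (H := H) (Sum.inr y)).2 := rfl

theorem cmp_sval (t : List (Option (G ⊕ H))) :
    cmp G H (sval t) = cval (t.map fun o => o.map lft) := by
  induction t with
  | nil => simp [sval]
  | cons o t ih =>
    have e1 : sval (o :: t) = (o.elim 1 (Sum.elim Monoid.Coprod.inl Monoid.Coprod.inr)) *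
      sval t := by simp [sval]
    rw [e1, map_mul, ih]
    rcases o with _ | x | y
    · simp
    · simp only [Option.elim_some, Sum.elim_inl, List.map_cons, Option.map_some, cval_some,
        cmp_inl]
    · simp only [Option.elim_some, Sum.elim_inr, List.map_cons, Option.map_some, cval_some,
        cmp_inr]

theorem sval_inl (f : List (Option G)) :
    sval (f.map fun o => o.map (Sum.inl (β := H))) =
      Monoid.Coprod.inl ((f.map fun o => o.getD 1).prod) := by
  induction f with
  | nil => simp [sval]
  | cons o f ih =>
    have e1 : ∀ (o : Option (G ⊕ H)) t, sval (o :: t) =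
      (o.elim 1 (Sum.elim Monoid.Coprod.inl Monoid.Coprod.inr)) * sval t := by simp [sval]
    rw [List.map_cons, e1, ih, List.map_cons, List.prod_cons, map_mul]
    cases o <;> simp

theorem sval_inr (f : List (Option H)) :
    sval (f.map fun o => o.map (Sum.inr (α := G))) =
      Monoid.Coprod.inr ((f.map fun o => o.getD 1).prod) := by
  induction f with
  | nil => simp [sval]
  | cons o f ih =>
    have e1 : ∀ (o : Option (G ⊕ H)) t, sval (o :: t) =
      (o.elim 1 (Sum.elim Monoid.Coprod.inl Monoid.Coprod.inr)) * sval t := by simp [sval]
    rw [List.map_cons, e1, ih, List.map_cons, List.prod_cons, map_mul]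
    cases o <;> simp

/-- A trivial product in the free product of two groups contains a trivial block from one of the
factors. -/
theorem exists_block2 (t : List (Option (G ⊕ H))) (ht : sval t = 1) (hl : ∃ l, some l ∈ t) :
    ∃ a b c, t = a ++ b ++ c ∧ (∃ l, some l ∈ b) ∧
      ((∃ f : List (Option G), b = f.map (fun o => o.map Sum.inl) ∧
          (f.map fun o => o.getD 1).prod = 1) ∨
        (∃ f : List (Option H), b = f.map (fun o => o.map Sum.inr) ∧
          (f.map fun o => o.getD 1).prod = 1)) := by
  have h1 : cval (t.map fun o => o.map (lft (G := G) (H := H))) = 1 := by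
    rw [← cmp_sval, ht, map_one]
  obtain ⟨a, b, c, h2, h3, ⟨i, h4⟩, h5⟩ := exists_block _ h1 (by
    obtain ⟨l, hl⟩ := hl
    exact ⟨lft l, List.mem_map.2 ⟨some l, hl, rfl⟩⟩)
  obtain ⟨ab, c', rfl, hab, hc⟩ := List.map_eq_append_iff.1 h2
  obtain ⟨a', b', rfl, ha, hb⟩ := List.map_eq_append_iff.1 hab
  refine ⟨a', b', c', rfl, ?_, ?_⟩
  · obtain ⟨l, hl⟩ := h3
    rw [← hb, List.mem_map] at hl
    obtain ⟨o, ho, ho2⟩ := hl
    rw [Option.map_eq_some_iff] at ho2
    obtain ⟨l', rfl, -⟩ := ho2
    exact ⟨l', ho⟩
  · have h6 : ∀ x, some x ∈ b' → (lft x).1 = i := by
      intro x hx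
      refine h4 _ ?_
      rw [← hb]
      exact List.mem_map.2 ⟨some x, hx, rfl⟩
    rw [← hb, ← cmp_sval] at h5
    cases i with
    | true =>
      left
      refine ⟨b'.map fun o => o.bind Sum.getLeft?, ?_, ?_⟩
      · rw [List.map_map]
        conv_lhs => rw [← List.map_id b']
        refine List.map_congr_left fun o ho => ?_
        rcases o with _ | x | y
        · rfl
        · rfl
        · exact absurd (h6 _ ho) (by simp [lft])
      · have h7 : b' = (b'.map fun o => o.bind Sum.getLeft?).map
            fun o => o.map (Sum.inl (β := H)) := by
          rw [List.map_map]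
          conv_lhs => rw [← List.map_id b']
          refine List.map_congr_left fun o ho => ?_
          rcases o with _ | x | y
          · rfl
          · rfl
          · exact absurd (h6 _ ho) (by simp [lft])
        rw [h7, sval_inl, cmp_inl] at h5
        have h8 := CoprodI.of_injective (M := Fam G H) true (h5.trans (map_one _).symm)
        exact congrArg ULift.down h8
    | false =>
      right
      have h7 : b' = (b'.map fun o => o.bind Sum.getRight?).map
            fun o => o.map (Sum.inr (α := G)) := by
        rw [List.map_map]
        conv_lhs => rw [← List.map_id b']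
        refine List.map_congr_left fun o ho => ?_
        rcases o with _ | x | y
        · rfl
        · exact absurd (h6 _ ho) (by simp [lft])
        · rfl
      refine ⟨b'.map fun o => o.bind Sum.getRight?, h7, ?_⟩
      rw [h7, sval_inr, cmp_inr] at h5
      have h8 := CoprodI.of_injective (M := Fam G H) false (h5.trans (map_one _).symm)
      exact congrArg ULift.down h8

end two

end Pool.Agent.R531.Agp
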