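import Pool.Agent.R531.Agp.LVfold
import Pool.Agent.R531.Agp.NF

/-!
# The closure procedure for free products
-/

namespace Pool.Agent.R531.Agp

open NPC

section

variable {G H : Type*} [Group G] [Group H] {n m : ℕ} (g : Fin n → G) (h : Fin m → H)

/-- The generators of the free product. -/
def fgen (g : Fin n → G) (h : Fin m → H) : Fin (n + m) → Monoid.Coprod G H :=
  Fin.append (fun i => Monoid.Coprod.inl (g i)) (fun j => Monoid.Coprod.inr (h j))

/-- The factor of a letter. -/
def cls (l : Fin (n + m) × Bool) : (Fin n × Bool) ⊕ (Fin m × Bool) :=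
  Fin.addCases (fun i => Sum.inl (i, l.2)) (fun j => Sum.inr (j, l.2)) l.1

theorem lval_cls (l : Fin (n + m) × Bool) : lval (fgen g h) l =
    Sum.elim (fun l' => Monoid.Coprod.inl (lval g l')) (fun l' => Monoid.Coprod.inr (lval h l'))
      (cls l) := by
  obtain ⟨i, b⟩ := l
  refine Fin.addCases (fun i => ?_) (fun j => ?_) i
  · simp only [cls, Fin.addCases_left, Sum.elim_inl, lval, fgen, Fin.append_left]
    cases b <;> simp
  · simp only [cls, Fin.addCases_right, Sum.elim_inr, lval, fgen, Fin.append_right]
    cases b <;> simp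

/-- Labels of the first factor. -/
def toG (n m : ℕ) (o : Option (Fin (n + m) × Bool)) : Option (Option (Fin n × Bool)) :=
  o.elim (some none) fun l => (cls l).elim (fun l' => some (some l')) fun _ => none

/-- Labels of the second factor. -/
def toH (n m : ℕ) (o : Option (Fin (n + m) × Bool)) : Option (Option (Fin m × Bool)) :=
  o.elim (some none) fun l => (cls l).elim (fun _ => none) fun l' => some (some l')

/-- The edges that carry labels of the first factor, and the shortcuts. -/
def EG (n m : ℕ) (E : List (Edge (n + m))) (R : List (ℕ × ℕ)) : List (Edge n) :=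
  (E.flatMap fun e => ((toG n m e.2).map fun o => (e.1, o)).toList) ++ R.map fun r => (r, none)

/-- The edges that carry labels of the second factor, and the shortcuts. -/
def EH (n m : ℕ) (E : List (Edge (n + m))) (R : List (ℕ × ℕ)) : List (Edge m) :=
  (E.flatMap fun e => ((toH n m e.2).map fun o => (e.1, o)).toList) ++ R.map fun r => (r, none)

theorem mem_EG {E : List (Edge (n + m))} {R : List (ℕ × ℕ)} {f : Edge n} : f ∈ EG n m E R ↔
    (∃ e ∈ E, ∃ o, toG n m e.2 = some o ∧ f = (e.1, o)) ∨ ∃ r ∈ R, f = (r, none) := by
  simp only [EG, List.mem_append, List.mem_flatMap, Option.mem_toList,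
    Option.map_eq_some_iff, List.mem_map]
  constructor
  · rintro (⟨e, he, o, ho, rfl⟩ | ⟨r, hr, rfl⟩)
    · exact Or.inl ⟨e, he, o, ho, rfl⟩
    · exact Or.inr ⟨r, hr, rfl⟩
  · rintro (⟨e, he, o, ho, rfl⟩ | ⟨r, hr, rfl⟩)
    · exact Or.inl ⟨e, he, o, ho, rfl⟩
    · exact Or.inr ⟨r, hr, rfl⟩

theorem mem_EH {E : List (Edge (n + m))} {R : List (ℕ × ℕ)} {f : Edge m} : f ∈ EH n m E R ↔
    (∃ e ∈ E, ∃ o, toH n m e.2 = some o ∧ f = (e.1, o)) ∨ ∃ r ∈ R, f = (r, none) := by
  simp only [EH, List.mem_append, List.mem_flatMap, Option.mem_toList,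
    Option.map_eq_some_iff, List.mem_map]
  constructor
  · rintro (⟨e, he, o, ho, rfl⟩ | ⟨r, hr, rfl⟩)
    · exact Or.inl ⟨e, he, o, ho, rfl⟩
    · exact Or.inr ⟨r, hr, rfl⟩
  · rintro (⟨e, he, o, ho, rfl⟩ | ⟨r, hr, rfl⟩)
    · exact Or.inl ⟨e, he, o, ho, rfl⟩
    · exact Or.inr ⟨r, hr, rfl⟩

theorem oval_toG {o : Option (Fin (n + m) × Bool)} {o' : Option (Fin n × Bool)}
    (ho : toG n m o = some o') : oval (fgen g h) o = Monoid.Coprod.inl (oval g o') := by
  cases o with
  | none =>
    simp only [toG, Option.elim_none, Option.some.injEq] at ho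
    subst ho; simp [oval]
  | some l =>
    simp only [toG, Option.elim_some] at ho
    have h1 := lval_cls g h l
    cases hc : cls l with
    | inl l' =>
      rw [hc] at ho h1
      simp only [Sum.elim_inl, Option.some.injEq] at ho h1
      subst ho
      simpa [oval] using h1
    | inr l' => rw [hc] at ho; simp at ho

theorem oval_toH {o : Option (Fin (n + m) × Bool)} {o' : Option (Fin m × Bool)}
    (ho : toH n m o = some o') : oval (fgen g h) o = Monoid.Coprod.inr (oval h o') := by
  cases o with
  | none =>
    simp only [toH, Option.elim_none, Option.some.injEq] at ho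
    subst ho; simp [oval]
  | some l =>
    simp only [toH, Option.elim_some] at ho
    have h1 := lval_cls g h l
    cases hc : cls l with
    | inr l' =>
      rw [hc] at ho h1
      simp only [Sum.elim_inr, Option.some.injEq] at ho h1
      subst ho
      simpa [oval] using h1
    | inl l' => rw [hc] at ho; simp at ho

theorem pval_append {K : Type*} [Group K] {k : ℕ} (f : Fin k → K) (p q : List (Edge k)) :
    pval f (p ++ q) = pval f p * pval f q := by simp [pval]

theorem pval_cons {K : Type*} [Group K] {k : ℕ} (f : Fin k → K) (e : Edge k)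
    (p : List (Edge k)) : pval f (e :: p) = oval f e.2 * pval f p := by simp [pval]

@[simp] theorem pval_nil {K : Type*} [Group K] {k : ℕ} (f : Fin k → K) :
    pval f ([] : List (Edge k)) = 1 := rfl

@[simp] theorem oval_none {K : Type*} [Group K] {k : ℕ} (f : Fin k → K) :
    oval f (none : Option (Fin k × Bool)) = 1 := rfl

/-- All shortcuts are realised by walks with trivial labels. -/
def Snd (E : List (Edge (n + m))) (R : List (ℕ × ℕ)) : Prop :=
  ∀ r ∈ R, ∃ p, Walk E r.1 p r.2 ∧ pval (fgen g h) p = 1

theorem conv_G {E : List (Edge (n + m))} {R : List (ℕ × ℕ)} (hR : Snd g h E R)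
    {v : ℕ} (p : List (Edge n)) : ∀ u, Walk (EG n m E R) u p v →
    ∃ p', Walk E u p' v ∧ pval (fgen g h) p' = Monoid.Coprod.inl (pval g p) := by
  induction p with
  | nil => intro u hw; exact ⟨[], hw, by simp⟩
  | cons f p ih =>
    rintro u ⟨h1, h2, h3⟩
    obtain ⟨p', h4, h5⟩ := ih _ h3
    rcases mem_EG.1 h1 with ⟨e, he, o, ho, rfl⟩ | ⟨r, hr, rfl⟩
    · refine ⟨e :: p', ⟨he, h2, h4⟩, ?_⟩
      rw [pval_cons, pval_cons, h5, map_mul, oval_toG g h ho]
    · obtain ⟨q, h6, h7⟩ := hR r hr
      simp only at h2 h4
      refine ⟨q ++ p', walk_append.2 ⟨r.2, by rw [← h2]; exact h6, h4⟩, ?_⟩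
      rw [pval_append, h7, h5, pval_cons]
      simp

theorem conv_H {E : List (Edge (n + m))} {R : List (ℕ × ℕ)} (hR : Snd g h E R)
    {v : ℕ} (p : List (Edge m)) : ∀ u, Walk (EH n m E R) u p v →
    ∃ p', Walk E u p' v ∧ pval (fgen g h) p' = Monoid.Coprod.inr (pval h p) := by
  induction p with
  | nil => intro u hw; exact ⟨[], hw, by simp⟩
  | cons f p ih =>
    rintro u ⟨h1, h2, h3⟩
    obtain ⟨p', h4, h5⟩ := ih _ h3
    rcases mem_EH.1 h1 with ⟨e, he, o, ho, rfl⟩ | ⟨r, hr, rfl⟩
    · refine ⟨e :: p', ⟨he, h2, h4⟩, ?_⟩
      rw [pval_cons, pval_cons, h5, map_mul, oval_toH g h ho]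
    · obtain ⟨q, h6, h7⟩ := hR r hr
      simp only at h2 h4
      refine ⟨q ++ p', walk_append.2 ⟨r.2, by rw [← h2]; exact h6, h4⟩, ?_⟩
      rw [pval_append, h7, h5, pval_cons]
      simp

/-- The value of a label as a member of a factor. -/
def sl (o : Option (Fin (n + m) × Bool)) : Option (G ⊕ H) :=
  o.map fun l => Sum.map (lval g) (lval h) (cls l)

theorem pval_eq_sval (p : List (Edge (n + m))) :
    pval (fgen g h) p = sval (p.map fun e => sl g h e.2) := by
  induction p with
  | nil => simp [sval]
  | cons e p ih =>
    have e1 : ∀ (o : Option (G ⊕ H)) t, sval (o :: t) =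
      (o.elim 1 (Sum.elim Monoid.Coprod.inl Monoid.Coprod.inr)) * sval t := by simp [sval]
    rw [pval_cons, ih, List.map_cons, e1]
    congr 1
    cases he : e.2 with
    | none => simp [sl]
    | some l =>
      simp only [sl, Option.map_some, Option.elim_some, oval, Option.getD_some]
      rw [lval_cls]
      cases cls l <;> simp

theorem conv_block_G {E : List (Edge (n + m))} {R : List (ℕ × ℕ)} {y : ℕ}
    (b : List (Edge (n + m))) : ∀ (f : List (Option G)) (x : ℕ),
    (b.map fun e => sl g h e.2) = (f.map fun o => o.map Sum.inl) →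
    Walk (E ++ R.map fun r => (r, none)) x b y → ∃ b', Walk (EG n m E R) x b' y ∧
      pval g b' = (f.map fun o => o.getD 1).prod ∧ b'.length = b.length := by
  induction b with
  | nil =>
    intro f x hf hw
    have : f = [] := by
      cases f with
      | nil => rfl
      | cons a f => simp at hf
    subst this
    exact ⟨[], hw, by simp, rfl⟩
  | cons e b ih =>
    rintro f x hf ⟨h1, h2, h3⟩
    cases f with
    | nil => simp at hf
    | cons o f =>
      simp only [List.map_cons, List.cons.injEq] at hf
      obtain ⟨b', h4, h5, h6⟩ := ih f _ hf.2 h3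
      obtain ⟨o', ho', hv⟩ : ∃ o', toG n m e.2 = some o' ∧ oval g o' = o.getD 1 := by
        have h7 := hf.1
        unfold sl at h7
        unfold toG
        cases he : e.2 with
        | none =>
          rw [he] at h7
          cases o with
          | none => exact ⟨none, rfl, rfl⟩
          | some a => simp at h7
        | some l =>
          rw [he] at h7
          cases o with
          | none => simp at h7
          | some a =>
            simp only [Option.map_some, Option.some.injEq] at h7
            cases hc : cls l with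
            | inl l' =>
              rw [hc] at h7
              simp only [Sum.map_inl, Sum.inl.injEq] at h7
              exact ⟨some l', by simp [hc], by simp [oval, h7]⟩
            | inr l' => rw [hc] at h7; simp at h7
      refine ⟨(e.1, o') :: b', ⟨?_, h2, h4⟩, ?_, by simp [h6]⟩
      · rw [mem_EG]
        rcases List.mem_append.1 h1 with h1 | h1
        · exact Or.inl ⟨e, h1, o', ho', rfl⟩
        · right
          obtain ⟨r, hr, rfl⟩ := List.mem_map.1 h1
          simp only [toG, Option.elim_none, Option.some.injEq] at ho'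
          exact ⟨r, hr, by rw [← ho']⟩
      · rw [pval_cons, h5]
        simp only [List.map_cons, List.prod_cons]
        rw [hv]

theorem conv_block_H {E : List (Edge (n + m))} {R : List (ℕ × ℕ)} {y : ℕ}
    (b : List (Edge (n + m))) : ∀ (f : List (Option H)) (x : ℕ),
    (b.map fun e => sl g h e.2) = (f.map fun o => o.map Sum.inr) →
    Walk (E ++ R.map fun r => (r, none)) x b y → ∃ b', Walk (EH n m E R) x b' y ∧
      pval h b' = (f.map fun o => o.getD 1).prod ∧ b'.length = b.length := by
  induction b with
  | nil =>
    intro f x hf hw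
    have : f = [] := by
      cases f with
      | nil => rfl
      | cons a f => simp at hf
    subst this
    exact ⟨[], hw, by simp, rfl⟩
  | cons e b ih =>
    rintro f x hf ⟨h1, h2, h3⟩
    cases f with
    | nil => simp at hf
    | cons o f =>
      simp only [List.map_cons, List.cons.injEq] at hf
      obtain ⟨b', h4, h5, h6⟩ := ih f _ hf.2 h3
      obtain ⟨o', ho', hv⟩ : ∃ o', toH n m e.2 = some o' ∧ oval h o' = o.getD 1 := by
        have h7 := hf.1
        unfold sl at h7
        unfold toH
        cases he : e.2 with
        | none =>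
          rw [he] at h7
          cases o with
          | none => exact ⟨none, rfl, rfl⟩
          | some a => simp at h7
        | some l =>
          rw [he] at h7
          cases o with
          | none => simp at h7
          | some a =>
            simp only [Option.map_some, Option.some.injEq] at h7
            cases hc : cls l with
            | inr l' =>
              rw [hc] at h7
              simp only [Sum.map_inr, Sum.inr.injEq] at h7
              exact ⟨some l', by simp [hc], by simp [oval, h7]⟩
            | inl l' => rw [hc] at h7; simp at h7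
      refine ⟨(e.1, o') :: b', ⟨?_, h2, h4⟩, ?_, by simp [h6]⟩
      · rw [mem_EH]
        rcases List.mem_append.1 h1 with h1 | h1
        · exact Or.inl ⟨e, h1, o', ho', rfl⟩
        · right
          obtain ⟨r, hr, rfl⟩ := List.mem_map.1 h1
          simp only [toH, Option.elim_none, Option.some.injEq] at ho'
          exact ⟨r, hr, by rw [← ho']⟩
      · rw [pval_cons, h5]
        simp only [List.map_cons, List.prod_cons]
        rw [hv]

/-- The shortcuts are closed. -/
structure Cld (E : List (Edge (n + m))) (R : List (ℕ × ℕ)) : Prop where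
  cg : ∀ u v p, p ≠ [] → Walk (EG n m E R) u p v → pval g p = 1 → (u, v) ∈ R
  ch : ∀ u v p, p ≠ [] → Walk (EH n m E R) u p v → pval h p = 1 → (u, v) ∈ R

theorem cld_complete {E : List (Edge (n + m))} {R : List (ℕ × ℕ)} (hR : Cld g h E R) (k : ℕ) :
    ∀ (p : List (Edge (n + m))) (u v : ℕ), (p.filter fun e => e.2.isSome).length ≤ k →
    p ≠ [] → Walk (E ++ R.map fun r => (r, none)) u p v → pval (fgen g h) p = 1 →
    (u, v) ∈ R := by
  induction k with
  | zero =>
    intro p u v hk hne hw _
    have h0 : ∀ e ∈ p, e.2 = none := by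
      intro e he
      by_contra hcon
      have h1 : e ∈ p.filter fun e => e.2.isSome := by
        rw [List.mem_filter]
        exact ⟨he, Option.isSome_iff_ne_none.2 hcon⟩
      rw [Nat.le_zero, List.length_eq_zero_iff] at hk
      rw [hk] at h1
      exact absurd h1 (by simp)
    obtain ⟨b', h1, h2, h3⟩ := conv_block_G g h (E := E) (R := R) p (p.map fun _ => none) u (by
      rw [List.map_map]
      refine List.map_congr_left fun e he => ?_
      simp [sl, h0 e he]) hw
    refine hR.cg u v b' ?_ h1 ?_
    · intro hb
      rw [hb] at h3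
      exact hne (List.length_eq_zero_iff.1 h3.symm)
    · rw [h2, List.map_map]
      refine List.prod_eq_one fun x hx => ?_
      obtain ⟨_, _, rfl⟩ := List.mem_map.1 hx
      rfl
  | succ k ih =>
    intro p u v hk hne hw hv
    by_cases hle : (p.filter fun e => e.2.isSome).length ≤ k
    · exact ih p u v hle hne hw hv
    · have hex : ∃ l, some l ∈ p.map fun e => sl g h e.2 := by
        have : p.filter (fun e => e.2.isSome) ≠ [] := by
          intro h0; rw [h0] at hle; simp at hle
        obtain ⟨e, he⟩ := List.exists_mem_of_ne_nil _ this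
        rw [List.mem_filter, Option.isSome_iff_exists] at he
        obtain ⟨h1, l, hl⟩ := he
        exact ⟨_, List.mem_map.2 ⟨e, h1, by simp [sl, hl]; rfl⟩⟩
      rw [pval_eq_sval] at hv
      obtain ⟨a, b, c, h1, ⟨l, hl⟩, h3⟩ := exists_block2 _ hv hex
      obtain ⟨ab, c', rfl, hab, hc⟩ := List.map_eq_append_iff.1 h1
      obtain ⟨a', b', rfl, ha, hb⟩ := List.map_eq_append_iff.1 hab
      obtain ⟨y, hw1, hw3⟩ := walk_append.1 hw
      obtain ⟨x, hw1, hw2⟩ := walk_append.1 hw1
      have hbl : ∃ e ∈ b', e.2.isSome = true := by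
        rw [← hb, List.mem_map] at hl
        obtain ⟨e, he, he2⟩ := hl
        refine ⟨e, he, ?_⟩
        unfold sl at he2
        rw [Option.map_eq_some_iff] at he2
        obtain ⟨l', hl', -⟩ := he2
        rw [hl']; rfl
      have hbne : b' ≠ [] := by
        obtain ⟨e, he, -⟩ := hbl
        intro h0; rw [h0] at he; exact absurd he (by simp)
      have hxy : (x, y) ∈ R ∧ pval (fgen g h) b' = 1 := by
        rcases h3 with ⟨f, hf, hf1⟩ | ⟨f, hf, hf1⟩
        · obtain ⟨b'', q1, q2, q3⟩ := conv_block_G g h (E := E) (R := R) b' f x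
            (by rw [hb, hf]) hw2
          refine ⟨hR.cg x y b'' ?_ q1 (by rw [q2, hf1]), ?_⟩
          · intro h0; rw [h0] at q3
            exact hbne (List.length_eq_zero_iff.1 q3.symm)
          · rw [pval_eq_sval, hb, hf, sval_inl, hf1, map_one]
        · obtain ⟨b'', q1, q2, q3⟩ := conv_block_H g h (E := E) (R := R) b' f x
            (by rw [hb, hf]) hw2
          refine ⟨hR.ch x y b'' ?_ q1 (by rw [q2, hf1]), ?_⟩
          · intro h0; rw [h0] at q3
            exact hbne (List.length_eq_zero_iff.1 q3.symm)
          · rw [pval_eq_sval, hb, hf, sval_inr, hf1, map_one]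
      refine ih (a' ++ (((x, y), none) :: c')) u v ?_ (by simp) ?_ ?_
      · have e1 : ((a' ++ (((x, y), none) :: c') : List (Edge (n + m))).filter
            fun e => e.2.isSome).length = (a'.filter fun e => e.2.isSome).length +
            (c'.filter fun e => e.2.isSome).length := by simp
        have e2 : ((a' ++ b' ++ c').filter fun e => e.2.isSome).length =
            (a'.filter fun e => e.2.isSome).length + (b'.filter fun e => e.2.isSome).length +
            (c'.filter fun e => e.2.isSome).length := by simp; omega
        have e3 : 0 < (b'.filter fun e => e.2.isSome).length := by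
          obtain ⟨e, he, he2⟩ := hbl
          exact List.length_pos_of_mem (List.mem_filter.2 ⟨he, he2⟩)
        omega
      · rw [walk_append]
        refine ⟨x, hw1, ?_, rfl, hw3⟩
        exact List.mem_append_right _ (List.mem_map.2 ⟨(x, y), hxy.1, rfl⟩)
      · rw [← pval_eq_sval, pval_append, pval_append, hxy.2, mul_one] at hv
        rw [pval_append, pval_cons, oval_none, one_mul]
        exact hv

end

end Pool.Agent.R531.Agp
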