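import Pool.Agent.R531.Agp.Walk

/-!
# Averages over bit strings
-/

namespace Pool.Agent.R531.Agp

/-- The average of a function over all bit strings of length `n`. -/
noncomputable def ex : ℕ → (List Bool → ℝ) → ℝ
  | 0, f => f []
  | n + 1, f => (ex n (fun y => f (true :: y)) + ex n (fun y => f (false :: y))) / 2

theorem ex_mono {n : ℕ} : ∀ {f g : List Bool → ℝ}, (∀ y, y.length = n → f y ≤ g y) →
    ex n f ≤ ex n g := by
  induction n with
  | zero => intro f g h; exact h [] rfl
  | succ n ih =>
    intro f g h
    have h1 := ih (f := fun y => f (true :: y)) (g := fun y => g (true :: y))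
      fun y hy => h _ (by simp [hy])
    have h2 := ih (f := fun y => f (false :: y)) (g := fun y => g (false :: y))
      fun y hy => h _ (by simp [hy])
    simp only [ex]; linarith

theorem ex_congr {n : ℕ} {f g : List Bool → ℝ} (h : ∀ y, y.length = n → f y = g y) :
    ex n f = ex n g :=
  le_antisymm (ex_mono fun y hy => (h y hy).le) (ex_mono fun y hy => (h y hy).ge)

theorem ex_const (n : ℕ) (c : ℝ) : ex n (fun _ => c) = c := by
  induction n with
  | zero => rfl
  | succ n ih => simp only [ex, ih]; ring

theorem ex_add (n : ℕ) : ∀ f g : List Bool → ℝ, ex n (fun y => f y + g y) = ex n f + ex n g := by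
  induction n with
  | zero => intro f g; rfl
  | succ n ih =>
    intro f g
    simp only [ex]
    rw [ih (fun y => f (true :: y)) (fun y => g (true :: y)),
      ih (fun y => f (false :: y)) (fun y => g (false :: y))]
    ring

theorem ex_sum {ι : Type*} (s : Finset ι) (n : ℕ) (f : ι → List Bool → ℝ) :
    ex n (fun y => ∑ i ∈ s, f i y) = ∑ i ∈ s, ex n (f i) := by
  classical
  induction s using Finset.induction_on with
  | empty => simp [ex_const]
  | insert a s ha ih =>
    rw [Finset.sum_insert ha, ← ih, ← ex_add]
    exact ex_congr fun y _ => by rw [Finset.sum_insert ha]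

theorem ex_append (a b : ℕ) : ∀ f : List Bool → ℝ,
    ex (a + b) f = ex a (fun y => ex b (fun z => f (y ++ z))) := by
  induction a with
  | zero => intro f; simp [ex]
  | succ a ih =>
    intro f
    rw [show a + 1 + b = (a + b) + 1 by ring]
    simp only [ex]
    rw [ih, ih]
    simp

open Classical in
/-- The indicator. -/
noncomputable def ind (p : Prop) : ℝ := if p then 1 else 0

theorem ind_true {p : Prop} (h : p) : ind p = 1 := by rw [ind, if_pos h]
theorem ind_false {p : Prop} (h : ¬ p) : ind p = 0 := by rw [ind, if_neg h]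
theorem ind_nonneg (p : Prop) : 0 ≤ ind p := by rw [ind]; split_ifs <;> norm_num
theorem ind_le_one (p : Prop) : ind p ≤ 1 := by rw [ind]; split_ifs <;> norm_num

/-- The probability that a random bit string of length `n` has a property. -/
noncomputable def pr (n : ℕ) (p : List Bool → Prop) : ℝ := ex n (fun y => ind (p y))

theorem pr_mono {n : ℕ} {p q : List Bool → Prop} (h : ∀ y, y.length = n → p y → q y) :
    pr n p ≤ pr n q := by
  refine ex_mono fun y hy => ?_
  by_cases hp : p y
  · rw [ind_true hp, ind_true (h y hy hp)]
  · rw [ind_false hp]; exact ind_nonneg _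

theorem pr_congr {n : ℕ} {p q : List Bool → Prop} (h : ∀ y, y.length = n → (p y ↔ q y)) :
    pr n p = pr n q :=
  le_antisymm (pr_mono fun y hy => (h y hy).1) (pr_mono fun y hy => (h y hy).2)

theorem pr_nonneg (n : ℕ) (p : List Bool → Prop) : 0 ≤ pr n p := by
  have := ex_mono (n := n) (f := fun _ => 0) (g := fun y => ind (p y)) fun y _ => ind_nonneg _
  rwa [ex_const] at this

theorem pr_le_one (n : ℕ) (p : List Bool → Prop) : pr n p ≤ 1 := by
  have := ex_mono (n := n) (f := fun y => ind (p y)) (g := fun _ => 1) fun y _ => ind_le_one _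
  rwa [ex_const] at this

/-- The union bound. -/
theorem pr_union {ι : Type*} [Fintype ι] {n : ℕ} {p : List Bool → Prop}
    {q : ι → List Bool → Prop} {c : ℝ} (h : ∀ y, y.length = n → p y → ∃ i, q i y)
    (hq : ∀ i, pr n (q i) ≤ c) : pr n p ≤ Fintype.card ι * c := by
  have h1 : pr n p ≤ ex n (fun y => ∑ i : ι, ind (q i y)) := by
    refine ex_mono fun y hy => ?_
    by_cases hp : p y
    · rw [ind_true hp]
      obtain ⟨i, hi⟩ := h y hy hp
      rw [← ind_true hi]
      exact Finset.single_le_sum (f := fun i => ind (q i y)) (fun i _ => ind_nonneg _)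
        (Finset.mem_univ i)
    · rw [ind_false hp]
      exact Finset.sum_nonneg fun i _ => ind_nonneg _
  rw [ex_sum] at h1
  refine h1.trans ?_
  calc ∑ i : ι, ex n (fun y => ind (q i y)) ≤ ∑ _i : ι, c := Finset.sum_le_sum fun i _ => hq i
    _ = Fintype.card ι * c := by simp

theorem pr_or (n : ℕ) (p q : List Bool → Prop) : pr n (fun y => p y ∨ q y) ≤ pr n p + pr n q := by
  unfold pr
  rw [← ex_add]
  refine ex_mono fun y _ => ?_
  by_cases hp : p y
  · rw [ind_true (Or.inl hp), ind_true hp]
    have := ind_nonneg (q y); linarith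
  · by_cases hq : q y
    · rw [ind_true (Or.inr hq), ind_true hq]
      have := ind_nonneg (p y); linarith
    · rw [ind_false (by tauto)]
      have := ind_nonneg (p y)
      have := ind_nonneg (q y); linarith

/-- Only the first bits matter. -/
theorem pr_take {n m : ℕ} (h : n ≤ m) (p : List Bool → Prop) :
    pr m (fun y => p (y.take n)) = pr n p := by
  obtain ⟨k, rfl⟩ := Nat.exists_eq_add_of_le h
  unfold pr
  rw [ex_append]
  refine ex_congr fun y hy => ?_
  have : ∀ z : List Bool, ind (p ((y ++ z).take n)) = ind (p y) := by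
    intro z
    rw [← hy, List.take_left]
  simp only [this]
  exact ex_const _ _

/-- Counting bit strings. -/
theorem ncard_eq (n : ℕ) : ∀ p : List Bool → Prop,
    ({y : List Bool | y.length = n ∧ p y}.ncard : ℝ) = 2 ^ n * pr n p := by
  induction n with
  | zero =>
    intro p
    by_cases hp : p []
    · have : {y : List Bool | y.length = 0 ∧ p y} = {[]} := by
        ext y; simp only [List.length_eq_zero_iff, Set.mem_setOf_eq, Set.mem_singleton_iff]
        constructor
        · exact fun h => h.1
        · rintro rfl; exact ⟨rfl, hp⟩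
      rw [this, Set.ncard_singleton]
      simp [pr, ex, ind_true hp]
    · have : {y : List Bool | y.length = 0 ∧ p y} = ∅ := by
        ext y; simp only [List.length_eq_zero_iff, Set.mem_setOf_eq, Set.mem_empty_iff_false,
          iff_false, not_and]
        rintro rfl; exact hp
      rw [this, Set.ncard_empty]
      simp [pr, ex, ind_false hp]
  | succ n ih =>
    intro p
    have hfin : ∀ (m : ℕ) (q : List Bool → Prop), {y : List Bool | y.length = m ∧ q y}.Finite :=
      fun m q => (List.finite_length_eq Bool m).subset fun y hy => hy.1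
    have h1 : {y : List Bool | y.length = n + 1 ∧ p y} =
        (List.cons true) '' {y | y.length = n ∧ p (true :: y)} ∪
        (List.cons false) '' {y | y.length = n ∧ p (false :: y)} := by
      ext y
      simp only [Set.mem_setOf_eq, Set.mem_union, Set.mem_image]
      constructor
      · rintro ⟨h1, h2⟩
        match y, h1, h2 with
        | true :: z, h1, h2 => exact Or.inl ⟨z, ⟨by simpa using h1, h2⟩, rfl⟩
        | false :: z, h1, h2 => exact Or.inr ⟨z, ⟨by simpa using h1, h2⟩, rfl⟩
      · rintro (⟨z, ⟨h1, h2⟩, rfl⟩ | ⟨z, ⟨h1, h2⟩, rfl⟩)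
        · exact ⟨by simp [h1], h2⟩
        · exact ⟨by simp [h1], h2⟩
    rw [h1, Set.ncard_union_eq ?_ ((hfin _ _).image _) ((hfin _ _).image _),
      Set.ncard_image_of_injective _ List.cons_injective,
      Set.ncard_image_of_injective _ List.cons_injective]
    · push_cast
      rw [ih (fun y => p (true :: y)), ih (fun y => p (false :: y))]
      simp only [pr, ex]
      ring
    · rw [Set.disjoint_left]
      rintro _ ⟨z, _, rfl⟩ ⟨z', _, h⟩
      simp at h

/-! ### Random subproducts -/

/-- The members of a list selected by bits. -/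
def sel {α : Type*} (y : List Bool) (T : List α) : List α :=
  ((y.zip T).filter (fun p => p.1)).map (fun p => p.2)

@[simp] theorem sel_nil {α : Type*} (y : List Bool) : sel y ([] : List α) = [] := by simp [sel]

@[simp] theorem sel_cons {α : Type*} (b : Bool) (y : List Bool) (t : α) (T : List α) :
    sel (b :: y) (t :: T) = if b then t :: sel y T else sel y T := by
  cases b <;> simp [sel]

theorem sel_map {α β : Type*} (f : α → β) (y : List Bool) (T : List α) :
    sel y (T.map f) = (sel y T).map f := by
  induction y generalizing T with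
  | nil => simp [sel]
  | cons b y ih =>
    cases T with
    | nil => simp
    | cons t T => cases b <;> simp [ih]

theorem length_sel_le {α : Type*} (y : List Bool) (T : List α) : (sel y T).length ≤ T.length := by
  unfold sel
  rw [List.length_map]
  refine (List.length_filter_le _ _).trans ?_
  rw [List.length_zip]
  omega

variable {Q : Type*} [Group Q]

/-- The distribution of a random subproduct. -/
theorem pr_sel (T : List Q) : ∀ x : Q,
    pr T.length (fun y => (sel y T).prod = x) = app T (pt Q) x := by
  classical
  induction T with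
  | nil =>
    intro x
    simp only [pr, List.length_nil, ex, sel_nil, List.prod_nil, app, List.foldr_nil]
    rw [pt_apply]
    by_cases h : x = 1
    · rw [if_pos h, ind_true h.symm]
    · rw [if_neg h, ind_false fun h' => h h'.symm]
  | cons t T ih =>
    intro x
    have e : app (t :: T) (pt Q) x = (app T (pt Q) x + app T (pt Q) (t⁻¹ * x)) / 2 :=
      hst_apply t _ x
    rw [e, ← ih, ← ih]
    simp only [pr, List.length_cons, ex, sel_cons, if_true, Bool.false_eq_true, if_false,
      List.prod_cons]
    have : ∀ y : List Bool, (t * (sel y T).prod = x) = ((sel y T).prod = t⁻¹ * x) := by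
      intro y
      rw [eq_inv_mul_iff_mul_eq]
    simp only [this]
    ring

/-- The random subproducts of many copies of a list whose short products are numerous do not
concentrate. -/
theorem pr_sel_le (S : List Q) (r s : ℕ) (B : Finset Q)
    (hBS : ∀ g ∈ B, ∃ w : List Q, w.length ≤ r ∧ (∀ t ∈ w, t ∈ S) ∧ w.prod = g)
    (hB : 2 ^ (2 * s + 1) ≤ B.card) (x : Q) :
    pr ((List.replicate (4 * r ^ 2 * S.length ^ 2 * (2 * s + 1) + 1) S).flatten).length (fun y =>
      (sel y (List.replicate (4 * r ^ 2 * S.length ^ 2 * (2 * s + 1) + 1) S).flatten).prod = x) ≤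
      1 / 2 ^ s := by
  rw [pr_sel]
  set f := app (List.replicate (4 * r ^ 2 * S.length ^ 2 * (2 * s + 1) + 1) S).flatten (pt Q)
  have h1 : ‖f‖ ^ 2 ≤ 2 / 2 ^ (2 * s + 1) := norm_final S r (2 * s + 1) B hBS hB
  have h2 : |f x| ≤ ‖f‖ := lp.norm_apply_le_norm (by norm_num) f x
  have h3 : (2 : ℝ) / 2 ^ (2 * s + 1) = (1 / 2 ^ s) ^ 2 := by
    rw [pow_succ, div_pow, one_pow, ← pow_mul, mul_comm s 2]
    field_simp
  rw [h3] at h1
  have h4 : ‖f‖ ≤ 1 / 2 ^ s := (sq_le_sq₀ (norm_nonneg _) (by positivity)).1 h1
  exact (le_abs_self _).trans (h2.trans h4)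

end Pool.Agent.R531.Agp
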