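import Pool.Agent.R531.Agp.Defs
import Pool.Agent.R531.Agp.Prob

/-!
# The register machine: from walks to subset products
-/

namespace Pool.Agent.R531.Agp

open NPC

section words

variable {G : Type*} [Group G] {n : ℕ} (g : Fin n → G)

/-- Words. -/
abbrev Wd (n : ℕ) : Type := List (Fin n × Bool)

theorem wval_append (u v : Wd n) : wval g (u ++ v) = wval g u * wval g v := by simp [wval]

@[simp] theorem wval_nil : wval g ([] : Wd n) = 1 := rfl

/-- The formal inverse of a word. -/
def winv (w : Wd n) : Wd n := (w.map fun l => (l.1, !l.2)).reverse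

theorem wval_winv (w : Wd n) : wval g (winv w) = (wval g w)⁻¹ := by
  induction w with
  | nil => simp [winv]
  | cons l w ih =>
    have h : winv (l :: w) = winv w ++ [(l.1, !l.2)] := by simp [winv]
    rw [h, wval_append, ih]
    have h2 : wval g (l :: w) = lval g l * wval g w := by simp [wval]
    rw [h2, mul_inv_rev]
    congr 1
    obtain ⟨i, b⟩ := l
    cases b <;> simp [wval, lval]

theorem wval_toList (o : Option (Fin n × Bool)) : wval g o.toList = oval g o := by
  cases o <;> simp [wval, oval]

end words

section C

variable {G : Type*} [Group G]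

/-- The set of the products of subsequences. -/
def C (l : List G) : Set G := {x | ∃ s : List G, s.Sublist l ∧ s.prod = x}

theorem mem_C_nil {x : G} : x ∈ C ([] : List G) ↔ x = 1 := by
  simp only [C, Set.mem_ofPred_eq, List.sublist_nil]
  constructor
  · rintro ⟨s, rfl, h⟩; simpa using h.symm
  · rintro rfl; exact ⟨[], rfl, rfl⟩

theorem one_mem_C (l : List G) : (1 : G) ∈ C l := ⟨[], List.nil_sublist _, rfl⟩

theorem mem_C_append {l l' : List G} {x : G} :
    x ∈ C (l ++ l') ↔ ∃ y ∈ C l, ∃ z ∈ C l', x = y * z := by
  constructor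
  · rintro ⟨s, hs, rfl⟩
    obtain ⟨s1, s2, rfl, h1, h2⟩ := List.sublist_append_iff.1 hs
    exact ⟨_, ⟨s1, h1, rfl⟩, _, ⟨s2, h2, rfl⟩, by simp⟩
  · rintro ⟨_, ⟨s1, h1, rfl⟩, _, ⟨s2, h2, rfl⟩, rfl⟩
    exact ⟨s1 ++ s2, h1.append h2, by simp⟩

theorem mem_C_cons {a : G} {l : List G} {x : G} :
    x ∈ C (a :: l) ↔ x ∈ C l ∨ ∃ y ∈ C l, x = a * y := by
  constructor
  · rintro ⟨s, hs, rfl⟩
    rcases List.sublist_cons_iff.1 hs with h | ⟨r, rfl, h⟩
    · exact Or.inl ⟨s, h, rfl⟩
    · exact Or.inr ⟨_, ⟨r, h, rfl⟩, by simp⟩
  · rintro (⟨s, hs, rfl⟩ | ⟨_, ⟨s, hs, rfl⟩, rfl⟩)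
    · exact ⟨s, hs.cons a, rfl⟩
    · exact ⟨a :: s, hs.cons_cons a, by simp⟩

theorem mem_C_singleton {a x : G} : x ∈ C [a] ↔ x = 1 ∨ x = a := by
  rw [mem_C_cons]; simp [mem_C_nil]

theorem mem_C_pair {a b x : G} : x ∈ C [a, b] ↔ x = 1 ∨ x = b ∨ x = a ∨ x = a * b := by
  rw [mem_C_cons]; simp only [mem_C_singleton]
  constructor
  · rintro ((h | h) | ⟨y, (rfl | rfl), rfl⟩)
    · exact Or.inl h
    · exact Or.inr (Or.inl h)
    · exact Or.inr (Or.inr (Or.inl (mul_one _)))
    · exact Or.inr (Or.inr (Or.inr rfl))
  · rintro (h | h | h | h)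
    · exact Or.inl (Or.inl h)
    · exact Or.inl (Or.inr h)
    · exact Or.inr ⟨1, Or.inl rfl, by rw [mul_one]; exact h⟩
    · exact Or.inr ⟨b, Or.inr rfl, h⟩

/-- The list of all subset products. -/
def CL (l : List G) : List G := l.sublists.map List.prod

theorem mem_CL {l : List G} {x : G} : x ∈ CL l ↔ x ∈ C l := by
  simp only [CL, List.mem_map, List.mem_sublists]; rfl

theorem length_CL (l : List G) : (CL l).length = 2 ^ l.length := by
  simp [CL]

end C

theorem SSP_iff {G : Type*} [Group G] {n : ℕ} (g : Fin n → G) (ws : List (Wd n)) (w : Wd n) :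
    SSP g (ws, w) ↔ wval g w ∈ C (ws.map (wval g)) := by
  constructor
  · rintro ⟨s, hs, h⟩
    exact ⟨s.map (wval g), hs.map _, h⟩
  · rintro ⟨s, hs, h⟩
    obtain ⟨s', hs', rfl⟩ := List.sublist_map_iff.1 hs
    exact ⟨s', hs', h⟩

section machine

variable {n : ℕ}

/-- States: the registers with their control words, and the output. -/
abbrev St (n : ℕ) : Type := List (ℕ × Wd n) × List (Wd n)

/-- The control word of a register. -/
def look (r : List (ℕ × Wd n)) (u : ℕ) : Option (Wd n) :=
  ((r.filter fun p => decide (p.1 = u)).head?).map fun p => p.2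

/-- The words of the new output. -/
def outs (a1 : Wd n) (a2 : Option (Wd n)) (h : Wd n) : List (Wd n) :=
  match a2 with
  | none => [a1 ++ h]
  | some a2 => [a1 ++ h, a2 ++ h]

/-- The products of nonempty subsequences of the new output. -/
def nonz (a1 : Wd n) (a2 : Option (Wd n)) (h : Wd n) : List (Wd n) :=
  match a2 with
  | none => [a1 ++ h]
  | some a2 => [a1 ++ h, a2 ++ h, a1 ++ h ++ (a2 ++ h)]

/-- The forbidden coincidence at the new register. -/
def extra (a1 : Wd n) (a2 : Option (Wd n)) (h : Wd n) : List (Wd n) :=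
  match a2 with
  | none => []
  | some a2 => [winv (a1 ++ h ++ a2)]

/-- The words that must not be subset products. -/
def tests (r : List (ℕ × Wd n)) (a1 : Wd n) (a2 : Option (Wd n)) (h : Wd n) : List (Wd n) :=
  h :: (extra a1 a2 h ++ r.flatMap fun w => (nonz a1 a2 h).map fun s => w.2 ++ winv s)

/-- The candidates for the new control word. -/
def cands (n : ℕ) (h : Wd n) : List (Wd n) :=
  ([] :: (List.finRange n).map fun i => [(i, true)]).map fun x => h ++ x

/-- The first good candidate. -/
def choose1 (dec : List (Wd n) × Wd n → Bool) (D : List (Wd n)) (r : List (ℕ × Wd n)) (a1 : Wd n)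
    (a2 : Option (Wd n)) (h : Wd n) : Option (Wd n) :=
  ((cands n h).filter fun c => (tests r a1 a2 c).all fun w => !dec (D, w)).head?

/-- One step of the machine. -/
def stepf (dec : List (Wd n) × Wd n → Bool) (rest : List (Wd n)) (e : Edge n) (h : Wd n)
    (st : St n) : Option (St n) :=
  match look st.1 e.1.1 with
  | none => some st
  | some hu =>
    (choose1 dec (rest ++ st.2) (st.1.filter fun p => !decide (p.1 = e.1.2))
      (winv hu ++ e.2.toList) ((look st.1 e.1.2).map winv) h).map fun c =>
        ((e.1.2, c) :: (st.1.filter fun p => !decide (p.1 = e.1.2)),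
          st.2 ++ outs (winv hu ++ e.2.toList) ((look st.1 e.1.2).map winv) c)

/-- The run of the machine. -/
def run (dec : List (Wd n) × Wd n → Bool) (T : List (Fin n × Bool)) :
    List (Edge n) → List Bool → St n → Option (St n)
  | [], _, st => some st
  | e :: π, y, st =>
    (stepf dec (π.map fun e => e.2.toList) e (sel (y.take T.length) T) st).bind
      (run dec T π (y.drop T.length))

theorem look_some {r : List (ℕ × Wd n)} {u : ℕ} {h : Wd n} (hl : look r u = some h) :
    (u, h) ∈ r := by
  unfold look at hl
  rw [Option.map_eq_some_iff] at hl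
  obtain ⟨p, hp, rfl⟩ := hl
  have h1 := List.mem_of_mem_head? (by rw [hp]; rfl : p ∈ (r.filter fun p => decide (p.1 = u)).head?)
  rw [List.mem_filter] at h1
  have h2 : p.1 = u := by simpa using h1.2
  rw [← h2]
  exact h1.1

theorem look_none {r : List (ℕ × Wd n)} {u : ℕ} (hl : look r u = none) (h : Wd n) :
    (u, h) ∉ r := by
  unfold look at hl
  rw [Option.map_eq_none_iff, List.head?_eq_none_iff] at hl
  intro hm
  have : (u, h) ∈ r.filter fun p => decide (p.1 = u) := by
    rw [List.mem_filter]; exact ⟨hm, by simp⟩
  rw [hl] at this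
  exact absurd this (by simp)

variable {G : Type*} [Group G] (g : Fin n → G)

/-- The sets of reachable values after one more edge. -/
def stepR (R : ℕ → Set G) (e : Edge n) : ℕ → Set G :=
  fun w => {x | x ∈ R w ∨ (w = e.1.2 ∧ ∃ y ∈ R e.1.1, x = y * oval g e.2)}

/-- The invariant. -/
structure Inv (rem : List G) (R : ℕ → Set G) (st : St n) : Prop where
  ne : ∀ u, (R u).Nonempty → ∃ h, (u, h) ∈ st.1
  snd : ∀ p ∈ st.1, ∀ x ∈ R p.1, x * wval g p.2 ∈ C (st.2.map (wval g))
  cpl : ∀ p ∈ st.1, ∀ c ∈ C rem, c⁻¹ * wval g p.2 ∈ C (st.2.map (wval g)) → c⁻¹ ∈ R p.1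

theorem stepR_of_empty {R : ℕ → Set G} {e : Edge n} (h : R e.1.1 = ∅) : stepR g R e = R := by
  funext w
  ext x
  simp [stepR, h]

theorem step_inv {dec : List (Wd n) × Wd n → Bool} (hdec : ∀ x, dec x = true ↔ SSP g x)
    {rest : List (Wd n)} {R : ℕ → Set G} {st st' : St n} {e : Edge n} {h : Wd n}
    (hI : Inv g (oval g e.2 :: rest.map (wval g)) R st) (hst : stepf dec rest e h st = some st') :
    Inv g (rest.map (wval g)) (stepR g R e) st' := by
  unfold stepf at hst
  cases hu : look st.1 e.1.1 with
  | none =>
    rw [hu] at hst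
    simp only [Option.some.injEq] at hst
    subst hst
    have hR : R e.1.1 = ∅ := by
      by_contra hne
      obtain ⟨k, hk⟩ := hI.ne _ (Set.nonempty_iff_ne_empty.2 hne)
      exact look_none hu _ hk
    rw [stepR_of_empty g hR]
    refine ⟨hI.ne, hI.snd, fun p hp c hc => hI.cpl p hp c ?_⟩
    rw [mem_C_cons]; exact Or.inl hc
  | some hu' =>
    rw [hu] at hst
    simp only at hst
    rw [Option.map_eq_some_iff] at hst
    obtain ⟨c0, hc0, rfl⟩ := hst
    have humem := look_some hu
    -- the chosen control word passes all tests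
    have hgood : ∀ w ∈ tests (st.1.filter fun p => !decide (p.1 = e.1.2))
        (winv hu' ++ e.2.toList) ((look st.1 e.1.2).map winv) c0,
        wval g w ∉ C ((rest ++ st.2).map (wval g)) := by
      unfold choose1 at hc0
      have h1 := List.mem_of_mem_head? (Option.mem_def.2 hc0)
      rw [List.mem_filter] at h1
      intro w hw hC
      have h2 := List.all_eq_true.1 h1.2 w hw
      rw [← SSP_iff, ← hdec] at hC
      rw [hC] at h2
      simp at h2
    set h0 := wval g c0 with hh0
    set a1 : G := (wval g hu')⁻¹ * oval g e.2 with ha1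
    have hva1 : wval g (winv hu' ++ e.2.toList) = a1 := by
      rw [wval_append, wval_winv, wval_toList]
    rw [List.map_append] at hgood
    have hD : ∀ c ∈ C (rest.map (wval g)), ∀ P ∈ C (st.2.map (wval g)),
        c * P ∈ C (rest.map (wval g) ++ st.2.map (wval g)) :=
      fun c hc P hP => mem_C_append.2 ⟨c, hc, P, hP, rfl⟩
    have hg1 : h0 ∉ C (rest.map (wval g) ++ st.2.map (wval g)) := hgood c0 (by simp [tests])
    cases hv : look st.1 e.1.2 with
    | none =>
      rw [hv] at hgood
      simp only [Option.map_none] at hgood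
      have hRv : R e.1.2 = ∅ := by
        by_contra hne
        obtain ⟨k, hk⟩ := hI.ne _ (Set.nonempty_iff_ne_empty.2 hne)
        exact look_none hv _ hk
      have hgw : ∀ p ∈ st.1, p.1 ≠ e.1.2 → wval g p.2 * (a1 * h0)⁻¹ ∉
          C (rest.map (wval g) ++ st.2.map (wval g)) := by
        intro p hp hpe
        have := hgood (p.2 ++ winv (winv hu' ++ e.2.toList ++ c0)) (by
          simp only [tests, extra, nonz, List.nil_append, List.mem_cons, List.mem_flatMap,
            List.mem_map, List.mem_filter]
          right
          exact ⟨p, ⟨hp, by simpa using hpe⟩, _, Or.inl rfl, rfl⟩)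
        rwa [wval_append, wval_winv, wval_append, hva1] at this
      have hC' : ∀ x, x ∈ C ((st.2 ++ [winv hu' ++ e.2.toList ++ c0]).map (wval g)) ↔
          x ∈ C (st.2.map (wval g)) ∨ ∃ P ∈ C (st.2.map (wval g)), x = P * (a1 * h0) := by
        intro x
        rw [List.map_append, mem_C_append]
        simp only [List.map_cons, List.map_nil, mem_C_singleton, wval_append _ (winv hu' ++ _),
          hva1]
        constructor
        · rintro ⟨y, hy, z, (rfl | rfl), rfl⟩
          · left; rwa [mul_one]
          · right; exact ⟨y, hy, rfl⟩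
        · rintro (h | ⟨P, hP, rfl⟩)
          · exact ⟨x, h, 1, Or.inl rfl, (mul_one _).symm⟩
          · exact ⟨P, hP, _, Or.inr rfl, rfl⟩
      simp only [Option.map_none, outs]
      refine ⟨?_, ?_, ?_⟩
      · rintro u ⟨x, hx⟩
        simp only [stepR, Set.mem_ofPred_eq] at hx
        by_cases hue : u = e.1.2
        · exact ⟨c0, by rw [hue]; exact List.mem_cons_self⟩
        · rcases hx with hx | ⟨h, -⟩
          · obtain ⟨k, hk⟩ := hI.ne u ⟨x, hx⟩
            exact ⟨k, List.mem_cons_of_mem _ (List.mem_filter.2 ⟨hk, by simpa using hue⟩)⟩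
          · exact absurd h hue
      · intro p hp x hx
        simp only [stepR, Set.mem_ofPred_eq] at hx
        rw [hC']
        rcases List.mem_cons.1 hp with rfl | hp
        · simp only at hx ⊢
          rcases hx with hx | ⟨-, y, hy, rfl⟩
          · rw [hRv] at hx; exact absurd hx (Set.notMem_empty _)
          · right
            refine ⟨_, hI.snd _ humem y hy, ?_⟩
            rw [ha1, ← hh0]; group
        · rw [List.mem_filter] at hp
          have hpe : p.1 ≠ e.1.2 := by simpa using hp.2
          rcases hx with hx | ⟨h, -⟩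
          · exact Or.inl (hI.snd p hp.1 x hx)
          · exact absurd h hpe
      · intro p hp c hc hx
        rw [hC'] at hx
        simp only [stepR, Set.mem_ofPred_eq]
        rcases List.mem_cons.1 hp with rfl | hp
        · simp only at hx ⊢
          rcases hx with hx | ⟨P, hP, hx⟩
          · exfalso
            refine hg1 ?_
            have : h0 = c * (c⁻¹ * wval g c0) := by rw [← hh0]; group
            rw [this]
            exact hD c hc _ hx
          · right
            refine ⟨trivial, (oval g e.2 * c)⁻¹, ?_, by group⟩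
            refine hI.cpl _ humem _ ?_ ?_
            · rw [mem_C_cons]; exact Or.inr ⟨c, hc, rfl⟩
            · have : (oval g e.2 * c)⁻¹ * wval g hu' = P := by
                rw [← hh0, ha1] at hx
                have h3 : c⁻¹ = P * ((wval g hu')⁻¹ * oval g e.2) := by
                  have := congrArg (· * h0⁻¹) hx
                  simpa [mul_assoc] using this
                rw [mul_inv_rev, h3]; group
              simp only
              rw [this]; exact hP
        · rw [List.mem_filter] at hp
          have hpe : p.1 ≠ e.1.2 := by simpa using hp.2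
          rcases hx with hx | ⟨P, hP, hx⟩
          · exact Or.inl (hI.cpl p hp.1 c (by rw [mem_C_cons]; exact Or.inl hc) hx)
          · exfalso
            refine hgw p hp.1 hpe ?_
            have : wval g p.2 * (a1 * h0)⁻¹ = c * P := by
              have h3 : wval g p.2 = c * (P * (a1 * h0)) := by rw [← hx]; group
              rw [h3]; group
            rw [this]
            exact hD c hc P hP
    | some hv' =>
      rw [hv] at hgood
      simp only [Option.map_some] at hgood
      have hvmem := look_some hv
      set a2 : G := (wval g hv')⁻¹ with ha2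
      have hva2 : wval g (winv hv') = a2 := wval_winv g hv'
      have hg2 : (a1 * h0 * a2)⁻¹ ∉ C (rest.map (wval g) ++ st.2.map (wval g)) := by
        have := hgood (winv (winv hu' ++ e.2.toList ++ c0 ++ winv hv')) (by simp [tests, extra])
        rwa [wval_winv, wval_append, wval_append, hva1, hva2] at this
      have hgw : ∀ p ∈ st.1, p.1 ≠ e.1.2 → ∀ s : Wd n,
          s ∈ nonz (winv hu' ++ e.2.toList) (some (winv hv')) c0 →
          wval g p.2 * (wval g s)⁻¹ ∉ C (rest.map (wval g) ++ st.2.map (wval g)) := by
        intro p hp hpe s hs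
        have := hgood (p.2 ++ winv s) (by
          simp only [tests, List.mem_cons, List.mem_append, List.mem_flatMap,
            List.mem_map, List.mem_filter]
          right; right
          exact ⟨p, ⟨hp, by simpa using hpe⟩, _, hs, rfl⟩)
        rwa [wval_append, wval_winv] at this
      have hC' : ∀ x, x ∈ C ((st.2 ++ [winv hu' ++ e.2.toList ++ c0, winv hv' ++ c0]).map
          (wval g)) ↔ ∃ P ∈ C (st.2.map (wval g)), x = P ∨ x = P * (a2 * h0) ∨
            x = P * (a1 * h0) ∨ x = P * (a1 * h0 * (a2 * h0)) := by
        intro x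
        rw [List.map_append, mem_C_append]
        simp only [List.map_cons, List.map_nil, mem_C_pair, wval_append _ (winv hu' ++ _),
          wval_append _ (winv hv'), hva1, hva2]
        constructor
        · rintro ⟨y, hy, z, (rfl | rfl | rfl | rfl), rfl⟩
          · exact ⟨y, hy, Or.inl (mul_one _)⟩
          · exact ⟨y, hy, Or.inr (Or.inl rfl)⟩
          · exact ⟨y, hy, Or.inr (Or.inr (Or.inl rfl))⟩
          · exact ⟨y, hy, Or.inr (Or.inr (Or.inr rfl))⟩
        · rintro ⟨P, hP, (rfl | rfl | rfl | rfl)⟩
          · exact ⟨_, hP, 1, Or.inl rfl, (mul_one _).symm⟩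
          · exact ⟨P, hP, _, Or.inr (Or.inl rfl), rfl⟩
          · exact ⟨P, hP, _, Or.inr (Or.inr (Or.inl rfl)), rfl⟩
          · exact ⟨P, hP, _, Or.inr (Or.inr (Or.inr rfl)), rfl⟩
      simp only [Option.map_some, outs]
      refine ⟨?_, ?_, ?_⟩
      · rintro u ⟨x, hx⟩
        simp only [stepR, Set.mem_ofPred_eq] at hx
        by_cases hue : u = e.1.2
        · exact ⟨c0, by rw [hue]; exact List.mem_cons_self⟩
        · rcases hx with hx | ⟨h, -⟩
          · obtain ⟨k, hk⟩ := hI.ne u ⟨x, hx⟩
            exact ⟨k, List.mem_cons_of_mem _ (List.mem_filter.2 ⟨hk, by simpa using hue⟩)⟩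
          · exact absurd h hue
      · intro p hp x hx
        simp only [stepR, Set.mem_ofPred_eq] at hx
        rw [hC']
        rcases List.mem_cons.1 hp with rfl | hp
        · simp only at hx ⊢
          rcases hx with hx | ⟨-, y, hy, rfl⟩
          · refine ⟨_, hI.snd _ hvmem x hx, Or.inr (Or.inl ?_)⟩
            rw [ha2, ← hh0]; group
          · refine ⟨_, hI.snd _ humem y hy, Or.inr (Or.inr (Or.inl ?_))⟩
            rw [ha1, ← hh0]; group
        · rw [List.mem_filter] at hp
          have hpe : p.1 ≠ e.1.2 := by simpa using hp.2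
          rcases hx with hx | ⟨h, -⟩
          · exact ⟨_, hI.snd p hp.1 x hx, Or.inl rfl⟩
          · exact absurd h hpe
      · intro p hp c hc hx
        rw [hC'] at hx
        simp only [stepR, Set.mem_ofPred_eq]
        obtain ⟨P, hP, hx⟩ := hx
        rcases List.mem_cons.1 hp with rfl | hp
        · simp only at hx ⊢
          rw [← hh0] at hx
          rcases hx with hx | hx | hx | hx
          · exfalso
            refine hg1 ?_
            have : h0 = c * P := by rw [← hx]; group
            rw [this]
            exact hD c hc _ hP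
          · left
            refine hI.cpl _ hvmem c (by rw [mem_C_cons]; exact Or.inl hc) ?_
            have h3 : c⁻¹ = P * a2 := by
              have := congrArg (· * h0⁻¹) hx
              simpa [mul_assoc] using this
            simp only
            rw [h3, ha2]
            simpa using hP
          · right
            refine ⟨trivial, (oval g e.2 * c)⁻¹, ?_, by group⟩
            refine hI.cpl _ humem _ ?_ ?_
            · rw [mem_C_cons]; exact Or.inr ⟨c, hc, rfl⟩
            · have : (oval g e.2 * c)⁻¹ * wval g hu' = P := by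
                rw [ha1] at hx
                have h3 : c⁻¹ = P * ((wval g hu')⁻¹ * oval g e.2) := by
                  have := congrArg (· * h0⁻¹) hx
                  simpa [mul_assoc] using this
                rw [mul_inv_rev, h3]; group
              simp only
              rw [this]; exact hP
          · exfalso
            refine hg2 ?_
            have h3 : c⁻¹ = P * (a1 * h0 * a2) := by
              have := congrArg (· * h0⁻¹) hx
              simpa [mul_assoc] using this
            have : (a1 * h0 * a2)⁻¹ = c * P := by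
              have h4 : c = (P * (a1 * h0 * a2))⁻¹ := by rw [← h3, inv_inv]
              rw [h4]; group
            rw [this]
            exact hD c hc P hP
        · rw [List.mem_filter] at hp
          have hpe : p.1 ≠ e.1.2 := by simpa using hp.2
          have key : ∀ z : G, wval g p.2 * z⁻¹ ∉ C (rest.map (wval g) ++ st.2.map (wval g)) →
              c⁻¹ * wval g p.2 ≠ P * z := by
            intro z hz hx
            refine hz ?_
            have : wval g p.2 * z⁻¹ = c * P := by
              have h3 : wval g p.2 = c * (P * z) := by rw [← hx]; group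
              rw [h3]; group
            rw [this]
            exact hD c hc P hP
          have n1 := hgw p hp.1 hpe (winv hu' ++ e.2.toList ++ c0) (by simp [nonz])
          have n2 := hgw p hp.1 hpe (winv hv' ++ c0) (by simp [nonz])
          have n3 := hgw p hp.1 hpe (winv hu' ++ e.2.toList ++ c0 ++ (winv hv' ++ c0))
            (by simp [nonz])
          rw [wval_append, hva1] at n1
          rw [wval_append, hva2] at n2
          rw [wval_append, wval_append, wval_append _ (winv hv'), hva1, hva2] at n3
          rcases hx with hx | hx | hx | hx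
          · refine Or.inl (hI.cpl p hp.1 c (by rw [mem_C_cons]; exact Or.inl hc) ?_)
            rw [hx]; exact hP
          · exact absurd hx (key _ n2)
          · exact absurd hx (key _ n1)
          · exact absurd hx (key _ n3)

/-- The invariant along the run. -/
theorem run_inv {dec : List (Wd n) × Wd n → Bool} (hdec : ∀ x, dec x = true ↔ SSP g x)
    (T : List (Fin n × Bool)) (π : List (Edge n)) : ∀ (y : List Bool) (R : ℕ → Set G)
    (st st' : St n), Inv g (π.map fun e => oval g e.2) R st → run dec T π y st = some st' →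
    Inv g [] (π.foldl (stepR g) R) st' := by
  induction π with
  | nil =>
    intro y R st st' hI h
    simp only [run, Option.some.injEq] at h
    subst h
    exact hI
  | cons e π ih =>
    intro y R st st' hI h
    simp only [run] at h
    rw [Option.bind_eq_some_iff] at h
    obtain ⟨st1, h1, h2⟩ := h
    have e1 : π.map (fun e => oval g e.2) = (π.map fun e => e.2.toList).map (wval g) := by
      rw [List.map_map]
      exact List.map_congr_left fun e _ => (wval_toList g e.2).symm
    have h3 : Inv g (oval g e.2 :: (π.map fun e => e.2.toList).map (wval g)) R st := by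
      rw [← e1]; exact hI
    have h4 := step_inv g hdec h3 h1
    rw [← e1] at h4
    exact ih _ _ _ _ h4 h2

/-- The value of the labels of a list of edges that form a walk (in any graph). -/
def Chain : ℕ → List (Edge n) → ℕ → Prop
  | u, [], v => u = v
  | u, e :: p, v => e.1.1 = u ∧ Chain e.1.2 p v

theorem mem_foldl_stepR (π : List (Edge n)) : ∀ (R : ℕ → Set G) (w : ℕ) (x : G),
    x ∈ π.foldl (stepR g) R w ↔ ∃ u, ∃ y ∈ R u, ∃ p : List (Edge n), p.Sublist π ∧
      Chain u p w ∧ x = y * pval g p := by
  induction π with
  | nil =>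
    intro R w x
    simp only [List.foldl_nil, List.sublist_nil]
    constructor
    · intro h; exact ⟨w, x, h, [], rfl, rfl, by simp [pval]⟩
    · rintro ⟨u, y, hy, p, rfl, hc, rfl⟩
      have hc : u = w := hc
      subst hc
      simpa [pval] using hy
  | cons e π ih =>
    intro R w x
    rw [List.foldl_cons, ih]
    constructor
    · rintro ⟨u, y, hy, p, hp, hc, rfl⟩
      rcases hy with hy | ⟨rfl, z, hz, rfl⟩
      · exact ⟨u, y, hy, p, hp.cons e, hc, rfl⟩
      · refine ⟨e.1.1, z, hz, e :: p, hp.cons_cons e, ⟨rfl, hc⟩, ?_⟩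
        simp [pval, mul_assoc]
    · rintro ⟨u, y, hy, p, hp, hc, rfl⟩
      rcases List.sublist_cons_iff.1 hp with h | ⟨r, rfl, h⟩
      · exact ⟨u, y, Or.inl hy, p, h, hc, rfl⟩
      · obtain ⟨h1, h2⟩ := hc
        refine ⟨e.1.2, y * oval g e.2, Or.inr ⟨rfl, y, ?_, rfl⟩, r, h, h2, ?_⟩
        · rw [h1]; exact hy
        · simp [pval, mul_assoc]

/-- The initial state. -/
def st0 (n : ℕ) (α : ℕ) : St n := ([(α, [])], [])

/-- The initial sets of values. -/
def R0 (G : Type*) [Group G] (α : ℕ) : ℕ → Set G := fun w => {x | w = α ∧ x = 1}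

theorem inv0 (α : ℕ) (rem : List G) : Inv g rem (R0 G α) (st0 n α) := by
  refine ⟨?_, ?_, ?_⟩
  · rintro u ⟨x, hx, -⟩
    exact ⟨[], by simp [st0, hx]⟩
  · rintro p hp x ⟨-, rfl⟩
    simp only [st0, List.mem_singleton] at hp
    subst hp
    simp [st0, mem_C_nil]
  · intro p hp c _ h
    simp only [st0, List.mem_singleton] at hp
    subst hp
    simp only [st0, List.map_nil, mem_C_nil, wval_nil, mul_one] at h
    exact ⟨rfl, h⟩

/-- The answer of a final state. -/
def answer (dec : List (Wd n) × Wd n → Bool) (ω : ℕ) (st : St n) : Bool :=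
  match look st.1 ω with
  | none => false
  | some h => dec (st.2, h)

/-- If the run is completed then the answer is right. -/
theorem answer_iff {dec : List (Wd n) × Wd n → Bool} (hdec : ∀ x, dec x = true ↔ SSP g x)
    (T : List (Fin n × Bool)) (π : List (Edge n)) (y : List Bool) (α ω : ℕ) (st : St n)
    (h : run dec T π y (st0 n α) = some st) :
    answer dec ω st = true ↔ ∃ p : List (Edge n), p.Sublist π ∧ Chain α p ω ∧ pval g p = 1 := by
  have hI := run_inv g hdec T π y (R0 G α) (st0 n α) st (inv0 g α _) h
  have h1 : (1 : G) ∈ π.foldl (stepR g) (R0 G α) ω ↔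
      ∃ p : List (Edge n), p.Sublist π ∧ Chain α p ω ∧ pval g p = 1 := by
    rw [mem_foldl_stepR]
    constructor
    · rintro ⟨u, y, ⟨rfl, rfl⟩, p, hp, hc, h⟩
      exact ⟨p, hp, hc, by simpa using h.symm⟩
    · rintro ⟨p, hp, hc, h⟩
      exact ⟨α, 1, ⟨rfl, rfl⟩, p, hp, hc, by simp [h]⟩
  rw [← h1]
  unfold answer
  cases hl : look st.1 ω with
  | none =>
    simp only [Bool.false_eq_true, false_iff]
    intro h2
    obtain ⟨k, hk⟩ := hI.ne ω ⟨1, h2⟩
    exact look_none hl _ hk
  | some hw =>
    simp only
    rw [hdec, SSP_iff]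
    constructor
    · intro h2
      have := hI.cpl _ (look_some hl) 1 (one_mem_C _) (by simpa using h2)
      simpa using this
    · intro h2
      have := hI.snd _ (look_some hl) 1 h2
      simpa using this

end machine

end Pool.Agent.R531.Agp
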