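import Pool.Agent.NPC.Classes

/-!
# Subset sum and acyclic graph word problems in groups; randomised polynomial time
-/

namespace Pool.Agent.R531.Agp

open NPC

/-- Members of `Fin n` are coded as natural numbers. -/
instance finEnc (n : ℕ) : TEnc (Fin n) := ⟨fun i => toT (i : ℕ), fun _ _ h => Fin.ext (TEnc.inj h)⟩

/-- The class `RP`: randomised polynomial-time algorithms (the random bits are a second input) which
never accept a nonmember and accept every member with probability at least `1/2`. -/
def InRP (A : Set (List Bool)) : Prop :=
  ∃ (V : List Bool → List Bool) (p : Polynomial ℕ), PolyTime V ∧ ∀ w : List Bool,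
    (w ∉ A → ∀ r : List Bool, r.length = p.eval w.length → V (pairBits w r) ≠ [true]) ∧
    (w ∈ A → 2 ^ (p.eval w.length) ≤ 2 * {r : List Bool |
      r.length = p.eval w.length ∧ V (pairBits w r) = [true]}.ncard)

/-- The class `coRP`: randomised polynomial-time algorithms which accept every member always and
accept every nonmember with probability at most `1/2`. -/
def InCoRP (A : Set (List Bool)) : Prop :=
  ∃ (V : List Bool → List Bool) (p : Polynomial ℕ), PolyTime V ∧ ∀ w : List Bool,
    (w ∈ A → ∀ r : List Bool, r.length = p.eval w.length → V (pairBits w r) = [true]) ∧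
    (w ∉ A → 2 * {r : List Bool |
      r.length = p.eval w.length ∧ V (pairBits w r) = [true]}.ncard ≤ 2 ^ (p.eval w.length))

/-- The class `ZPP` of languages decidable in expected polynomial time without error, in its
standard form as the intersection of `RP` and `coRP`. -/
def InZPP (A : Set (List Bool)) : Prop := InRP A ∧ InCoRP A

section

variable {G : Type*} [Group G] {n : ℕ}

/-- The value of a letter `(i, b)`: the generator `g i` if `b` is true, otherwise its inverse. -/
def lval (g : Fin n → G) (l : Fin n × Bool) : G := if l.2 then g l.1 else (g l.1)⁻¹

/-- The value of a word. -/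
def wval (g : Fin n → G) (w : List (Fin n × Bool)) : G := (w.map (lval g)).prod

/-- The subset sum problem of the group `G` with generators `g 0, ..., g (n - 1)`: given words
`w 1, ..., w k` and a word `w`, is there a subsequence of `w 1, ..., w k` the product of whose
values is the value of `w`? -/
def SSP (g : Fin n → G) (I : List (List (Fin n × Bool)) × List (Fin n × Bool)) : Prop :=
  ∃ s : List (List (Fin n × Bool)), s.Sublist I.1 ∧ (s.map (wval g)).prod = wval g I.2

/-- A labelled edge `((u, v), l)` leads from the vertex `u` to the vertex `v`; the label is a letter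
or `none`, the empty word. -/
abbrev Edge (n : ℕ) : Type := (ℕ × ℕ) × Option (Fin n × Bool)

/-- `Walk E u p v`: the list of edges `p` is a directed walk from `u` to `v` in the graph with the
list of edges `E`. -/
def Walk (E : List (Edge n)) : ℕ → List (Edge n) → ℕ → Prop
  | u, [], v => u = v
  | u, e :: p, v => e ∈ E ∧ e.1.1 = u ∧ Walk E e.1.2 p v

/-- The graph has no closed walk with at least one edge. -/
def Acyclic (E : List (Edge n)) : Prop := ∀ (u : ℕ) (p : List (Edge n)), Walk E u p u → p = []

/-- The value of a label. -/
def oval (g : Fin n → G) (o : Option (Fin n × Bool)) : G := (o.map (lval g)).getD 1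

/-- The value of the label of a walk. -/
def pval (g : Fin n → G) (p : List (Edge n)) : G := (p.map fun e => oval g e.2).prod

/-- The acyclic graph word problem of the group `G` with generators `g 0, ..., g (n - 1)`: given a
list of labelled edges and two vertices `α`, `ω`, is the graph acyclic, and is there a walk from
`α` to `ω` whose label has value `1`? -/
def AGP (g : Fin n → G) (I : List (Edge n) × ℕ × ℕ) : Prop :=
  Acyclic I.1 ∧ ∃ p : List (Edge n), Walk I.1 I.2.1 p I.2.2 ∧ pval g p = 1

/-- The balls of some polynomial radius `q s` in the central quotient `G / Z(G)` have at least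
`2 ^ s` elements, for all `s`. -/
def BigBalls (g : Fin n → G) : Prop :=
  ∃ q : Polynomial ℕ, ∀ s : ℕ, 2 ^ s ≤ {x : G ⧸ Subgroup.center G |
    ∃ w : List (Fin n × Bool), w.length ≤ q.eval s ∧ QuotientGroup.mk (wval g w) = x}.ncard

end

end Pool.Agent.R531.Agp
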