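import Pool.Agent.R531.Agp.Fail

/-!
# Random words do not concentrate modulo the center
-/

namespace Pool.Agent.R531.Agp

open NPC

section

variable {G : Type*} [Group G] {n : ℕ} (g : Fin n → G)

/-- All letters. -/
def lets (n : ℕ) : List (Fin n × Bool) := (List.finRange n).flatMap fun i => [(i, true), (i, false)]

theorem mem_lets (l : Fin n × Bool) : l ∈ lets n := by
  obtain ⟨i, b⟩ := l
  simp only [lets, List.mem_flatMap, List.mem_finRange, true_and]
  exact ⟨i, by cases b <;> simp⟩

theorem length_lets (n : ℕ) : (lets n).length = 2 * n := by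
  simp [lets, List.length_flatMap, mul_comm]

/-- Many copies of the list of all letters. -/
def Tl (n m : ℕ) : List (Fin n × Bool) := (List.replicate m (lets n)).flatten

/-- The number of copies. -/
noncomputable def mm (q : Polynomial ℕ) (n s : ℕ) : ℕ :=
  4 * (q.eval (2 * s + 1)) ^ 2 * (2 * n) ^ 2 * (2 * s + 1) + 1

theorem entropy {q : Polynomial ℕ} (hq : ∀ s : ℕ, 2 ^ s ≤ {x : G ⧸ Subgroup.center G |
    ∃ w : List (Fin n × Bool), w.length ≤ q.eval s ∧ QuotientGroup.mk (wval g w) = x}.ncard)
    (s : ℕ) (x : G ⧸ Subgroup.center G) :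
    pr (Tl n (mm q n s)).length (fun y =>
      (QuotientGroup.mk (wval g (sel y (Tl n (mm q n s)))) : G ⧸ Subgroup.center G) = x) ≤
      1 / 2 ^ s := by
  classical
  set φ : G →* G ⧸ Subgroup.center G := QuotientGroup.mk' _ with hφ
  set S : List (G ⧸ Subgroup.center G) := (lets n).map fun l => φ (lval g l) with hS
  have hSlen : S.length = 2 * n := by rw [hS, List.length_map, length_lets]
  have hfin : {x : G ⧸ Subgroup.center G | ∃ w : List (Fin n × Bool),
      w.length ≤ q.eval (2 * s + 1) ∧ QuotientGroup.mk (wval g w) = x}.Finite := by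
    refine ((List.finite_length_le (Fin n × Bool) (q.eval (2 * s + 1))).image
      fun w => (QuotientGroup.mk (wval g w) : G ⧸ Subgroup.center G)).subset ?_
    rintro x ⟨w, hw, rfl⟩
    exact ⟨w, hw, rfl⟩
  have hw : ∀ w : List (Fin n × Bool), (w.map fun l => φ (lval g l)).prod = φ (wval g w) := by
    intro w
    rw [wval, map_list_prod, List.map_map]
    rfl
  have h1 := pr_sel_le S (q.eval (2 * s + 1)) s hfin.toFinset (by
    intro y hy
    rw [Set.Finite.mem_toFinset] at hy
    obtain ⟨w, hwl, rfl⟩ := hy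
    refine ⟨w.map fun l => φ (lval g l), by simpa using hwl, ?_, hw w⟩
    intro t ht
    obtain ⟨l, -, rfl⟩ := List.mem_map.1 ht
    exact List.mem_map.2 ⟨l, mem_lets l, rfl⟩) (by
    have := hq (2 * s + 1)
    rwa [Set.ncard_eq_toFinset_card _ hfin] at this) x
  have hm : 4 * (q.eval (2 * s + 1)) ^ 2 * S.length ^ 2 * (2 * s + 1) + 1 = mm q n s := by
    rw [hSlen, mm]
  rw [hm] at h1
  have hT : (List.replicate (mm q n s) S).flatten = (Tl n (mm q n s)).map fun l => φ (lval g l) := by
    rw [Tl, List.map_flatten, List.map_replicate]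
  rw [hT, List.length_map] at h1
  refine le_trans (le_of_eq (pr_congr fun y _ => ?_)) h1
  rw [sel_map, hw]
  rfl

/-- The parameter in the algorithm. -/
def sS (n M e : ℕ) : ℕ := expo n (2 * M) + M + e

/-- The failure probability of the algorithm. -/
theorem pr_main {q : Polynomial ℕ} (hq : ∀ s : ℕ, 2 ^ s ≤ {x : G ⧸ Subgroup.center G |
    ∃ w : List (Fin n × Bool), w.length ≤ q.eval s ∧ QuotientGroup.mk (wval g w) = x}.ncard)
    (hgen : Subgroup.closure (Set.range g) = ⊤) {dec : List (Wd n) × Wd n → Bool}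
    (hdec : ∀ x, dec x = true ↔ SSP g x) (π : List (Edge n)) (α e : ℕ) :
    pr (π.length * (Tl n (mm q n (sS n π.length e))).length) (fun y =>
      run dec (Tl n (mm q n (sS n π.length e))) π y (st0 n α) = none) ≤ 1 / 2 ^ e := by
  have h1 := pr_run g hgen (Tl n (mm q n (sS n π.length e))) (c := 1 / 2 ^ (sS n π.length e))
    (entropy g hq _) (by positivity) hdec (L := 2 * π.length) π (st0 n α)
    (by simp [st0]; omega) (by simp [st0])
  refine h1.trans ?_
  have h2 : (π.length : ℝ) ≤ 2 ^ π.length := by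
    have := two_pow_ge π.length
    have h3 : π.length ≤ 2 ^ π.length := by omega
    exact_mod_cast h3
  calc (π.length : ℝ) * (2 ^ expo n (2 * π.length) * (1 / 2 ^ sS n π.length e))
      ≤ 2 ^ π.length * (2 ^ expo n (2 * π.length) * (1 / 2 ^ sS n π.length e)) :=
        mul_le_mul_of_nonneg_right h2 (by positivity)
    _ = 1 / 2 ^ e := by
      rw [sS, pow_add, pow_add]
      field_simp

end

end Pool.Agent.R531.Agp
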