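import Pool.Agent.R531.Agp.Core

/-!
# The probability of failure
-/

namespace Pool.Agent.R531.Agp

open NPC

section sq

variable {G : Type*} [Group G] {n : ℕ} (g : Fin n → G)

/-- The right multipliers of the candidates. -/
def Xf : Fin (n + 1) → G := Fin.cons 1 g

theorem mem_center_of {z : G} (hgen : Subgroup.closure (Set.range g) = ⊤)
    (h : ∀ i, g i * z = z * g i) : z ∈ Subgroup.center G := by
  rw [Subgroup.mem_center_iff]
  intro x
  have hx : x ∈ Subgroup.closure (Set.range g) := by rw [hgen]; trivial
  induction hx using Subgroup.closure_induction with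
  | mem x hx => obtain ⟨i, rfl⟩ := hx; exact h i
  | one => simp
  | mul x y _ _ h1 h2 => rw [mul_assoc, h2, ← mul_assoc, h1, mul_assoc]
  | inv x _ h1 =>
    have := congrArg (fun t => x⁻¹ * t * x⁻¹) h1
    simpa [mul_assoc] using this.symm

/-- An element is determined modulo the center by the squares of its products. -/
theorem squares_determine (hgen : Subgroup.closure (Set.range g) = ⊤) (a h h' : G)
    (H : ∀ i, (a * (h * Xf g i)) ^ 2 = (a * (h' * Xf g i)) ^ 2) :
    (QuotientGroup.mk h : G ⧸ Subgroup.center G) = QuotientGroup.mk h' := by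
  rw [QuotientGroup.eq]
  set b := a * h with hb
  set b' := a * h' with hb'
  have hz : h⁻¹ * h' = b⁻¹ * b' := by rw [hb, hb']; group
  rw [hz]
  set z := b⁻¹ * b' with hz'
  have hbz : b' = b * z := by rw [hz']; group
  have h0 := H 0
  simp only [Xf, Fin.cons_zero, mul_one] at h0
  rw [← hb, ← hb', hbz] at h0
  -- b * b = b z b z
  have e0 : b = z * b * z := by
    have : b * b = b * (z * b * z) := by
      calc b * b = b ^ 2 := (sq b).symm
        _ = (b * z) ^ 2 := h0
        _ = _ := by rw [sq]; group
    exact mul_left_cancel this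
  refine mem_center_of g hgen fun i => ?_
  have hi := H i.succ
  simp only [Xf, Fin.cons_succ] at hi
  rw [← mul_assoc, ← mul_assoc, ← hb, ← hb', hbz] at hi
  have e1 : b * g i * b = b * z * g i * b * z := by
    have : (b * g i * b) * g i = (b * z * g i * b * z) * g i := by
      calc (b * g i * b) * g i = (b * g i) ^ 2 := by rw [sq]; group
        _ = (b * z * g i) ^ 2 := hi
        _ = _ := by rw [sq]; group
    exact mul_right_cancel this
  -- x b = z x b z
  have e2 : g i * b = z * g i * (b * z) := by
    have : b * (g i * b) = b * (z * g i * (b * z)) := by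
      calc b * (g i * b) = b * g i * b := by group
        _ = _ := e1
        _ = _ := by group
    exact mul_left_cancel this
  have e3 : b * z = z⁻¹ * b := by
    calc b * z = z⁻¹ * (z * b * z) := by group
      _ = z⁻¹ * b := by rw [← e0]
  rw [e3] at e2
  have e4 : g i = z * g i * z⁻¹ := by
    have : g i * b = (z * g i * z⁻¹) * b := by rw [e2]; group
    exact mul_right_cancel this
  calc g i * z = (z * g i * z⁻¹) * z := by rw [← e4]
    _ = z * g i := by group

theorem fail_bound (hgen : Subgroup.closure (Set.range g) = ⊤) {N : ℕ} (W : List Bool → G)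
    {c : ℝ} (hc : ∀ x : G ⧸ Subgroup.center G,
      pr N (fun y => (QuotientGroup.mk (W y) : G ⧸ Subgroup.center G) = x) ≤ c) (hc0 : 0 ≤ c)
    (a : G) (A Bq : List G) :
    pr N (fun y => (∃ i, W y * Xf g i ∈ A) ∨ ∀ i, (a * (W y * Xf g i)) ^ 2 ∈ Bq) ≤
      (((n + 1) * A.length + Bq.length ^ (n + 1) : ℕ) : ℝ) * c := by
  refine (pr_or _ _ _).trans ?_
  push_cast
  rw [add_mul]
  refine add_le_add ?_ ?_
  · have := pr_union (n := N) (p := fun y => ∃ i, W y * Xf g i ∈ A)
      (q := fun (k : Fin (n + 1) × Fin A.length) y => W y * Xf g k.1 = A.get k.2) (c := c) ?_ ?_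
    · simpa [Fintype.card_prod] using this
    · rintro y - ⟨i, hi⟩
      obtain ⟨j, hj⟩ := List.mem_iff_get.1 hi
      exact ⟨(i, j), hj.symm⟩
    · rintro ⟨i, j⟩
      refine le_trans ?_ (hc (QuotientGroup.mk (A.get j * (Xf g i)⁻¹)))
      refine pr_mono fun y _ h => ?_
      simp only at h
      rw [← h]; simp
  · have := pr_union (n := N) (p := fun y => ∀ i, (a * (W y * Xf g i)) ^ 2 ∈ Bq)
      (q := fun (τ : Fin (n + 1) → Fin Bq.length) y => ∀ i, (a * (W y * Xf g i)) ^ 2 = Bq.get (τ i))
      (c := c) ?_ ?_
    · simpa using this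
    · rintro y - h
      choose τ hτ using fun i => List.mem_iff_get.1 (h i)
      exact ⟨τ, fun i => (hτ i).symm⟩
    · intro τ
      by_cases hne : ∃ y0, ∀ i, (a * (W y0 * Xf g i)) ^ 2 = Bq.get (τ i)
      · obtain ⟨y0, hy0⟩ := hne
        refine le_trans ?_ (hc (QuotientGroup.mk (W y0)))
        refine pr_mono fun y _ h => ?_
        refine squares_determine g hgen a _ _ fun i => ?_
        rw [h i, hy0 i]
      · push Not at hne
        refine le_trans (le_of_eq ?_) hc0
        have : pr N (fun y => ∀ i, (a * (W y * Xf g i)) ^ 2 = Bq.get (τ i)) =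
            pr N (fun _ => False) := by
          refine pr_congr fun y _ => ⟨fun h => ?_, False.elim⟩
          obtain ⟨i, hi⟩ := hne y
          exact hi (h i)
        rw [this]
        unfold pr
        have h2 : (fun _ : List Bool => ind False) = fun _ => 0 := by
          funext _; exact ind_false not_false
        rw [h2]
        exact ex_const _ _

end sq

section stepfail

variable {G : Type*} [Group G] {n : ℕ} (g : Fin n → G)

/-- The linear bad values. -/
def badA (D K : List G) (a1 a2 : G) : List G :=
  D ++ (D.map (fun d => a1⁻¹ * d⁻¹ * a2⁻¹) ++ ((K.flatMap fun k => D.map fun d => a1⁻¹ * d⁻¹ * k) ++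
    K.flatMap fun k => D.map fun d => a2⁻¹ * d⁻¹ * k))

/-- The bad squares. -/
def badB (D K : List G) (a1 a2 : G) : List G :=
  K.flatMap fun k => D.map fun d => a2 * a1⁻¹ * d⁻¹ * k

theorem length_badA (D K : List G) (a1 a2 : G) :
    (badA D K a1 a2).length = (2 + 2 * K.length) * D.length := by
  simp only [badA, List.length_append, List.length_map, List.length_flatMap, List.map_const',
    List.sum_replicate, smul_eq_mul]
  ring

theorem length_badB (D K : List G) (a1 a2 : G) :
    (badB D K a1 a2).length = K.length * D.length := by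
  simp only [badB, List.length_map, List.length_flatMap, List.map_const',
    List.sum_replicate, smul_eq_mul]

/-- A failed test is caused by a bad value. -/
theorem tests_bad {D : List G} {r : List (ℕ × Wd n)} {a1 : Wd n} {a2 : Option (Wd n)} {c w : Wd n}
    (hw : w ∈ tests r a1 a2 c) (hD : wval g w ∈ D) :
    wval g c ∈ badA D (r.map fun p => wval g p.2) (wval g a1) (wval g (a2.getD [])) ∨
    (wval g (a2.getD []) * wval g c) ^ 2 ∈
      badB D (r.map fun p => wval g p.2) (wval g a1) (wval g (a2.getD [])) := by
  have lin1 : ∀ p ∈ r, wval g (p.2 ++ winv (a1 ++ c)) ∈ D →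
      wval g c ∈ badA D (r.map fun p => wval g p.2) (wval g a1) (wval g (a2.getD [])) := by
    intro p hp h
    simp only [badA, List.mem_append, List.mem_flatMap, List.mem_map]
    right; right; left
    refine ⟨wval g p.2, ⟨p, hp, rfl⟩, _, h, ?_⟩
    rw [wval_append, wval_winv, wval_append]; group
  unfold tests at hw
  rw [List.mem_cons, List.mem_append, List.mem_flatMap] at hw
  cases a2 with
  | none =>
    rcases hw with rfl | hw | ⟨p, hp, hw⟩
    · left; simp only [badA, List.mem_append]; exact Or.inl hD
    · simp [extra] at hw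
    · simp only [nonz, List.map_cons, List.map_nil, List.mem_singleton] at hw
      subst hw
      exact Or.inl (lin1 p hp hD)
  | some a2 =>
    simp only [Option.getD_some] at lin1 ⊢
    rcases hw with rfl | hw | ⟨p, hp, hw⟩
    · left; simp only [badA, List.mem_append]; exact Or.inl hD
    · simp only [extra, List.mem_singleton] at hw
      subst hw
      left
      simp only [badA, List.mem_append, List.mem_map]
      right; left
      refine ⟨_, hD, ?_⟩
      rw [wval_winv, wval_append, wval_append]; group
    · simp only [nonz, List.map_cons, List.map_nil, List.mem_cons, List.not_mem_nil,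
        or_false] at hw
      rcases hw with rfl | rfl | rfl
      · exact Or.inl (lin1 p hp hD)
      · left
        simp only [badA, List.mem_append, List.mem_flatMap, List.mem_map]
        right; right; right
        refine ⟨wval g p.2, ⟨p, hp, rfl⟩, _, hD, ?_⟩
        rw [wval_append, wval_winv, wval_append]; group
      · right
        simp only [badB, List.mem_flatMap, List.mem_map]
        refine ⟨wval g p.2, ⟨p, hp, rfl⟩, _, hD, ?_⟩
        simp only [wval_append, wval_winv, sq]; group

theorem step_none {dec : List (Wd n) × Wd n → Bool} (hdec : ∀ x, dec x = true ↔ SSP g x)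
    {rest : List (Wd n)} {st : St n} {e : Edge n} {h : Wd n} {hu : Wd n}
    (hl : look st.1 e.1.1 = some hu) (hst : stepf dec rest e h st = none) :
    (∃ i, wval g h * Xf g i ∈ badA (CL ((rest ++ st.2).map (wval g)))
        ((st.1.filter fun p => !decide (p.1 = e.1.2)).map fun p => wval g p.2)
        (wval g (winv hu ++ e.2.toList)) (wval g (((look st.1 e.1.2).map winv).getD []))) ∨
      ∀ i, (wval g (((look st.1 e.1.2).map winv).getD []) * (wval g h * Xf g i)) ^ 2 ∈
        badB (CL ((rest ++ st.2).map (wval g)))
        ((st.1.filter fun p => !decide (p.1 = e.1.2)).map fun p => wval g p.2)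
        (wval g (winv hu ++ e.2.toList)) (wval g (((look st.1 e.1.2).map winv).getD [])) := by
  unfold stepf at hst
  rw [hl] at hst
  simp only at hst
  rw [Option.map_eq_none_iff, choose1, List.head?_eq_none_iff, List.filter_eq_nil_iff] at hst
  have key : ∀ i, wval g h * Xf g i ∈ badA (CL ((rest ++ st.2).map (wval g)))
        ((st.1.filter fun p => !decide (p.1 = e.1.2)).map fun p => wval g p.2)
        (wval g (winv hu ++ e.2.toList)) (wval g (((look st.1 e.1.2).map winv).getD [])) ∨
      (wval g (((look st.1 e.1.2).map winv).getD []) * (wval g h * Xf g i)) ^ 2 ∈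
        badB (CL ((rest ++ st.2).map (wval g)))
        ((st.1.filter fun p => !decide (p.1 = e.1.2)).map fun p => wval g p.2)
        (wval g (winv hu ++ e.2.toList)) (wval g (((look st.1 e.1.2).map winv).getD [])) := by
    intro i
    obtain ⟨x, hx, hxv⟩ : ∃ x : Wd n, x ∈ ([] :: (List.finRange n).map fun i => [(i, true)]) ∧
        wval g x = Xf g i := by
      refine Fin.cases ⟨[], by simp, by simp [Xf]⟩ (fun i => ⟨[(i, true)], ?_, ?_⟩) i
      · simp
      · simp [wval, lval, Xf]
    have h1 := hst (h ++ x) (List.mem_map.2 ⟨x, hx, rfl⟩)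
    rw [List.all_eq_true] at h1
    push Not at h1
    obtain ⟨w, hw, hw2⟩ := h1
    simp only [Bool.not_eq_true, Bool.not_eq_false'] at hw2
    rw [hdec, SSP_iff, ← mem_CL] at hw2
    have h3 := tests_bad g hw hw2
    rwa [wval_append g h x, hxv] at h3
  by_cases hex : ∃ i, wval g h * Xf g i ∈ badA (CL ((rest ++ st.2).map (wval g)))
        ((st.1.filter fun p => !decide (p.1 = e.1.2)).map fun p => wval g p.2)
        (wval g (winv hu ++ e.2.toList)) (wval g (((look st.1 e.1.2).map winv).getD []))
  · exact Or.inl hex
  · push Not at hex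
    exact Or.inr fun i => (key i).resolve_left (hex i)

/-- The exponent in the bound. -/
def expo (n L : ℕ) : ℕ := 2 * L * (n + 1) + n + 2

theorem two_pow_ge (n : ℕ) : n + 1 ≤ 2 ^ n := by
  induction n with
  | zero => simp
  | succ n ih => rw [pow_succ]; omega

theorem numbers {n L a b K D : ℕ} (hK : K ≤ L) (hD : D ≤ 2 ^ L)
    (ha : a = (2 + 2 * K) * D) (hb : b = K * D) :
    (n + 1) * a + b ^ (n + 1) ≤ 2 ^ expo n L := by
  have h1 : 2 + 2 * K ≤ 2 ^ (L + 1) := by
    have := two_pow_ge L
    rw [pow_succ]; omega
  have h2 : a ≤ 2 ^ (L + 1) * 2 ^ L := by rw [ha]; exact Nat.mul_le_mul h1 hD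
  have h3 : (n + 1) * a ≤ 2 ^ n * (2 ^ (L + 1) * 2 ^ L) := Nat.mul_le_mul (two_pow_ge n) h2
  have h4 : 2 ^ n * (2 ^ (L + 1) * 2 ^ L) ≤ 2 ^ (2 * L * (n + 1) + n + 1) := by
    rw [← pow_add, ← pow_add]
    refine Nat.pow_le_pow_right (by norm_num) ?_
    nlinarith
  have h5 : K ≤ 2 ^ L := by have := two_pow_ge L; omega
  have h6 : b ≤ 2 ^ L * 2 ^ L := by rw [hb]; exact Nat.mul_le_mul h5 hD
  have h7 : b ^ (n + 1) ≤ 2 ^ (2 * L * (n + 1) + n + 1) := by
    calc b ^ (n + 1) ≤ (2 ^ L * 2 ^ L) ^ (n + 1) := Nat.pow_le_pow_left h6 _
      _ = 2 ^ (2 * L * (n + 1)) := by rw [← pow_add, ← pow_mul]; ring_nf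
      _ ≤ _ := Nat.pow_le_pow_right (by norm_num) (by omega)
  have h8 : 2 ^ expo n L = 2 ^ (2 * L * (n + 1) + n + 1) + 2 ^ (2 * L * (n + 1) + n + 1) := by
    rw [expo, pow_succ]; ring
  rw [h8]
  exact Nat.add_le_add (h3.trans h4) h7

/-- The failure probability of one step. -/
theorem pr_step (hgen : Subgroup.closure (Set.range g) = ⊤) {N : ℕ} (W : List Bool → Wd n)
    {c : ℝ} (hc : ∀ x : G ⧸ Subgroup.center G,
      pr N (fun y => (QuotientGroup.mk (wval g (W y)) : G ⧸ Subgroup.center G) = x) ≤ c)
    (hc0 : 0 ≤ c) {dec : List (Wd n) × Wd n → Bool} (hdec : ∀ x, dec x = true ↔ SSP g x)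
    {rest : List (Wd n)} {st : St n} {e : Edge n} {L : ℕ} (h1 : st.1.length ≤ L)
    (h2 : rest.length + st.2.length ≤ L) :
    pr N (fun y => stepf dec rest e (W y) st = none) ≤ 2 ^ expo n L * c := by
  cases hl : look st.1 e.1.1 with
  | none =>
    have h3 : pr N (fun y => stepf dec rest e (W y) st = none) ≤ ex N (fun _ => 0) := by
      refine ex_mono fun y _ => ?_
      rw [ind_false]
      simp [stepf, hl]
    rw [ex_const] at h3
    exact h3.trans (by positivity)
  | some hu =>
    set D := CL ((rest ++ st.2).map (wval g))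
    set K := (st.1.filter fun p => !decide (p.1 = e.1.2)).map fun p => wval g p.2
    set a1 := wval g (winv hu ++ e.2.toList)
    set a2 := wval g (((look st.1 e.1.2).map winv).getD [])
    have hm : pr N (fun y => stepf dec rest e (W y) st = none) ≤
        pr N (fun y => (∃ i, wval g (W y) * Xf g i ∈ badA D K a1 a2) ∨
          ∀ i, (a2 * (wval g (W y) * Xf g i)) ^ 2 ∈ badB D K a1 a2) :=
      pr_mono fun y _ h => step_none g hdec hl h
    refine hm.trans ((fail_bound g hgen (fun y => wval g (W y)) hc hc0 a2 _ _).trans ?_)
    refine mul_le_mul_of_nonneg_right ?_ hc0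
    have hK : K.length ≤ L := by
      simp only [K, List.length_map]
      exact (List.length_filter_le _ _).trans h1
    have hD : D.length ≤ 2 ^ L := by
      simp only [D, length_CL, List.length_map, List.length_append]
      exact Nat.pow_le_pow_right (by norm_num) h2
    exact_mod_cast numbers (n := n) hK hD (length_badA D K a1 a2) (length_badB D K a1 a2)

theorem step_size {dec : List (Wd n) × Wd n → Bool} {rest : List (Wd n)} {e : Edge n} {h : Wd n}
    {st st' : St n} (hst : stepf dec rest e h st = some st') :
    st'.1.length ≤ st.1.length + 1 ∧ st'.2.length ≤ st.2.length + 2 := by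
  unfold stepf at hst
  cases hu : look st.1 e.1.1 with
  | none =>
    rw [hu] at hst
    simp only [Option.some.injEq] at hst
    subst hst
    omega
  | some hu' =>
    rw [hu] at hst
    simp only at hst
    rw [Option.map_eq_some_iff] at hst
    obtain ⟨c0, -, rfl⟩ := hst
    simp only [List.length_cons, List.length_append]
    refine ⟨Nat.add_le_add_right (List.length_filter_le _ _) 1, ?_⟩
    cases (look st.1 e.1.2).map winv <;> simp [outs]

/-- The failure probability of the run. -/
theorem pr_run (hgen : Subgroup.closure (Set.range g) = ⊤) (T : List (Fin n × Bool))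
    {c : ℝ} (hc : ∀ x : G ⧸ Subgroup.center G,
      pr T.length (fun y => (QuotientGroup.mk (wval g (sel y T)) : G ⧸ Subgroup.center G) = x) ≤ c)
    (hc0 : 0 ≤ c) {dec : List (Wd n) × Wd n → Bool} (hdec : ∀ x, dec x = true ↔ SSP g x) {L : ℕ}
    (π : List (Edge n)) : ∀ st : St n, st.1.length + π.length ≤ L + 1 →
      st.2.length + 2 * π.length ≤ L + 1 →
      pr (π.length * T.length) (fun y => run dec T π y st = none) ≤
        π.length * (2 ^ expo n L * c) := by
  induction π with
  | nil =>
    intro st _ _
    simp [pr, ex, run, ind_false]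
  | cons e π ih =>
    intro st h1 h2
    simp only [List.length_cons] at h1 h2 ⊢
    have hN : (π.length + 1) * T.length = T.length + π.length * T.length := by ring
    rw [hN]
    unfold pr
    rw [ex_append]
    have key : ∀ y1 : List Bool, y1.length = T.length →
        ex (π.length * T.length) (fun z => ind (run dec T (e :: π) (y1 ++ z) st = none)) ≤
        ind (stepf dec (π.map fun e => e.2.toList) e (sel y1 T) st = none) +
          π.length * (2 ^ expo n L * c) := by
      intro y1 hy1
      have e1 : ∀ z, run dec T (e :: π) (y1 ++ z) st =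
          (stepf dec (π.map fun e => e.2.toList) e (sel y1 T) st).bind (run dec T π z) := by
        intro z
        simp only [run]
        rw [← hy1, List.take_left, List.drop_left]
      simp only [e1]
      cases hs : stepf dec (π.map fun e => e.2.toList) e (sel y1 T) st with
      | none =>
        simp only [Option.bind_none, ind_true]
        rw [ex_const]
        have : (0 : ℝ) ≤ π.length * (2 ^ expo n L * c) := by positivity
        linarith
      | some st' =>
        obtain ⟨s1, s2⟩ := step_size hs
        have := ih st' (by omega) (by omega)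
        simp only [Option.bind_some, reduceCtorEq, not_false_eq_true, ind_false, zero_add]
        exact this
    refine (ex_mono key).trans ?_
    rw [ex_add, ex_const]
    have h3 := pr_step g hgen (fun y => sel y T) hc hc0 hdec (rest := π.map fun e => e.2.toList)
      (st := st) (e := e) (L := L) (by omega) (by rw [List.length_map]; omega)
    unfold pr at h3
    push_cast
    linarith

end stepfail

end Pool.Agent.R531.Agp
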