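import Pool.Agent.R531.Agp.Graph

/-!
# The subset sum problem of a free product has a Las Vegas algorithm
-/

namespace Pool.Agent.R531.Agp

open NPC

section poly

variable {k : ℕ} {α : Type} [TEnc α]

/-- A closed form of the path. -/
theorem pathE_eq (w : Wd k) : ∀ (s j : ℕ), pathE (s + j) w =
    ((w.zipIdx j).map fun q => (((s + q.2, s + q.2 + 1), some q.1) : Edge k)) ++
      [((s + j + w.length, s + j + w.length + 1), none)] := by
  induction w with
  | nil => intro s j; simp [pathE]
  | cons l w ih =>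
    intro s j
    rw [pathE, add_assoc s j 1, ih s (j + 1)]
    simp only [List.zipIdx_cons, List.map_cons, List.length_cons, List.cons_append]
    congr 3
    simp only [Prod.mk.injEq, and_true]
    omega

theorem poly_pathE {s : α → ℕ} {w : α → Wd k} (hs : Poly s) (hw : Poly w) :
    Poly (fun a => pathE (s a) (w a)) := by
  have h : Poly (fun a => (((w a).zipIdx).map fun q =>
      (((s a + q.2, s a + q.2 + 1), some q.1) : Edge k)) ++
      [(((s a + (w a).length, s a + (w a).length + 1), none) : Edge k)]) := by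
    refine NPC.Poly.append ?_ ?_
    · refine NPC.Poly.map (F := fun a (q : (Fin k × Bool) × ℕ) =>
        (((s a + q.2, s a + q.2 + 1), some q.1) : Edge k)) (NPC.Poly.zipIdx hw) ?_
      have h1 : Poly (fun p : α × (Fin k × Bool) × ℕ => s p.1 + p.2.2) :=
        NPC.Poly.add (hs.comp (NPC.Poly.fst NPC.Poly.id)) (NPC.Poly.snd (NPC.Poly.snd NPC.Poly.id))
      exact NPC.Poly.pair (NPC.Poly.pair h1 (NPC.Poly.add h1 (NPC.Poly.const 1)))
        (NPC.Poly.some (NPC.Poly.fst (NPC.Poly.snd NPC.Poly.id)))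
    · have h1 : Poly (fun a => s a + (w a).length) := NPC.Poly.add hs (NPC.Poly.length hw)
      exact NPC.Poly.cons (NPC.Poly.pair (NPC.Poly.pair h1 (NPC.Poly.add h1 (NPC.Poly.const 1)))
        (NPC.Poly.const none)) (NPC.Poly.const [])
  refine h.congr fun a => ?_
  have := pathE_eq (w a) (s a) 0
  rw [add_zero] at this
  exact this.symm

/-- The offset after a list of words. -/
def off (ws : List (Wd k)) : ℕ := (ws.map fun w => w.length + 1).sum

theorem bld_eq (t : Wd k) (ws : List (Wd k)) : ∀ s, bld s ws t =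
    ((List.range ws.length).flatMap fun i =>
      (((s + off (ws.take i), s + off (ws.take i) + (ws.getD i []).length + 1), none) : Edge k) ::
        pathE (s + off (ws.take i)) (ws.getD i [])) ++ pathE (s + off ws) t := by
  induction ws with
  | nil => intro s; simp [bld, off]
  | cons w ws ih =>
    intro s
    rw [bld, ih, List.length_cons, List.range_succ_eq_map, List.flatMap_cons, List.flatMap_map]
    simp only [List.take_zero, List.getD_cons_zero, List.take_succ_cons, List.getD_cons_succ]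
    have e1 : off ([] : List (Wd k)) = 0 := rfl
    have e2 : ∀ l : List (Wd k), s + off (w :: l) = s + w.length + 1 + off l := by
      intro l; simp [off]; ring
    simp only [e1, add_zero, e2, List.cons_append, List.append_assoc]

theorem poly_off {ws : α → List (Wd k)} (hw : Poly ws) : Poly (fun a => off (ws a)) := by
  unfold off
  refine NPC.Poly.sum (NPC.Poly.map (F := fun _ (w : Wd k) => w.length + 1) hw ?_)
  exact NPC.Poly.add (NPC.Poly.length (NPC.Poly.snd NPC.Poly.id)) (NPC.Poly.const 1)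

theorem poly_bld {ws : α → List (Wd k)} {t : α → Wd k} (hw : Poly ws) (ht : Poly t) :
    Poly (fun a => bld 0 (ws a) (t a)) := by
  have h : Poly (fun a => ((List.range (ws a).length).flatMap fun i =>
      (((off ((ws a).take i), off ((ws a).take i) + ((ws a).getD i []).length + 1), none) :
        Edge k) :: pathE (off ((ws a).take i)) ((ws a).getD i [])) ++
          pathE (off (ws a)) (t a)) := by
    refine NPC.Poly.append ?_ (poly_pathE (poly_off hw) ht)
    refine NPC.Poly.flatMap (F := fun a i =>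
      (((off ((ws a).take i), off ((ws a).take i) + ((ws a).getD i []).length + 1), none) :
        Edge k) :: pathE (off ((ws a).take i)) ((ws a).getD i []))
      (NPC.Poly.range_length hw) ?_
    have h1 : Poly (fun p : α × ℕ => off ((ws p.1).take p.2)) :=
      poly_off (Med.poly_take (hw.comp (NPC.Poly.fst NPC.Poly.id)) (NPC.Poly.snd NPC.Poly.id))
    have h2 : Poly (fun p : α × ℕ => (ws p.1).getD p.2 []) :=
      NPC.Poly.getD (hw.comp (NPC.Poly.fst NPC.Poly.id)) (NPC.Poly.snd NPC.Poly.id)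
        (NPC.Poly.const [])
    exact NPC.Poly.cons (NPC.Poly.pair (NPC.Poly.pair h1 (NPC.Poly.add (NPC.Poly.add h1
      (NPC.Poly.length h2)) (NPC.Poly.const 1))) (NPC.Poly.const none)) (poly_pathE h1 h2)
  refine h.congr fun a => ?_
  rw [bld_eq]
  simp only [zero_add]

theorem poly_lst {ws : α → List (Wd k)} {t : α → Wd k} (hw : Poly ws) (ht : Poly t) :
    Poly (fun a => lst 0 (ws a) (t a)) := by
  have h := NPC.Poly.add (poly_off hw) (NPC.Poly.add (NPC.Poly.length ht) (NPC.Poly.const 1))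
  exact h.congr fun a => by simp [lst, off]

theorem length_pathE (w : Wd k) : ∀ s, (pathE s w).length = w.length + 1 := by
  induction w with
  | nil => intro s; rfl
  | cons l w ih => intro s; simp [pathE, ih]

theorem lst_le (t : Wd k) (ws : List (Wd k)) : ∀ s, lst s ws t ≤ s + (bld s ws t).length := by
  induction ws with
  | nil => intro s; simp [lst, bld, length_pathE]
  | cons w ws ih =>
    intro s
    rw [lst_cons]
    have := ih (s + w.length + 1)
    simp only [bld, List.length_cons, List.length_append, length_pathE]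
    omega

end poly

section

variable {n m : ℕ} {α : Type} [TEnc α]

theorem poly_EG {E : α → List (Edge (n + m))} {R : α → List (ℕ × ℕ)} (hE : Poly E)
    (hR : Poly R) : Poly (fun a => EG n m (E a) (R a)) := by
  unfold EG
  refine NPC.Poly.append ?_ ?_
  · refine NPC.Poly.flatMap (F := fun _ (e : Edge (n + m)) =>
      ((toG n m e.2).map fun o => (e.1, o)).toList) hE ?_
    have h1 : Poly (fun o : Option (Fin (n + m) × Bool) => toG n m o) :=
      CL.polyOfFintype (fun o => toG n m o)
    have h2 : Poly (fun p : α × Edge (n + m) => toG n m p.2.2) :=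
      h1.comp (NPC.Poly.snd (NPC.Poly.snd NPC.Poly.id))
    have h3 : Poly (fun p : (α × Edge (n + m)) × Option (Fin n × Bool) =>
        [((p.1.2.1, p.2) : Edge n)]) :=
      NPC.Poly.cons (NPC.Poly.pair (NPC.Poly.fst (NPC.Poly.snd (NPC.Poly.fst NPC.Poly.id)))
        (NPC.Poly.snd NPC.Poly.id)) (NPC.Poly.const [])
    refine (NPC.Poly.optElim (h := fun (p : α × Edge (n + m)) (o : Option (Fin n × Bool)) =>
      [((p.2.1, o) : Edge n)]) h2 (NPC.Poly.const []) h3).congr fun p => ?_
    cases toG n m p.2.2 <;> rfl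
  · exact NPC.Poly.map (F := fun _ (r : ℕ × ℕ) => ((r, none) : Edge n)) hR
      (NPC.Poly.pair (NPC.Poly.snd NPC.Poly.id) (NPC.Poly.const none))

theorem poly_EH {E : α → List (Edge (n + m))} {R : α → List (ℕ × ℕ)} (hE : Poly E)
    (hR : Poly R) : Poly (fun a => EH n m (E a) (R a)) := by
  unfold EH
  refine NPC.Poly.append ?_ ?_
  · refine NPC.Poly.flatMap (F := fun _ (e : Edge (n + m)) =>
      ((toH n m e.2).map fun o => (e.1, o)).toList) hE ?_
    have h1 : Poly (fun o : Option (Fin (n + m) × Bool) => toH n m o) :=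
      CL.polyOfFintype (fun o => toH n m o)
    have h2 : Poly (fun p : α × Edge (n + m) => toH n m p.2.2) :=
      h1.comp (NPC.Poly.snd (NPC.Poly.snd NPC.Poly.id))
    have h3 : Poly (fun p : (α × Edge (n + m)) × Option (Fin m × Bool) =>
        [((p.1.2.1, p.2) : Edge m)]) :=
      NPC.Poly.cons (NPC.Poly.pair (NPC.Poly.fst (NPC.Poly.snd (NPC.Poly.fst NPC.Poly.id)))
        (NPC.Poly.snd NPC.Poly.id)) (NPC.Poly.const [])
    refine (NPC.Poly.optElim (h := fun (p : α × Edge (n + m)) (o : Option (Fin m × Bool)) =>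
      [((p.2.1, o) : Edge m)]) h2 (NPC.Poly.const []) h3).congr fun p => ?_
    cases toH n m p.2.2 <;> rfl
  · exact NPC.Poly.map (F := fun _ (r : ℕ × ℕ) => ((r, none) : Edge m)) hR
      (NPC.Poly.pair (NPC.Poly.snd NPC.Poly.id) (NPC.Poly.const none))

theorem poly_pairs {β : Type} [TEnc β] {l : α → List β} (hl : Poly l) :
    Poly (fun a => pairs (l a).length) := by
  unfold pairs
  refine NPC.Poly.flatMap (F := fun a d => (List.range (l a).length).map fun u =>
    (u, u + 1 + d)) (NPC.Poly.range_length hl) ?_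
  refine NPC.Poly.map (F := fun (p : α × ℕ) (u : ℕ) => (u, u + 1 + p.2))
    (NPC.Poly.range_length (hl.comp (NPC.Poly.fst NPC.Poly.id))) ?_
  exact NPC.Poly.pair (NPC.Poly.snd NPC.Poly.id) (NPC.Poly.add (NPC.Poly.add
    (NPC.Poly.snd NPC.Poly.id) (NPC.Poly.const 1)) (NPC.Poly.snd (NPC.Poly.fst NPC.Poly.id)))

end

section main

variable {G H : Type*} [Group G] [Group H] {n m : ℕ} (g : Fin n → G) (h : Fin m → H)

/-- The closure problem. -/
def Clo (a : List (Edge (n + m)) × ℕ) : Prop :=
  (0, a.2) ∈ scs g h a (pairs a.1.length)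

theorem lv_clo (hg : LV (AGP g)) (hh : LV (AGP h)) : LV (Clo g h) := by
  have h1 : LV (Qf g h) := LV.or hg hh
  have hl : Poly (fun a : List (Edge (n + m)) × ℕ => pairs a.1.length) :=
    poly_pairs (NPC.Poly.fst NPC.Poly.id)
  have hq : Poly (fun x : (List (Edge (n + m)) × ℕ) × List (ℕ × ℕ) × (ℕ × ℕ) =>
      qf n m x.1 x.2.1 x.2.2) := by
    have k1 : Poly (fun x : (List (Edge (n + m)) × ℕ) × List (ℕ × ℕ) × (ℕ × ℕ) =>
        EG n m x.1.1 x.2.1) := poly_EG (NPC.Poly.fst (NPC.Poly.fst NPC.Poly.id))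
          (NPC.Poly.fst (NPC.Poly.snd NPC.Poly.id))
    have k2 : Poly (fun x : (List (Edge (n + m)) × ℕ) × List (ℕ × ℕ) × (ℕ × ℕ) =>
        EH n m x.1.1 x.2.1) := poly_EH (NPC.Poly.fst (NPC.Poly.fst NPC.Poly.id))
          (NPC.Poly.fst (NPC.Poly.snd NPC.Poly.id))
    have k3 : Poly (fun x : (List (Edge (n + m)) × ℕ) × List (ℕ × ℕ) × (ℕ × ℕ) =>
        (x.2.2.1, x.2.2.2)) := NPC.Poly.pair (NPC.Poly.fst (NPC.Poly.snd (NPC.Poly.snd
          NPC.Poly.id))) (NPC.Poly.snd (NPC.Poly.snd (NPC.Poly.snd NPC.Poly.id)))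
    exact NPC.Poly.pair (NPC.Poly.pair k1 k3) (NPC.Poly.pair k2 k3)
  have hu : Poly (fun x : ((List (Edge (n + m)) × ℕ) × List (ℕ × ℕ) × (ℕ × ℕ)) × Bool =>
      uf n m x.1.1 x.1.2.1 x.1.2.2 x.2) := by
    have k1 : Poly (fun x : ((List (Edge (n + m)) × ℕ) × List (ℕ × ℕ) × (ℕ × ℕ)) × Bool =>
        x.1.2.1) := NPC.Poly.fst (NPC.Poly.snd (NPC.Poly.fst NPC.Poly.id))
    have k2 : Poly (fun x : ((List (Edge (n + m)) × ℕ) × List (ℕ × ℕ) × (ℕ × ℕ)) × Bool =>
        x.1.2.2) := NPC.Poly.snd (NPC.Poly.snd (NPC.Poly.fst NPC.Poly.id))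
    exact NPC.Poly.ite (NPC.Poly.decide_bool (NPC.Poly.snd NPC.Poly.id))
      (NPC.Poly.append k1 (NPC.Poly.cons k2 (NPC.Poly.const []))) k1
  have ht : Poly (fun x : (List (Edge (n + m)) × ℕ) × List (ℕ × ℕ) =>
      decide ((0, x.1.2) ∈ x.2)) :=
    NPC.Poly.dec_mem (NPC.Poly.pair (NPC.Poly.const 0) (NPC.Poly.snd (NPC.Poly.fst
      NPC.Poly.id))) (NPC.Poly.snd NPC.Poly.id)
  obtain ⟨p, hp⟩ := hl.sz_le
  have h2 := LV.fold h1 (s0 := fun _ => []) (upd := uf n m) (test := fun a R =>
    decide ((0, a.2) ∈ R)) hl (NPC.Poly.const []) hq hu ht p (by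
      intro a k _
      refine le_trans ?_ (hp a)
      exact (sz_sublist_le (scs_sublist g h a _)).trans (NPC.Poly.sz_take_le _ _))
  obtain ⟨A, ℓ, hA, hcor, hpr⟩ := h2
  refine ⟨A, ℓ, hA, fun x y b hb => (hcor x y b hb).trans ?_, hpr⟩
  exact decide_eq_true_iff

/-- The subset sum problem of a free product has a Las Vegas algorithm if the acyclic graph word
problems of the factors have such algorithms. -/
theorem lv_ssp (hg : LV (AGP g)) (hh : LV (AGP h)) : LV (SSP (fgen g h)) := by
  have hf : Poly (fun I : List (Wd (n + m)) × Wd (n + m) =>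
      (bld 0 I.1 (winv I.2), lst 0 I.1 (winv I.2))) :=
    NPC.Poly.pair (poly_bld (NPC.Poly.fst NPC.Poly.id) (poly_winv (NPC.Poly.snd NPC.Poly.id)))
      (poly_lst (NPC.Poly.fst NPC.Poly.id) (poly_winv (NPC.Poly.snd NPC.Poly.id)))
  refine LV.of_poly (lv_clo g h hg hh) (d := fun _ => true) hf (NPC.Poly.const true) ?_
  rintro ⟨ws, w⟩
  simp only [true_and, Clo]
  rw [SSP_iff_walk]
  refine (scs_iff g h (bld 0 ws (winv w), lst 0 ws (winv w)) _ ?_ ?_ 0 _ ?_).symm
  · exact fun e he => (mem_bld ws _ 0 e he).2.1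
  · intro e he
    refine ((mem_bld ws _ 0 e he).2.2).trans ?_
    have := lst_le (winv w) ws 0
    simpa using this
  · simp only [lst]; omega

end main

end Pool.Agent.R531.Agp
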