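import Pool.Agent.R531.Agp.Close

/-!
# The closure procedure is correct on numbered graphs
-/

namespace Pool.Agent.R531.Agp

open NPC

section incr

variable {k : ℕ} {E : List (Edge k)}

/-- All edges go up. -/
def Incr (E : List (Edge k)) : Prop := ∀ e ∈ E, e.1.1 < e.1.2

theorem Incr.walk (hE : Incr E) {v : ℕ} (p : List (Edge k)) : ∀ u, Walk E u p v →
    u ≤ v ∧ (p ≠ [] → u < v) ∧ ∀ e ∈ p, u ≤ e.1.1 ∧ e.1.2 ≤ v := by
  induction p with
  | nil => intro u hw; have hw : u = v := hw; subst hw; simp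
  | cons e p ih =>
    rintro u ⟨h1, h2, h3⟩
    obtain ⟨h4, -, h5⟩ := ih _ h3
    have h6 := hE e h1
    refine ⟨by omega, fun _ => by omega, ?_⟩
    intro f hf
    rcases List.mem_cons.1 hf with rfl | hf
    · exact ⟨by omega, h4⟩
    · have := h5 f hf; omega

theorem Incr.acyclic (hE : Incr E) : Acyclic E := by
  intro u p hw
  by_contra hne
  have := (hE.walk p u hw).2.1 hne
  omega

end incr

section

variable {G H : Type*} [Group G] [Group H] {n m : ℕ} (g : Fin n → G) (h : Fin m → H)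

/-- The queries. -/
def Qf (x : (List (Edge n) × ℕ × ℕ) × (List (Edge m) × ℕ × ℕ)) : Prop := AGP g x.1 ∨ AGP h x.2

/-- The query for a pair of vertices. -/
def qf (n m : ℕ) (a : List (Edge (n + m)) × ℕ) (R : List (ℕ × ℕ)) (r : ℕ × ℕ) :
    (List (Edge n) × ℕ × ℕ) × (List (Edge m) × ℕ × ℕ) :=
  ((EG n m a.1 R, r.1, r.2), (EH n m a.1 R, r.1, r.2))

/-- The update. -/
def uf (n m : ℕ) (_ : List (Edge (n + m)) × ℕ) (R : List (ℕ × ℕ)) (r : ℕ × ℕ) (b : Bool) :
    List (ℕ × ℕ) := if b = true then R ++ [r] else R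

/-- The shortcuts found from a list of pairs. -/
noncomputable def scs (a : List (Edge (n + m)) × ℕ) (L : List (ℕ × ℕ)) : List (ℕ × ℕ) :=
  idl (Qf g h) (fun _ => []) (qf n m) (uf n m) a L

open Classical in
theorem scs_snoc (a : List (Edge (n + m)) × ℕ) (L : List (ℕ × ℕ)) (r : ℕ × ℕ) :
    scs g h a (L ++ [r]) = if Qf g h (qf n m a (scs g h a L) r) then scs g h a L ++ [r]
      else scs g h a L := by
  unfold scs idl
  rw [List.foldl_append]
  simp only [List.foldl_cons, List.foldl_nil, uf, decide_eq_true_eq]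

theorem scs_append (a : List (Edge (n + m)) × ℕ) (L1 L2 : List (ℕ × ℕ)) :
    ∃ X : List (ℕ × ℕ), scs g h a (L1 ++ L2) = scs g h a L1 ++ X ∧ X.Sublist L2 := by
  classical
  induction L2 using List.reverseRecOn with
  | nil => exact ⟨[], by simp, List.Sublist.refl _⟩
  | append_singleton L b ih =>
    obtain ⟨X, hX, hs⟩ := ih
    rw [← List.append_assoc, scs_snoc]
    split_ifs
    · exact ⟨X ++ [b], by rw [hX, List.append_assoc], hs.append (List.Sublist.refl _)⟩
    · exact ⟨X, hX, hs.trans (List.sublist_append_left _ _)⟩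

theorem scs_sublist (a : List (Edge (n + m)) × ℕ) (L : List (ℕ × ℕ)) :
    (scs g h a L).Sublist L := by
  obtain ⟨X, hX, hs⟩ := scs_append g h a [] L
  have : scs g h a [] = [] := rfl
  rw [List.nil_append, this, List.nil_append] at hX
  rw [hX]; exact hs

theorem incr_EG {E : List (Edge (n + m))} {R : List (ℕ × ℕ)} (hE : Incr E)
    (hR : ∀ r ∈ R, r.1 < r.2) : Incr (EG n m E R) := by
  intro f hf
  rcases mem_EG.1 hf with ⟨e, he, o, -, rfl⟩ | ⟨r, hr, rfl⟩
  · exact hE e he
  · exact hR r hr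

theorem incr_EH {E : List (Edge (n + m))} {R : List (ℕ × ℕ)} (hE : Incr E)
    (hR : ∀ r ∈ R, r.1 < r.2) : Incr (EH n m E R) := by
  intro f hf
  rcases mem_EH.1 hf with ⟨e, he, o, -, rfl⟩ | ⟨r, hr, rfl⟩
  · exact hE e he
  · exact hR r hr

/-- Soundness. -/
theorem scs_snd (a : List (Edge (n + m)) × ℕ) (L : List (ℕ × ℕ)) : Snd g h a.1 (scs g h a L) := by
  classical
  induction L using List.reverseRecOn with
  | nil => intro r hr; exact absurd hr (by simp [scs, idl])
  | append_singleton L b ih =>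
    rw [scs_snoc]
    split_ifs with hQ
    · intro r hr
      rcases List.mem_append.1 hr with hr | hr
      · exact ih r hr
      · rw [List.mem_singleton] at hr
        subst hr
        rcases hQ with ⟨-, p, hp, hp1⟩ | ⟨-, p, hp, hp1⟩
        · obtain ⟨p', h1, h2⟩ := conv_G g h ih p _ hp
          exact ⟨p', h1, by rw [h2, hp1, map_one]⟩
        · obtain ⟨p', h1, h2⟩ := conv_H g h ih p _ hp
          exact ⟨p', h1, by rw [h2, hp1, map_one]⟩
    · exact ih

/-- All pairs, sorted by the difference. -/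
def pairs (N : ℕ) : List (ℕ × ℕ) :=
  (List.range N).flatMap fun d => (List.range N).map fun u => (u, u + 1 + d)

theorem mem_pairs {N u v : ℕ} (h1 : u < v) (h2 : v ≤ N) : (u, v) ∈ pairs N := by
  simp only [pairs, List.mem_flatMap, List.mem_range, List.mem_map, Prod.mk.injEq]
  exact ⟨v - u - 1, by omega, u, by omega, rfl, by omega⟩

theorem pairs_lt {N : ℕ} {r : ℕ × ℕ} (h : r ∈ pairs N) : r.1 < r.2 := by
  simp only [pairs, List.mem_flatMap, List.mem_range, List.mem_map] at h
  obtain ⟨d, -, u, -, rfl⟩ := h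
  simp only
  omega

theorem pairs_sorted (N : ℕ) :
    (pairs N).Pairwise fun r s => r.2 - r.1 ≤ s.2 - s.1 := by
  unfold pairs
  rw [List.pairwise_flatMap]
  constructor
  · intro d _
    rw [List.pairwise_map]
    exact List.pairwise_of_forall (fun _ _ => by omega)
  · refine List.pairwise_lt_range.imp ?_
    intro d d' hd r hr s hs
    obtain ⟨u, -, rfl⟩ := List.mem_map.1 hr
    obtain ⟨u', -, rfl⟩ := List.mem_map.1 hs
    simp only
    omega

/-- Closure. -/
theorem scs_cld (a : List (Edge (n + m)) × ℕ) (N : ℕ) (hE : Incr a.1)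
    (hN : ∀ e ∈ a.1, e.1.2 ≤ N) : Cld g h a.1 (scs g h a (pairs N)) := by
  classical
  set R := scs g h a (pairs N) with hR
  have hRlt : ∀ r ∈ R, r.1 < r.2 := fun r hr =>
    pairs_lt ((scs_sublist g h a (pairs N)).subset hr)
  have hRN : ∀ r ∈ R, r.2 ≤ N := by
    intro r hr
    obtain ⟨p, hp, -⟩ := scs_snd g h a (pairs N) r hr
    have hne : p ≠ [] := by
      rintro rfl
      have : r.1 = r.2 := hp
      have := hRlt r hr
      omega
    rcases List.eq_nil_or_concat p with h0 | ⟨p', e, rfl⟩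
    · exact absurd h0 hne
    · rw [List.concat_eq_append] at hp
      obtain ⟨w, -, h1, h2, h3⟩ := walk_append.1 hp
      have h3 : e.1.2 = r.2 := h3
      rw [← h3]; exact hN e h1
  -- the common argument
  have key : ∀ u v : ℕ, u < v → v ≤ N → (∀ R' : List (ℕ × ℕ), R' ⊆ R →
      (∀ r ∈ R, u ≤ r.1 → r.2 ≤ v → r ≠ (u, v) → r ∈ R') →
      (u, v) ∉ R → (∀ r ∈ R', r.1 < r.2) → Qf g h (qf n m a R' (u, v))) → (u, v) ∈ R := by
    intro u v huv hvN hq
    by_contra hcon
    obtain ⟨L1, L2, hL⟩ := List.append_of_mem (mem_pairs huv hvN)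
    have hsort := pairs_sorted N
    rw [hL] at hsort
    have hsort2 : ∀ s ∈ L2, v - u ≤ s.2 - s.1 := by
      intro s hs
      have h1 := (List.pairwise_append.1 hsort).2.1
      exact (List.pairwise_cons.1 h1).1 s hs
    have hL' : pairs N = (L1 ++ [(u, v)]) ++ L2 := by rw [hL]; simp
    obtain ⟨X, hX, hXs⟩ := scs_append g h a (L1 ++ [(u, v)]) L2
    rw [← hL', ← hR] at hX
    have h1 := scs_snoc g h a L1 (u, v)
    by_cases hQ : Qf g h (qf n m a (scs g h a L1) (u, v))
    · rw [if_pos hQ] at h1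
      apply hcon
      rw [hX, h1]; simp
    · rw [if_neg hQ] at h1
      rw [h1] at hX
      refine hQ (hq _ ?_ ?_ hcon ?_)
      · rw [hX]; exact List.subset_append_left _ _
      · intro r hr hr1 hr2 hne
        rw [hX] at hr
        rcases List.mem_append.1 hr with hr | hr
        · exact hr
        · exfalso
          have h2 := hsort2 r (hXs.subset hr)
          have h3 := hRlt r (by rw [hX]; exact List.mem_append_right _ hr)
          apply hne
          obtain ⟨r1, r2⟩ := r
          simp only at h2 h3 hr1 hr2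
          ext <;> simp only <;> omega
      · intro r hr
        exact hRlt r (by rw [hX]; exact List.mem_append_left _ hr)
  constructor
  · intro u v p hne hw hv
    have hinc := incr_EG hE hRlt
    obtain ⟨-, h1, h2⟩ := hinc.walk p u hw
    have huv := h1 hne
    have hvN : v ≤ N := by
      rcases List.eq_nil_or_concat p with h0 | ⟨p', e, rfl⟩
      · exact absurd h0 hne
      · rw [List.concat_eq_append] at hw
        obtain ⟨w, -, h3, h4, h5⟩ := walk_append.1 hw
        have h5 : e.1.2 = v := h5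
        rw [← h5]
        rcases mem_EG.1 h3 with ⟨e', he', o, -, rfl⟩ | ⟨r, hr, rfl⟩
        · exact hN e' he'
        · exact hRN r hr
    refine key u v huv hvN fun R' hsub hR' hnot hlt => Or.inl ⟨(incr_EG hE hlt).acyclic, p, ?_, hv⟩
    rw [walk_iff] at hw ⊢
    refine ⟨fun f hf => ?_, hw.2⟩
    rcases mem_EG.1 (hw.1 f hf) with ⟨e, he, o, ho, rfl⟩ | ⟨r, hr, rfl⟩
    · exact mem_EG.2 (Or.inl ⟨e, he, o, ho, rfl⟩)
    · refine mem_EG.2 (Or.inr ⟨r, hR' r hr (h2 _ hf).1 (h2 _ hf).2 ?_, rfl⟩)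
      rintro rfl
      exact hnot hr
  · intro u v p hne hw hv
    have hinc := incr_EH hE hRlt
    obtain ⟨-, h1, h2⟩ := hinc.walk p u hw
    have huv := h1 hne
    have hvN : v ≤ N := by
      rcases List.eq_nil_or_concat p with h0 | ⟨p', e, rfl⟩
      · exact absurd h0 hne
      · rw [List.concat_eq_append] at hw
        obtain ⟨w, -, h3, h4, h5⟩ := walk_append.1 hw
        have h5 : e.1.2 = v := h5
        rw [← h5]
        rcases mem_EH.1 h3 with ⟨e', he', o, -, rfl⟩ | ⟨r, hr, rfl⟩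
        · exact hN e' he'
        · exact hRN r hr
    refine key u v huv hvN fun R' hsub hR' hnot hlt => Or.inr ⟨(incr_EH hE hlt).acyclic, p, ?_, hv⟩
    rw [walk_iff] at hw ⊢
    refine ⟨fun f hf => ?_, hw.2⟩
    rcases mem_EH.1 (hw.1 f hf) with ⟨e, he, o, ho, rfl⟩ | ⟨r, hr, rfl⟩
    · exact mem_EH.2 (Or.inl ⟨e, he, o, ho, rfl⟩)
    · refine mem_EH.2 (Or.inr ⟨r, hR' r hr (h2 _ hf).1 (h2 _ hf).2 ?_, rfl⟩)
      rintro rfl
      exact hnot hr

/-- The closure procedure decides the existence of walks with trivial label. -/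
theorem scs_iff (a : List (Edge (n + m)) × ℕ) (N : ℕ) (hE : Incr a.1)
    (hN : ∀ e ∈ a.1, e.1.2 ≤ N) (u v : ℕ) (huv : u < v) :
    (u, v) ∈ scs g h a (pairs N) ↔ ∃ p, Walk a.1 u p v ∧ pval (fgen g h) p = 1 := by
  constructor
  · intro hm
    exact scs_snd g h a (pairs N) _ hm
  · rintro ⟨p, hw, hv⟩
    have hne : p ≠ [] := by
      rintro rfl
      have : u = v := hw
      omega
    refine cld_complete g h (scs_cld g h a N hE hN) _ p u v le_rfl hne ?_ hv
    rw [walk_iff] at hw ⊢
    exact ⟨fun e he => List.mem_append_left _ (hw.1 e he), hw.2⟩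

end

end Pool.Agent.R531.Agp
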