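import Pool.Agent.R531.Agp.Fold

/-!
# Subset sum instances as numbered graphs; the subset sum problem of a free product
-/

namespace Pool.Agent.R531.Agp

open NPC

section graph

variable {k : ℕ}

/-- The path spelling a word. -/
def pathE : ℕ → Wd k → List (Edge k)
  | s, [] => [((s, s + 1), none)]
  | s, l :: w => ((s, s + 1), some l) :: pathE (s + 1) w

/-- The graph of an instance. -/
def bld : ℕ → List (Wd k) → Wd k → List (Edge k)
  | s, [], t => pathE s t
  | s, w :: ws, t => ((s, s + w.length + 1), none) :: (pathE s w ++ bld (s + w.length + 1) ws t)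

/-- The last vertex. -/
def lst (s : ℕ) (ws : List (Wd k)) (t : Wd k) : ℕ :=
  s + (ws.map fun w => w.length + 1).sum + (t.length + 1)

theorem lst_cons (s : ℕ) (w : Wd k) (ws : List (Wd k)) (t : Wd k) :
    lst s (w :: ws) t = lst (s + w.length + 1) ws t := by
  simp [lst]; ring

theorem mem_pathE (w : Wd k) : ∀ (s : ℕ) (e : Edge k), e ∈ pathE s w →
    s ≤ e.1.1 ∧ e.1.2 = e.1.1 + 1 ∧ e.1.2 ≤ s + w.length + 1 := by
  induction w with
  | nil =>
    intro s e he
    simp only [pathE, List.mem_singleton] at he
    subst he; simp
  | cons l w ih =>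
    intro s e he
    simp only [pathE, List.mem_cons] at he
    rcases he with rfl | he
    · simp
    · have := ih _ _ he
      rw [List.length_cons]; omega

theorem mem_bld (ws : List (Wd k)) (t : Wd k) : ∀ (s : ℕ) (e : Edge k), e ∈ bld s ws t →
    s ≤ e.1.1 ∧ e.1.1 < e.1.2 ∧ e.1.2 ≤ lst s ws t := by
  induction ws with
  | nil =>
    intro s e he
    have := mem_pathE t s e he
    simp only [lst, List.map_nil, List.sum_nil]
    omega
  | cons w ws ih =>
    intro s e he
    simp only [bld, List.mem_cons, List.mem_append] at he
    rw [lst_cons]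
    rcases he with rfl | he | he
    · simp only [lst]; omega
    · have := mem_pathE w s e he
      simp only [lst]; omega
    · have := ih _ _ he
      omega

variable {K : Type*} [Group K] (f : Fin k → K)

theorem path_fwd (w : Wd k) : ∀ (s : ℕ) (E : List (Edge k)), (∀ e ∈ pathE s w, e ∈ E) →
    Walk E s (pathE s w) (s + w.length + 1) ∧ pval f (pathE s w) = wval f w := by
  induction w with
  | nil =>
    intro s E hE
    exact ⟨⟨hE _ (by simp [pathE]), rfl, by simp [Walk]⟩, by simp [pathE, pval_cons]⟩
  | cons l w ih =>
    intro s E hE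
    obtain ⟨h1, h2⟩ := ih (s + 1) E fun e he => hE e (by simp [pathE, he])
    refine ⟨⟨hE _ (by simp [pathE]), rfl, ?_⟩, ?_⟩
    · rw [List.length_cons, show s + (w.length + 1) + 1 = s + 1 + w.length + 1 by ring]
      exact h1
    · rw [pathE, pval_cons, h2]
      simp [wval, oval]

theorem bld_fwd (t : Wd k) (ws : List (Wd k)) : ∀ (s : ℕ) (E : List (Edge k)),
    (∀ e ∈ bld s ws t, e ∈ E) → ∀ sub : List (Wd k), sub.Sublist ws →
    ∃ p, Walk E s p (lst s ws t) ∧ pval f p = (sub.map (wval f)).prod * wval f t := by
  induction ws with
  | nil =>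
    intro s E hE sub hsub
    rw [List.sublist_nil] at hsub
    subst hsub
    obtain ⟨h1, h2⟩ := path_fwd f t s E hE
    refine ⟨_, ?_, by rw [h2]; simp⟩
    rw [lst]
    simpa [add_assoc] using h1
  | cons w ws ih =>
    intro s E hE sub hsub
    rw [lst_cons]
    have hE' : ∀ e ∈ bld (s + w.length + 1) ws t, e ∈ E := fun e he => hE e (by simp [bld, he])
    rcases List.sublist_cons_iff.1 hsub with h | ⟨r, rfl, h⟩
    · obtain ⟨p, h1, h2⟩ := ih _ E hE' sub h
      refine ⟨((s, s + w.length + 1), none) :: p, ⟨hE _ (by simp [bld]), rfl, h1⟩, ?_⟩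
      rw [pval_cons, h2]; simp
    · obtain ⟨p, h1, h2⟩ := ih _ E hE' r h
      obtain ⟨h3, h4⟩ := path_fwd f w s E fun e he => hE e (by simp [bld, he])
      refine ⟨pathE s w ++ p, walk_append.2 ⟨_, h3, h1⟩, ?_⟩
      rw [pval_append, h4, h2]; simp [mul_assoc]

theorem path_back (w : Wd k) : ∀ (x : ℕ) (E : List (Edge k)) (z : ℕ),
    (∀ e ∈ E, x ≤ e.1.1 → e ∈ pathE x w ∨ x + w.length + 1 ≤ e.1.1) → x + w.length + 1 ≤ z →
    ∀ p, Walk E x p z → ∃ p', Walk E (x + w.length + 1) p' z ∧
      pval f p = wval f w * pval f p' := by
  induction w with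
  | nil =>
    intro x E z hE hz p hp
    cases p with
    | nil => have hp : x = z := hp; simp at hz; omega
    | cons e p =>
      obtain ⟨h1, h2, h3⟩ := hp
      rcases hE e h1 h2.ge with h4 | h4
      · simp only [pathE, List.mem_singleton] at h4
        subst h4
        exact ⟨p, h3, by rw [pval_cons]; simp⟩
      · simp at h4; omega
  | cons l w ih =>
    intro x E z hE hz p hp
    rw [List.length_cons] at hz hE ⊢
    cases p with
    | nil => have hp : x = z := hp; omega
    | cons e p =>
      obtain ⟨h1, h2, h3⟩ := hp
      have h4 : e = ((x, x + 1), some l) := by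
        rcases hE e h1 h2.ge with h4 | h4
        · simp only [pathE, List.mem_cons] at h4
          rcases h4 with h4 | h4
          · exact h4
          · have := (mem_pathE w _ e h4).1; omega
        · omega
      subst h4
      obtain ⟨p', h5, h6⟩ := ih (x + 1) E z (by
        intro e he hx
        rcases hE e he (by omega) with h7 | h7
        · simp only [pathE, List.mem_cons] at h7
          rcases h7 with rfl | h7
          · simp at hx
          · exact Or.inl h7
        · right; omega) (by omega) p h3
      refine ⟨p', ?_, ?_⟩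
      · rwa [show x + (w.length + 1) + 1 = x + 1 + w.length + 1 by ring]
      · rw [pval_cons, h6]; simp [wval, oval, mul_assoc]

theorem bld_back (t : Wd k) (ws : List (Wd k)) : ∀ (s : ℕ) (E : List (Edge k)), Incr E →
    (∀ e ∈ E, s ≤ e.1.1 → e ∈ bld s ws t) → ∀ p, Walk E s p (lst s ws t) →
    ∃ sub : List (Wd k), sub.Sublist ws ∧
      pval f p = (sub.map (wval f)).prod * wval f t := by
  induction ws with
  | nil =>
    intro s E hinc hE p hp
    have hl : lst s ([] : List (Wd k)) t = s + t.length + 1 := by simp [lst]; ring
    rw [hl] at hp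
    obtain ⟨p', h1, h2⟩ := path_back f t s E _ (fun e he hs => Or.inl (hE e he hs)) le_rfl p hp
    have h3 : p' = [] := by
      by_contra hne
      have := (hinc.walk p' _ h1).2.1 hne
      omega
    subst h3
    exact ⟨[], List.Sublist.refl _, by rw [h2]; simp⟩
  | cons w ws ih =>
    intro s E hinc hE p hp
    rw [lst_cons] at hp
    have hE' : ∀ e ∈ E, s + w.length + 1 ≤ e.1.1 → e ∈ bld (s + w.length + 1) ws t := by
      intro e he hs
      have h1 := hE e he (by omega)
      simp only [bld, List.mem_cons, List.mem_append] at h1
      rcases h1 with rfl | h1 | h1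
      · simp only at hs; omega
      · have := mem_pathE w s e h1; omega
      · exact h1
    cases p with
    | nil =>
      have hp : s = lst (s + w.length + 1) ws t := hp
      simp only [lst] at hp; omega
    | cons e p =>
      obtain ⟨h1, h2, h3⟩ := hp
      have h4 := hE e h1 h2.ge
      simp only [bld, List.mem_cons, List.mem_append] at h4
      rcases h4 with rfl | h4 | h4
      · obtain ⟨sub, h5, h6⟩ := ih _ E hinc hE' p h3
        exact ⟨sub, h5.cons w, by rw [pval_cons, h6]; simp⟩
      · cases w with
        | nil =>
          simp only [pathE, List.mem_singleton] at h4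
          subst h4
          obtain ⟨sub, h5, h6⟩ := ih _ E hinc hE' p h3
          exact ⟨sub, h5.cons _, by rw [pval_cons, h6]; simp⟩
        | cons l w =>
          simp only [pathE, List.mem_cons] at h4
          rcases h4 with rfl | h4
          · obtain ⟨p', h5, h6⟩ := path_back f w (s + 1) E
              (lst (s + (l :: w).length + 1) ws t) (by
                intro e' he' hs'
                have h7 := hE e' he' (by omega)
                simp only [bld, List.mem_cons, List.mem_append, pathE] at h7
                rcases h7 with rfl | (rfl | h7) | h7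
                · simp only at hs'; omega
                · simp only at hs'; omega
                · exact Or.inl h7
                · right
                  have := (mem_bld ws t _ e' h7).1
                  rw [List.length_cons] at this
                  omega) (by
                simp only [lst, List.length_cons]; omega) p h3
            rw [show s + 1 + w.length + 1 = s + (l :: w).length + 1 by
              rw [List.length_cons]; ring] at h5
            obtain ⟨sub, h7, h8⟩ := ih _ E hinc hE' p' h5
            refine ⟨(l :: w) :: sub, h7.cons_cons _, ?_⟩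
            rw [pval_cons, h6, h8]
            simp [wval, oval, mul_assoc]
          · have := (mem_pathE w _ e h4).1; omega
      · have := (mem_bld ws t _ e h4).1
        omega

/-- Subset sum as a walk problem. -/
theorem SSP_iff_walk (ws : List (Wd k)) (w : Wd k) : SSP f (ws, w) ↔
    ∃ p, Walk (bld 0 ws (winv w)) 0 p (lst 0 ws (winv w)) ∧ pval f p = 1 := by
  constructor
  · rintro ⟨s, hs, h⟩
    obtain ⟨p, h1, h2⟩ := bld_fwd f (winv w) ws 0 _ (fun e he => he) s hs
    refine ⟨p, h1, ?_⟩
    rw [h2, wval_winv, h]; simp
  · rintro ⟨p, h1, h2⟩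
    obtain ⟨s, hs, h3⟩ := bld_back f (winv w) ws 0 _ (fun e he => (mem_bld ws _ 0 e he).2.1)
      (fun e he _ => he) p h1
    rw [h2, wval_winv] at h3
    exact ⟨s, hs, (eq_mul_inv_iff_mul_eq.1 h3).symm.trans (one_mul _) |>.symm ▸ rfl⟩

end graph

end Pool.Agent.R531.Agp
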