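import Pool.Agent.R531.Agp.PolyB

/-!
# Las Vegas algorithms
-/

namespace Pool.Agent.R531.Agp

open NPC

/-- Problems with Las Vegas algorithms: the answer, when given, is always right, and the
probability that no answer is given is tiny. -/
def LV {α : Type} [TEnc α] (P : α → Prop) : Prop :=
  ∃ (A : (α × List Unit) × List Bool → Option Bool) (ℓ : Polynomial ℕ), Poly A ∧
    (∀ x y b, A (x, y) = some b → (b = true ↔ P x.1)) ∧
    ∀ (a : α) (e : List Unit) (m : ℕ), ℓ.eval (sz a + e.length) ≤ m →
      pr m (fun y => A ((a, e), y) = none) ≤ 1 / 2 ^ e.length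

theorem pr_true (m : ℕ) {p : List Bool → Prop} (h : ∀ y, p y) : pr m p = 1 := by
  have : pr m p = ex m (fun _ => 1) := ex_congr fun y _ => ind_true (h y)
  rw [this, ex_const]

/-- Las Vegas algorithms give membership in `RP` and `coRP`, also for the languages that reduce to
the problem. -/
theorem LV.zpp_of_reduces {α : Type} [TEnc α] [TDec α] {P : α → Prop} (h : LV P)
    {L : Set (List Bool)} (hL : Reduces L (lang P)) : InZPP L := by
  obtain ⟨A, ℓ, hA, hcor, hpr⟩ := h
  obtain ⟨f, hf, hfL⟩ := hL
  have hfP : Poly f := Med.poly_of_polyTime hf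
  obtain ⟨pf, hpf⟩ := hfP.sz_le
  have hlen : ∀ {x : List Bool} {a : α}, unbits α (f x) = some a →
      sz a ≤ (pf.comp (4 * Polynomial.X + 1)).eval x.length := by
    intro x a hx
    rw [← bits_length a, bits_of_unbits hx, Polynomial.eval_comp]
    have h1 := length_lt_sz (f x)
    have h2 := hpf x
    have h3 : pf.eval (sz x) ≤ pf.eval ((4 * Polynomial.X + 1 : Polynomial ℕ).eval x.length) := by
      refine eval_mono pf ?_
      have := sz_listBool_le x
      simp only [Polynomial.eval_add, Polynomial.eval_mul, Polynomial.eval_X,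
        Polynomial.eval_ofNat, Polynomial.eval_one]
      exact this
    omega
  have hb : ∀ {x : List Bool} {a : α}, unbits α (f x) = some a → (x ∈ L ↔ P a) := by
    intro x a hx
    rw [hfL, ← bits_of_unbits hx, bits_mem_lang]
  have hnone : ∀ {x : List Bool}, unbits α (f x) = none → x ∉ L := by
    intro x hx hm
    obtain ⟨a, ha, -⟩ := (hfL x).1 hm
    rw [← ha, unbits_bits] at hx
    exact absurd hx (by simp)
  have hA1 : Poly (fun p : List Bool × α => A ((p.2, [()]), (unpair p.1).2)) :=
    hA.comp (NPC.Poly.pair (NPC.Poly.pair (NPC.Poly.snd NPC.Poly.id) (NPC.Poly.const [()]))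
      (NPC.Poly.snd (poly_unpair.comp (NPC.Poly.fst NPC.Poly.id))))
  have hu : Poly (fun z : List Bool => unbits α (f (unpair z).1)) :=
    poly_unbits.comp (hfP.comp (NPC.Poly.fst poly_unpair))
  have key : ∀ (a : α) (m : ℕ), ℓ.eval (sz a + 1) ≤ m →
      pr m (fun y => A ((a, [()]), y) = none) ≤ 1 / 2 := by
    intro a m hm
    have := hpr a [()] m (by simpa using hm)
    simpa using this
  constructor
  · refine ⟨fun z => [(unbits α (f (unpair z).1)).elim false
        fun a => decide (A ((a, [()]), (unpair z).2) = some true)],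
      ℓ.comp ((pf.comp (4 * Polynomial.X + 1)) + 1), ?_, fun w => ⟨?_, ?_⟩⟩
    · exact polyTime_of_poly (NPC.Poly.optElim hu (NPC.Poly.const false)
        (NPC.Poly.decide_eq hA1 (NPC.Poly.const (some true))))
    · intro hw r _ hV
      simp only [unpair_pairBits, List.cons.injEq, and_true] at hV
      cases hx : unbits α (f w) with
      | none => rw [hx] at hV; simp at hV
      | some a =>
        rw [hx] at hV
        simp only [Option.elim_some, decide_eq_true_eq] at hV
        exact hw ((hb hx).2 ((hcor (a, [()]) r true hV).1 rfl))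
    · intro hw
      cases hx : unbits α (f w) with
      | none => exact absurd hw (hnone hx)
      | some a =>
        have hPa := (hb hx).1 hw
        simp only [unpair_pairBits, hx, Option.elim_some, List.cons.injEq, decide_eq_true_eq,
          and_true]
        set m := (ℓ.comp ((pf.comp (4 * Polynomial.X + 1)) + 1)).eval w.length with hm
        have hm' : ℓ.eval (sz a + 1) ≤ m := by
          rw [hm, Polynomial.eval_comp]
          refine eval_mono ℓ ?_
          have := hlen hx
          simp only [Polynomial.eval_add, Polynomial.eval_one]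
          omega
        have h1 := key a m hm'
        have h2 := ncard_eq m (fun y => A ((a, [()]), y) = some true)
        have h3 : 1 ≤ pr m (fun y => A ((a, [()]), y) = some true) +
            pr m (fun y => A ((a, [()]), y) = none) := by
          rw [← pr_true m (p := fun y => A ((a, [()]), y) = some true ∨ A ((a, [()]), y) = none) ?_]
          · exact pr_or _ _ _
          · intro y
            cases hy : A ((a, [()]), y) with
            | none => exact Or.inr rfl
            | some b =>
              left
              rw [(hcor _ _ _ hy).2 hPa]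
        have h4 : (2 : ℝ) ^ m ≤ 2 * (({y : List Bool | y.length = m ∧
            A ((a, [()]), y) = some true}.ncard : ℕ) : ℝ) := by
          rw [h2]
          have : (0 : ℝ) < 2 ^ m := by positivity
          nlinarith
        exact_mod_cast h4
  · refine ⟨fun z => [(unbits α (f (unpair z).1)).elim false
        fun a => !decide (A ((a, [()]), (unpair z).2) = some false)],
      ℓ.comp ((pf.comp (4 * Polynomial.X + 1)) + 1), ?_, fun w => ⟨?_, ?_⟩⟩
    · exact polyTime_of_poly (NPC.Poly.optElim hu (NPC.Poly.const false)
        (NPC.Poly.not (NPC.Poly.decide_eq hA1 (NPC.Poly.const (some false)))))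
    · intro hw r _
      simp only [unpair_pairBits, List.cons.injEq, and_true]
      cases hx : unbits α (f w) with
      | none => exact absurd hw (hnone hx)
      | some a =>
        simp only [Option.elim_some, Bool.not_eq_true', decide_eq_false_iff_not]
        intro hA0
        have := (hcor (a, [()]) r false hA0).2 ((hb hx).1 hw)
        exact absurd this (by simp)
    · intro hw
      simp only [unpair_pairBits, List.cons.injEq, and_true]
      cases hx : unbits α (f w) with
      | none => simp
      | some a =>
        have hPa : ¬ P a := fun h => hw ((hb hx).2 h)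
        simp only [Option.elim_some, Bool.not_eq_true', decide_eq_false_iff_not]
        set m := (ℓ.comp ((pf.comp (4 * Polynomial.X + 1)) + 1)).eval w.length with hm
        have hm' : ℓ.eval (sz a + 1) ≤ m := by
          rw [hm, Polynomial.eval_comp]
          refine eval_mono ℓ ?_
          have := hlen hx
          simp only [Polynomial.eval_add, Polynomial.eval_one]
          omega
        have h1 := key a m hm'
        have h2 := ncard_eq m (fun y => ¬ A ((a, [()]), y) = some false)
        have h3 : pr m (fun y => ¬ A ((a, [()]), y) = some false) ≤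
            pr m (fun y => A ((a, [()]), y) = none) := by
          refine pr_mono fun y _ hy => ?_
          cases hy' : A ((a, [()]), y) with
          | none => rfl
          | some b =>
            exfalso
            apply hy
            rw [hy']
            cases b with
            | false => rfl
            | true => exact absurd ((hcor _ _ _ hy').1 rfl) hPa
        have h4 : 2 * (({y : List Bool | y.length = m ∧
            ¬ A ((a, [()]), y) = some false}.ncard : ℕ) : ℝ) ≤ (2 : ℝ) ^ m := by
          rw [h2]
          have : (0 : ℝ) < 2 ^ m := by positivity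
          nlinarith
        exact_mod_cast h4

/-- Las Vegas algorithms give membership in `RP` and `coRP`. -/
theorem LV.zpp {α : Type} [TEnc α] [TDec α] {P : α → Prop} (h : LV P) : InZPP (lang P) :=
  h.zpp_of_reduces ⟨fun x => x, polyTime_id, fun _ => Iff.rfl⟩

/-- If a problem with a Las Vegas algorithm is `NP`-hard then all of `NP` is in `ZPP`. -/
theorem LV.collapse {α : Type} [TEnc α] [TDec α] {P : α → Prop} (h : LV P) (hh : NPHardP P) :
    ∀ L : Set (List Bool), InNP L → InZPP L :=
  fun L hL => h.zpp_of_reduces (hh L hL)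

/-- A problem in `P` has a typed test. -/
theorem dec_of_inPP {α : Type} [TEnc α] {P : α → Prop} (h : InPP P) :
    ∃ d : α → Bool, Poly d ∧ ∀ a, d a = true ↔ P a := by
  obtain ⟨V, hV, hV'⟩ := h.exists_test
  refine ⟨fun a => decide (V (bits a) = [true]), ?_, fun a => ?_⟩
  · exact NPC.Poly.decide_eq ((Med.poly_of_polyTime hV).comp Med.poly_bits) (NPC.Poly.const [true])
  · rw [decide_eq_true_eq, ← hV']

theorem LV.of_inPP {α : Type} [TEnc α] {P : α → Prop} (h : InPP P) : LV P := by
  obtain ⟨d, hd, hd'⟩ := dec_of_inPP h
  refine ⟨fun x => some (d x.1.1), 0, NPC.Poly.some (hd.comp (NPC.Poly.fst (NPC.Poly.fst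
    NPC.Poly.id))), ?_, ?_⟩
  · intro x y b hb
    simp only [Option.some.injEq] at hb
    rw [← hb]; exact hd' _
  · intro a e m _
    have : pr m (fun _ => (some (d a) : Option Bool) = none) = 0 := by
      have : pr m (fun _ => (some (d a) : Option Bool) = none) = ex m (fun _ => 0) :=
        ex_congr fun y _ => ind_false (by simp)
      rw [this, ex_const]
    simp only
    rw [this]
    positivity

/-- A polynomial bound for a number computed in unary. -/
theorem UPoly.bound {α : Type} [TEnc α] {f : α → ℕ} (h : UPoly f) :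
    ∃ p : Polynomial ℕ, ∀ a, f a ≤ p.eval (sz a) := by
  obtain ⟨p, hp⟩ := NPC.Poly.sz_le h
  refine ⟨p, fun a => le_trans ?_ (hp a)⟩
  have := (length_lt_sz (List.replicate (f a) ())).le
  rwa [List.length_replicate] at this

theorem sz_units (e : List Unit) : sz e ≤ 2 * e.length + 1 := by
  have := sz_le_length_mul e 1 (fun u _ => le_of_eq rfl)
  omega

/-- Las Vegas algorithms from a test and a reduction. -/
theorem LV.of_poly {α β : Type} [TEnc α] [TEnc β] {P : α → Prop} {Q : β → Prop} (h : LV Q)
    {f : α → β} {d : α → Bool} (hf : Poly f) (hd : Poly d)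
    (H : ∀ a, P a ↔ d a = true ∧ Q (f a)) : LV P := by
  obtain ⟨A, ℓ, hA, hcor, hpr⟩ := h
  obtain ⟨p, hp⟩ := hf.sz_le
  refine ⟨fun x => if d x.1.1 = true then A ((f x.1.1, x.1.2), x.2) else some false,
    ℓ.comp (p + Polynomial.X), ?_, ?_, ?_⟩
  · refine NPC.Poly.ite (NPC.Poly.decide_bool (hd.comp (NPC.Poly.fst (NPC.Poly.fst NPC.Poly.id))))
      ?_ (NPC.Poly.const _)
    exact hA.comp (NPC.Poly.pair (NPC.Poly.pair (hf.comp (NPC.Poly.fst (NPC.Poly.fst NPC.Poly.id)))
      (NPC.Poly.snd (NPC.Poly.fst NPC.Poly.id))) (NPC.Poly.snd NPC.Poly.id))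
  · rintro ⟨a, e⟩ y b hb
    simp only at hb ⊢
    rw [H]
    by_cases hda : d a = true
    · rw [if_pos hda] at hb
      rw [hcor _ _ _ hb]
      simp [hda]
    · rw [if_neg hda] at hb
      simp only [Option.some.injEq] at hb
      subst hb
      simp [hda]
  · intro a e m hm
    by_cases hda : d a = true
    · simp only [hda, if_true]
      refine hpr (f a) e m (le_trans ?_ hm)
      rw [Polynomial.eval_comp]
      refine eval_mono ℓ ?_
      simp only [Polynomial.eval_add, Polynomial.eval_X]
      have h1 := hp a
      have h2 := eval_mono p (Nat.le_add_right (sz a) e.length)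
      omega
    · have h0 : pr m (fun y => (if d a = true then A ((f a, e), y) else some false) = none) =
          ex m (fun _ => 0) :=
        ex_congr fun y _ => ind_false (by simp [hda])
      simp only
      rw [h0, ex_const]
      positivity

/-- The program problem. -/
def Prg {G : Type*} [Group G] {n : ℕ} (g : Fin n → G) (I : List (Edge n) × ℕ × ℕ) : Prop :=
  ∃ p : List (Edge n), p.Sublist I.1 ∧ Chain I.2.1 p I.2.2 ∧ pval g p = 1

theorem uPoly_mm {α : Type} [TEnc α] (q : Polynomial ℕ) (n : ℕ) {s : α → ℕ} (hs : UPoly s) :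
    UPoly (fun a => mm q n (s a)) := by
  have h1 : UPoly (fun a => 2 * s a + 1) := UPoly.add (UPoly.mul (UPoly.const 2) hs) (UPoly.const 1)
  have h2 := UPoly.eval h1 q
  have h3 : UPoly (fun a => q.eval (2 * s a + 1) ^ 2) :=
    NPC.Poly.congr (UPoly.mul h2 h2) fun a => by simp only [sq]
  exact UPoly.add (UPoly.mul (UPoly.mul (UPoly.mul (UPoly.const 4) h3) (UPoly.const _)) h1)
    (UPoly.const 1)

theorem poly_Tl {α : Type} [TEnc α] {n : ℕ} {m : α → ℕ} (hm : UPoly m) :
    Poly (fun a => Tl n (m a)) := by
  have h := NPC.Poly.flatMap (F := fun (_ : α) (_ : Unit) => lets n) hm (NPC.Poly.const _)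
  refine h.congr fun a => ?_
  unfold Tl
  induction m a with
  | zero => rfl
  | succ k ih => simp [List.replicate_succ, ih]

theorem poly_answer {β : Type} [TEnc β] {n : ℕ} {dec : List (Wd n) × Wd n → Bool}
    (hdec : Poly dec) {ω : β → ℕ} {st : β → St n} (hω : Poly ω) (hst : Poly st) :
    Poly (fun b => answer dec (ω b) (st b)) := by
  have ho : Poly (fun b => look (st b).1 (ω b)) := poly_look (NPC.Poly.fst hst) hω
  have h1 : Poly (fun z : β × Wd n => ((st z.1).2, z.2)) :=
    NPC.Poly.pair ((NPC.Poly.snd hst).comp (NPC.Poly.fst NPC.Poly.id)) (NPC.Poly.snd NPC.Poly.id)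
  have hh : Poly (fun z : β × Wd n => dec ((st z.1).2, z.2)) := hdec.comp h1
  have h2 := NPC.Poly.optElim (h := fun b w => dec ((st b).2, w)) ho (NPC.Poly.const false) hh
  refine h2.congr fun b => ?_
  unfold answer
  cases look (st b).1 (ω b) <;> rfl

theorem poly_algo {β : Type} [TEnc β] {n : ℕ} {dec : List (Wd n) × Wd n → Bool}
    (hdec : Poly dec) {T : β → List (Fin n × Bool)} {π : β → List (Edge n)} {y : β → List Bool}
    {v ω : β → ℕ} (hT : Poly T) (hπ : Poly π) (hy : Poly y) (hv : Poly v) (hω : Poly ω) :
    Poly (fun b => (run dec (T b) (π b) (y b) (st0 n (v b))).map fun st => answer dec (ω b) st) := by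
  have h1 := poly_run hdec hT hπ hy hv
  have h2 : Poly (fun z : β × St n => answer dec (ω z.1) z.2) :=
    poly_answer hdec (hω.comp (NPC.Poly.fst NPC.Poly.id)) (NPC.Poly.snd NPC.Poly.id)
  exact NPC.Poly.optMap_fp (h := fun b st => answer dec (ω b) st) h1 h2

theorem run_take {n : ℕ} {dec : List (Wd n) × Wd n → Bool} (T : List (Fin n × Bool))
    (π : List (Edge n)) : ∀ (y : List Bool) (st : St n),
    run dec T π (y.take (π.length * T.length)) st = run dec T π y st := by
  induction π with
  | nil => intro y st; rfl
  | cons e π ih =>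
    intro y st
    have e1 : (π.length + 1) * T.length = T.length + π.length * T.length := by ring
    simp only [run, List.length_cons, e1]
    rw [List.take_take, min_eq_left (by omega), List.drop_take, Nat.add_sub_cancel_left]
    congr 1
    funext st'
    exact ih _ _

/-- If the balls of the central quotient are large and subset sum is in `P` then the program problem
has a Las Vegas algorithm. -/
theorem lv_prg {G : Type*} [Group G] {n : ℕ} (g : Fin n → G)
    (hgen : Subgroup.closure (Set.range g) = ⊤) (hB : BigBalls g) (hS : InPP (SSP g)) :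
    LV (Prg g) := by
  obtain ⟨q, hq⟩ := hB
  obtain ⟨dec, hdecP, hdec⟩ := dec_of_inPP hS
  have k1 : Poly (fun x : ((List (Edge n) × ℕ × ℕ) × List Unit) × List Bool => x.1.1.1) :=
    NPC.Poly.fst (NPC.Poly.fst (NPC.Poly.fst NPC.Poly.id))
  have k2 : Poly (fun x : ((List (Edge n) × ℕ × ℕ) × List Unit) × List Bool => x.1.1.2.1) :=
    NPC.Poly.fst (NPC.Poly.snd (NPC.Poly.fst (NPC.Poly.fst NPC.Poly.id)))
  have k3 : Poly (fun x : ((List (Edge n) × ℕ × ℕ) × List Unit) × List Bool => x.1.1.2.2) :=
    NPC.Poly.snd (NPC.Poly.snd (NPC.Poly.fst (NPC.Poly.fst NPC.Poly.id)))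
  have k4 : Poly (fun x : ((List (Edge n) × ℕ × ℕ) × List Unit) × List Bool => x.1.2) :=
    NPC.Poly.snd (NPC.Poly.fst NPC.Poly.id)
  have k5 : Poly (fun x : ((List (Edge n) × ℕ × ℕ) × List Unit) × List Bool => x.2) :=
    NPC.Poly.snd NPC.Poly.id
  have hs : UPoly (fun x : ((List (Edge n) × ℕ × ℕ) × List Unit) × List Bool =>
      sS n x.1.1.1.length x.1.2.length) := by
    have h1 := UPoly.length k1
    have h2 := UPoly.length k4
    unfold sS expo
    exact UPoly.add (UPoly.add (UPoly.add (UPoly.add (UPoly.mul (UPoly.mul (UPoly.const 2)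
      (UPoly.mul (UPoly.const 2) h1)) (UPoly.const _)) (UPoly.const _)) (UPoly.const _)) h1) h2
  have hT : Poly (fun x : ((List (Edge n) × ℕ × ℕ) × List Unit) × List Bool =>
      Tl n (mm q n (sS n x.1.1.1.length x.1.2.length))) := poly_Tl (uPoly_mm q n hs)
  have hlen := UPoly.mul (UPoly.length k1) (UPoly.length hT)
  obtain ⟨p, hp⟩ := UPoly.bound hlen
  refine ⟨fun x => (run dec (Tl n (mm q n (sS n x.1.1.1.length x.1.2.length))) x.1.1.1 x.2
    (st0 n x.1.1.2.1)).map fun st => answer dec x.1.1.2.2 st, p.comp (2 * Polynomial.X + 4),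
    poly_algo hdecP hT k1 k5 k2 k3, ?_, ?_⟩
  · rintro ⟨⟨π, α, ω⟩, e⟩ y b hb
    simp only at hb
    rw [Option.map_eq_some_iff] at hb
    obtain ⟨st, hst, rfl⟩ := hb
    exact answer_iff g hdec _ π y α ω st hst
  · rintro ⟨π, α, ω⟩ e m hm
    have h1 := pr_main g hq hgen hdec π α e.length
    have h2 : π.length * (Tl n (mm q n (sS n π.length e.length))).length ≤ m := by
      refine (hp (((π, α, ω), e), [])).trans (le_trans ?_ hm)
      rw [Polynomial.eval_comp]
      refine eval_mono p ?_
      have h3 : sz ((((π, α, ω), e), []) : ((List (Edge n) × ℕ × ℕ) × List Unit) × List Bool) =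
        sz ((π, α, ω) : List (Edge n) × ℕ × ℕ) + sz e + 1 + 1 + 1 := by
          rw [sz_pair, sz_pair, sz_list_nil]
      have h4 := sz_units e
      simp only [Polynomial.eval_add, Polynomial.eval_mul, Polynomial.eval_X,
        Polynomial.eval_ofNat]
      omega
    rw [← pr_take h2] at h1
    refine le_trans (pr_mono fun y hy h => ?_) h1
    simp only [Option.map_eq_none_iff] at h
    rw [run_take]
    exact h

end Pool.Agent.R531.Agp
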