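import Pool.Agent.R531.Agp.Acyc

/-!
# Closure properties of Las Vegas algorithms
-/

namespace Pool.Agent.R531.Agp

open NPC

/-- Disjunctions. -/
theorem LV.or {α β : Type} [TEnc α] [TEnc β] {P : α → Prop} {Q : β → Prop} (hP : LV P)
    (hQ : LV Q) : LV (fun x : α × β => P x.1 ∨ Q x.2) := by
  obtain ⟨A, ℓ, hA, hcor, hpr⟩ := hP
  obtain ⟨B, ℓ', hB, hcor', hpr'⟩ := hQ
  have k1 : Poly (fun x : ((α × β) × List Unit) × List Bool => ((x.1.1.1, () :: x.1.2), x.2)) :=
    NPC.Poly.pair (NPC.Poly.pair (NPC.Poly.fst (NPC.Poly.fst (NPC.Poly.fst NPC.Poly.id)))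
      (NPC.Poly.cons (NPC.Poly.const ()) (NPC.Poly.snd (NPC.Poly.fst NPC.Poly.id))))
      (NPC.Poly.snd NPC.Poly.id)
  have k2 : Poly (fun x : ((α × β) × List Unit) × List Bool => ((x.1.1.2, () :: x.1.2), x.2)) :=
    NPC.Poly.pair (NPC.Poly.pair (NPC.Poly.snd (NPC.Poly.fst (NPC.Poly.fst NPC.Poly.id)))
      (NPC.Poly.cons (NPC.Poly.const ()) (NPC.Poly.snd (NPC.Poly.fst NPC.Poly.id))))
      (NPC.Poly.snd NPC.Poly.id)
  have h1 : Poly (fun x : ((α × β) × List Unit) × List Bool =>
      A ((x.1.1.1, () :: x.1.2), x.2)) := hA.comp k1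
  have h2 : Poly (fun x : ((α × β) × List Unit) × List Bool =>
      B ((x.1.1.2, () :: x.1.2), x.2)) := hB.comp k2
  have h3 : Poly (fun x : ((α × β) × List Unit) × List Bool =>
      (A ((x.1.1.1, () :: x.1.2), x.2)).elim none fun a =>
        (B ((x.1.1.2, () :: x.1.2), x.2)).elim none fun b => some (a || b)) := by
    refine NPC.Poly.optElim (h := fun (x : ((α × β) × List Unit) × List Bool) a =>
      (B ((x.1.1.2, () :: x.1.2), x.2)).elim none fun b => some (a || b)) h1
      (NPC.Poly.const none) ?_
    refine NPC.Poly.optElim (h := fun (z : (((α × β) × List Unit) × List Bool) × Bool) b =>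
      some (z.2 || b)) (h2.comp (NPC.Poly.fst NPC.Poly.id)) (NPC.Poly.const none) ?_
    exact NPC.Poly.some (NPC.Poly.or (NPC.Poly.snd (NPC.Poly.fst NPC.Poly.id))
      (NPC.Poly.snd NPC.Poly.id))
  refine ⟨_, (ℓ + ℓ').comp (Polynomial.X + 1), h3, ?_, ?_⟩
  · rintro ⟨⟨a, b⟩, e⟩ y r hr
    simp only at hr ⊢
    cases h4 : A ((a, () :: e), y) with
    | none => rw [h4] at hr; simp at hr
    | some r1 =>
      rw [h4] at hr
      cases h5 : B ((b, () :: e), y) with
      | none => rw [h5] at hr; simp at hr
      | some r2 =>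
        rw [h5] at hr
        simp only [Option.elim_some, Option.some.injEq] at hr
        have e1 := hcor _ _ _ h4
        have e2 := hcor' _ _ _ h5
        simp only at e1 e2
        rw [← hr, Bool.or_eq_true, e1, e2]
  · rintro ⟨a, b⟩ e m hm
    have hle : ∀ x, (ℓ + ℓ').eval x = ℓ.eval x + ℓ'.eval x := fun x => Polynomial.eval_add
    have hm' : ℓ.eval (sz (a, b) + e.length + 1) + ℓ'.eval (sz (a, b) + e.length + 1) ≤ m := by
      rw [Polynomial.eval_comp, hle] at hm
      simpa using hm
    have hs : sz (a, b) = sz a + sz b + 1 := sz_pair _ _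
    have e1 := hpr a (() :: e) m (by
      refine le_trans (eval_mono ℓ ?_) ((Nat.le_add_right _ _).trans hm')
      rw [List.length_cons]; omega)
    have e2 := hpr' b (() :: e) m (by
      refine le_trans (eval_mono ℓ' ?_) ((Nat.le_add_left _ _).trans hm')
      rw [List.length_cons]; omega)
    have h6 : pr m (fun y => (A ((a, () :: e), y)).elim none (fun r =>
        (B ((b, () :: e), y)).elim none fun r' => some (r || r')) = none) ≤
        pr m (fun y => A ((a, () :: e), y) = none ∨ B ((b, () :: e), y) = none) := by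
      refine pr_mono fun y _ h => ?_
      cases h4 : A ((a, () :: e), y) with
      | none => exact Or.inl rfl
      | some r1 =>
        cases h5 : B ((b, () :: e), y) with
        | none => exact Or.inr rfl
        | some r2 => rw [h4, h5] at h; simp at h
    refine h6.trans ((pr_or _ _ _).trans ((add_le_add e1 e2).trans ?_))
    rw [List.length_cons, pow_succ]
    have : (0 : ℝ) < 2 ^ e.length := by positivity
    apply le_of_eq
    field_simp
    norm_num

section fold

variable {α β σ γ : Type} [TEnc α] [TEnc β] [TEnc σ] [TEnc γ]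

open Classical in
/-- The ideal run of an adaptive algorithm with queries. -/
noncomputable def idl (Q : γ → Prop) (s0 : α → σ) (q : α → σ → β → γ)
    (upd : α → σ → β → Bool → σ) (a : α) (L : List β) : σ :=
  L.foldl (fun s b => upd a s b (decide (Q (q a s b)))) (s0 a)

/-- The real run. -/
def rrun (A : (γ × List Unit) × List Bool → Option Bool) (s0 : α → σ) (q : α → σ → β → γ)
    (upd : α → σ → β → Bool → σ) (a : α) (e : List Unit) (y : List Bool) (L : List β) :
    Option σ :=
  L.foldl (fun o b => o.elim none fun s => (A ((q a s b, e), y)).map fun r => upd a s b r)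
    (some (s0 a))

theorem rrun_eq {Q : γ → Prop} {A : (γ × List Unit) × List Bool → Option Bool}
    (hcor : ∀ x y b, A (x, y) = some b → (b = true ↔ Q x.1)) (s0 : α → σ) (q : α → σ → β → γ)
    (upd : α → σ → β → Bool → σ) (a : α) (e : List Unit) (y : List Bool) (L : List β) :
    rrun A s0 q upd a e y L = some (idl Q s0 q upd a L) ∨
    (rrun A s0 q upd a e y L = none ∧ ∃ k : Fin L.length,
      A ((q a (idl Q s0 q upd a (L.take k)) (L.get k), e), y) = none) := by
  classical
  induction L using List.reverseRecOn with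
  | nil => left; rfl
  | append_singleton L b ih =>
    have e1 : rrun A s0 q upd a e y (L ++ [b]) = (rrun A s0 q upd a e y L).elim none fun s =>
        (A ((q a s b, e), y)).map fun r => upd a s b r := by
      simp [rrun]
    have e2 : idl Q s0 q upd a (L ++ [b]) = upd a (idl Q s0 q upd a L) b
        (decide (Q (q a (idl Q s0 q upd a L) b))) := by
      unfold idl
      rw [List.foldl_append]
      rfl
    rcases ih with ih | ⟨ih, k, hk⟩
    · rw [e1, ih]
      simp only [Option.elim_some]
      cases hA : A ((q a (idl Q s0 q upd a L) b, e), y) with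
      | none =>
        right
        refine ⟨rfl, ⟨L.length, by simp⟩, ?_⟩
        simpa using hA
      | some r =>
        left
        rw [e2]
        have h1 := hcor _ _ _ hA
        simp only at h1
        have h2 : r = decide (Q (q a (idl Q s0 q upd a L) b)) := by
          cases r with
          | true => simp [h1.1 rfl]
          | false =>
            have : ¬ Q (q a (idl Q s0 q upd a L) b) := fun h => by simpa using h1.2 h
            simp [this]
        simp only [Option.map_some, Option.some.injEq]
        rw [← h2]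
    · right
      rw [e1, ih]
      refine ⟨rfl, ⟨k, by have := k.2; simp⟩, ?_⟩
      have h1 : (L ++ [b]).take k = L.take k := by
        rw [List.take_append_of_le_length k.2.le]
      have h2 : (L ++ [b]).get ⟨k, by have := k.2; simp⟩ = L.get k := by
        simp [List.getElem_append_left]
      simp only
      rw [h1, h2]
      exact hk

/-- Adaptive algorithms with polynomially many queries. -/
theorem LV.fold {Q : γ → Prop} (hQ : LV Q) {l : α → List β} {s0 : α → σ} {q : α → σ → β → γ}
    {upd : α → σ → β → Bool → σ} {test : α → σ → Bool} (hl : Poly l) (hs0 : Poly s0)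
    (hq : Poly (fun x : α × σ × β => q x.1 x.2.1 x.2.2))
    (hupd : Poly (fun x : (α × σ × β) × Bool => upd x.1.1 x.1.2.1 x.1.2.2 x.2))
    (htest : Poly (fun x : α × σ => test x.1 x.2)) (p : Polynomial ℕ)
    (hsz : ∀ a k, k ≤ (l a).length → sz (idl Q s0 q upd a ((l a).take k)) ≤ p.eval (sz a)) :
    LV (fun a => test a (idl Q s0 q upd a (l a)) = true) := by
  classical
  obtain ⟨A, ℓ, hA, hcor, hpr⟩ := hQ
  obtain ⟨pl, hpl⟩ := hl.sz_le
  obtain ⟨pq, hpq⟩ := hq.sz_le
  -- the unary parameter of the queries
  have hE : Poly (fun x : (α × List Unit) × List Bool =>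
      x.1.2 ++ (l x.1.1).map fun _ => ()) := by
    refine NPC.Poly.append (NPC.Poly.snd (NPC.Poly.fst NPC.Poly.id)) ?_
    exact NPC.Poly.map (F := fun (_ : (α × List Unit) × List Bool) (_ : β) => ())
      (hl.comp (NPC.Poly.fst (NPC.Poly.fst NPC.Poly.id))) (NPC.Poly.const ())
  have hstep : Poly (fun z : ((α × List Unit) × List Bool) × Option σ × β =>
      z.2.1.elim none fun s => (A ((q z.1.1.1 s z.2.2, z.1.1.2 ++ (l z.1.1.1).map fun _ => ()),
        z.1.2)).map fun r => upd z.1.1.1 s z.2.2 r) := by
    have i1 : Poly (fun w : (((α × List Unit) × List Bool) × Option σ × β) × σ =>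
        (w.1.1.1.1, w.2, w.1.2.2)) := NPC.Poly.pair
      (NPC.Poly.fst (NPC.Poly.fst (NPC.Poly.fst (NPC.Poly.fst NPC.Poly.id)))) (NPC.Poly.pair
      (NPC.Poly.snd NPC.Poly.id) (NPC.Poly.snd (NPC.Poly.snd (NPC.Poly.fst NPC.Poly.id))))
    have i2 : Poly (fun w : (((α × List Unit) × List Bool) × Option σ × β) × σ =>
        q w.1.1.1.1 w.2 w.1.2.2) := hq.comp i1
    have i3 : Poly (fun w : (((α × List Unit) × List Bool) × Option σ × β) × σ =>
        w.1.1.1.2 ++ (l w.1.1.1.1).map fun _ => ()) :=
      hE.comp (NPC.Poly.fst (NPC.Poly.fst NPC.Poly.id))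
    have i4 : Poly (fun w : (((α × List Unit) × List Bool) × Option σ × β) × σ => w.1.1.2) :=
      NPC.Poly.snd (NPC.Poly.fst (NPC.Poly.fst NPC.Poly.id))
    have i5 : Poly (fun w : (((α × List Unit) × List Bool) × Option σ × β) × σ =>
        A ((q w.1.1.1.1 w.2 w.1.2.2, w.1.1.1.2 ++ (l w.1.1.1.1).map fun _ => ()), w.1.1.2)) :=
      hA.comp (NPC.Poly.pair (NPC.Poly.pair i2 i3) i4)
    have i6 : Poly (fun v : ((((α × List Unit) × List Bool) × Option σ × β) × σ) × Bool =>
        upd v.1.1.1.1.1 v.1.2 v.1.1.2.2 v.2) :=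
      hupd.comp (NPC.Poly.pair (i1.comp (NPC.Poly.fst NPC.Poly.id)) (NPC.Poly.snd NPC.Poly.id))
    have i7 := NPC.Poly.optMap_fp (h := fun (w : (((α × List Unit) × List Bool) ×
      Option σ × β) × σ) r => upd w.1.1.1.1 w.2 w.1.2.2 r) i5 i6
    exact NPC.Poly.optElim (h := fun (z : ((α × List Unit) × List Bool) × Option σ × β) s =>
      (A ((q z.1.1.1 s z.2.2, z.1.1.2 ++ (l z.1.1.1).map fun _ => ()),
        z.1.2)).map fun r => upd z.1.1.1 s z.2.2 r) (NPC.Poly.fst (NPC.Poly.snd NPC.Poly.id))
      (NPC.Poly.const none) i7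
  have hrr : Poly (fun x : (α × List Unit) × List Bool =>
      rrun A s0 q upd x.1.1 (x.1.2 ++ (l x.1.1).map fun _ => ()) x.2 (l x.1.1)) := by
    refine NPC.Poly.foldl (l := fun x : (α × List Unit) × List Bool => l x.1.1)
      (s := fun x => some (s0 x.1.1))
      (F := fun (x : (α × List Unit) × List Bool) (o : Option σ) (b : β) =>
        o.elim none fun s => (A ((q x.1.1 s b, x.1.2 ++ (l x.1.1).map fun _ => ()),
        x.2)).map fun r => upd x.1.1 s b r) (hl.comp (NPC.Poly.fst (NPC.Poly.fst NPC.Poly.id)))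
      (NPC.Poly.some (hs0.comp (NPC.Poly.fst (NPC.Poly.fst NPC.Poly.id)))) hstep (p + 2) ?_
    rintro ⟨⟨a, e⟩, y⟩ k hk
    have h1 := rrun_eq hcor s0 q upd a (e ++ (l a).map fun _ => ()) y ((l a).take k)
    change sz (rrun A s0 q upd a (e ++ (l a).map fun _ => ()) y ((l a).take k)) ≤ _
    have h2 : p.eval (sz a) ≤ p.eval (sz (((a, e), y) : (α × List Unit) × List Bool)) := by
      refine eval_mono p ?_
      have : sz (((a, e), y) : (α × List Unit) × List Bool) = sz (a, e) + sz y + 1 := sz_pair _ _
      have : sz (a, e) = sz a + sz e + 1 := sz_pair _ _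
      omega
    have h3 := hsz a k hk
    simp only [Polynomial.eval_add, Polynomial.eval_ofNat]
    rcases h1 with h1 | ⟨h1, -⟩
    · rw [h1]
      have : sz (some (idl Q s0 q upd a ((l a).take k)) : Option σ) ≤
        sz (idl Q s0 q upd a ((l a).take k)) + 2 := by simp
      omega
    · rw [h1]
      have : sz (none : Option σ) = 1 := rfl
      omega
  have halg : Poly (fun x : (α × List Unit) × List Bool =>
      (rrun A s0 q upd x.1.1 (x.1.2 ++ (l x.1.1).map fun _ => ()) x.2 (l x.1.1)).map
        fun s => test x.1.1 s) := by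
    refine NPC.Poly.optMap_fp (h := fun (x : (α × List Unit) × List Bool) s => test x.1.1 s) hrr ?_
    exact htest.comp (NPC.Poly.pair (NPC.Poly.fst (NPC.Poly.fst (NPC.Poly.fst NPC.Poly.id)))
      (NPC.Poly.snd NPC.Poly.id))
  refine ⟨_, ℓ.comp (pq.comp (Polynomial.X + p + pl + 2) + Polynomial.X + pl), halg, ?_, ?_⟩
  · rintro ⟨a, e⟩ y b hb
    simp only at hb ⊢
    rw [Option.map_eq_some_iff] at hb
    obtain ⟨s, hs, rfl⟩ := hb
    rcases rrun_eq hcor s0 q upd a (e ++ (l a).map fun _ => ()) y (l a) with h1 | ⟨h1, -⟩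
    · rw [h1] at hs
      simp only [Option.some.injEq] at hs
      rw [hs]
    · rw [h1] at hs; exact absurd hs (by simp)
  · intro a e m hm
    set e' := e ++ (l a).map fun _ => () with he'
    have he'l : e'.length = e.length + (l a).length := by simp [he']
    have hlen : (l a).length ≤ pl.eval (sz a) := (length_lt_sz (l a)).le.trans (hpl a)
    have h1 := pr_union (n := m) (p := fun y => (rrun A s0 q upd a e' y (l a)).map
        (fun s => test a s) = none)
      (q := fun (k : Fin (l a).length) y => A ((q a (idl Q s0 q upd a ((l a).take k))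
        ((l a).get k), e'), y) = none) (c := 1 / 2 ^ e'.length) ?_ ?_
    · refine h1.trans ?_
      rw [Fintype.card_fin, he'l, pow_add]
      have h2 : ((l a).length : ℝ) ≤ 2 ^ (l a).length := by
        have := two_pow_ge (l a).length
        have h3 : (l a).length ≤ 2 ^ (l a).length := by omega
        exact_mod_cast h3
      calc ((l a).length : ℝ) * (1 / (2 ^ e.length * 2 ^ (l a).length))
          ≤ 2 ^ (l a).length * (1 / (2 ^ e.length * 2 ^ (l a).length)) :=
            mul_le_mul_of_nonneg_right h2 (by positivity)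
        _ = 1 / 2 ^ e.length := by field_simp
    · intro y _ hy
      rcases rrun_eq hcor s0 q upd a e' y (l a) with h2 | ⟨-, h2⟩
      · simp only [h2] at hy; exact absurd hy (by simp)
      · exact h2
    · intro k
      refine hpr _ e' m (le_trans ?_ hm)
      rw [Polynomial.eval_comp]
      refine eval_mono ℓ ?_
      simp only [Polynomial.eval_add, Polynomial.eval_X, Polynomial.eval_comp,
        Polynomial.eval_ofNat]
      have f1 := hpq (a, idl Q s0 q upd a ((l a).take k), (l a).get k)
      simp only at f1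
      have f2 : sz (a, idl Q s0 q upd a ((l a).take k), (l a).get k) =
          sz a + (sz (idl Q s0 q upd a ((l a).take k)) + sz ((l a).get k) + 1) + 1 := by
        rw [sz_pair, sz_pair]
      have f3 := hsz a k k.2.le
      have f4 : sz ((l a).get k) ≤ sz (l a) := (sz_le_of_mem (List.get_mem _ _)).le
      have f5 := hpl a
      have f6 := eval_mono p (Nat.le_add_right (sz a) e.length)
      have f7 := eval_mono pl (Nat.le_add_right (sz a) e.length)
      have f8 : pq.eval (sz (a, idl Q s0 q upd a ((l a).take k), (l a).get k)) ≤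
          pq.eval (sz a + e.length + p.eval (sz a + e.length) + pl.eval (sz a + e.length) + 2) :=
        eval_mono pq (by omega)
      rw [he'l]
      omega

end fold

end Pool.Agent.R531.Agp
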