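import Pool.Agent.R531.Agp.Entropy
import Pool.Agent.H578R2.Med.PP
import Pool.Agent.NPC.CookLevin3

/-!
# The machine runs in polynomial time
-/

namespace Pool.Agent.R531.Agp

open NPC

open TDec (dec dec_toT toT_dec poly_dec)

/-- Members of `Fin n` are decodable. -/
instance finTDec (n : ℕ) : TDec (Fin n) where
  dec t := (dec t : Option ℕ).bind fun m => if h : m < n then some ⟨m, h⟩ else none
  dec_toT i := by
    change ((dec (toT (i : ℕ)) : Option ℕ).bind _) = _
    rw [dec_toT]; simp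
  toT_dec t i h := by
    rw [Option.bind_eq_some_iff] at h
    obtain ⟨m, hm, h⟩ := h
    split_ifs at h with h1
    cases h
    exact toT_dec t m hm
  poly_dec := by
    apply NPC.Poly.of_toT
    have h1 : Poly (fun t : T => (dec t : Option ℕ).bind
        fun m => if m < n then some m else none) :=
      NPC.Poly.optBind (f := fun _ (m : ℕ) => if m < n then some m else none) poly_dec
        (NPC.Poly.ite (NPC.Poly.decide_lt (NPC.Poly.snd NPC.Poly.id) (NPC.Poly.const n)) (NPC.Poly.some (NPC.Poly.snd NPC.Poly.id))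
          (NPC.Poly.const none))
    refine h1.toT'.congr fun t => ?_
    cases (dec t : Option ℕ) with
    | none => rfl
    | some m =>
      simp only [Option.bind_some]
      split_ifs
      · rfl
      · rfl

section

variable {n : ℕ} {α : Type} [TEnc α]

theorem poly_winv {w : α → Wd n} (hw : Poly w) : Poly (fun a => winv (w a)) := by
  unfold winv
  fun_prop

theorem poly_look {r : α → List (ℕ × Wd n)} {u : α → ℕ} (hr : Poly r) (hu : Poly u) :
    Poly (fun a => look (r a) (u a)) := by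
  unfold look
  fun_prop

theorem poly_outs {a1 c : α → Wd n} {a2 : α → Option (Wd n)} (h1 : Poly a1) (h2 : Poly a2)
    (hc : Poly c) : Poly (fun a => outs (a1 a) (a2 a) (c a)) := by
  have h : Poly (fun a => (a2 a).elim [a1 a ++ c a] fun b => [a1 a ++ c a, b ++ c a]) := by
    fun_prop
  refine h.congr fun a => ?_
  cases h : a2 a <;> simp [outs]

theorem poly_nonz {a1 c : α → Wd n} {a2 : α → Option (Wd n)} (h1 : Poly a1) (h2 : Poly a2)
    (hc : Poly c) : Poly (fun a => nonz (a1 a) (a2 a) (c a)) := by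
  have h : Poly (fun a => (a2 a).elim [a1 a ++ c a] fun b =>
      [a1 a ++ c a, b ++ c a, a1 a ++ c a ++ (b ++ c a)]) := by
    fun_prop
  refine h.congr fun a => ?_
  cases h : a2 a <;> simp [nonz]

theorem poly_extra {a1 c : α → Wd n} {a2 : α → Option (Wd n)} (h1 : Poly a1) (h2 : Poly a2)
    (hc : Poly c) : Poly (fun a => extra (a1 a) (a2 a) (c a)) := by
  have h : Poly (fun a => (a2 a).elim [] fun b => [winv (a1 a ++ c a ++ b)]) := by
    refine NPC.Poly.optElim (h := fun a b => [winv (a1 a ++ c a ++ b)]) h2 (NPC.Poly.const _) ?_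
    refine NPC.Poly.cons (poly_winv ?_) (NPC.Poly.const _)
    fun_prop
  refine h.congr fun a => ?_
  cases h : a2 a <;> simp [extra]

theorem poly_tests {r : α → List (ℕ × Wd n)} {a1 c : α → Wd n} {a2 : α → Option (Wd n)}
    (hr : Poly r) (h1 : Poly a1) (h2 : Poly a2) (hc : Poly c) :
    Poly (fun a => tests (r a) (a1 a) (a2 a) (c a)) := by
  unfold tests
  refine NPC.Poly.cons hc (NPC.Poly.append (poly_extra h1 h2 hc) ?_)
  refine NPC.Poly.flatMap (F := fun a w => (nonz (a1 a) (a2 a) (c a)).map fun s => w.2 ++ winv s)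
    hr ?_
  refine NPC.Poly.map (F := fun (p : α × ℕ × Wd n) s => p.2.2 ++ winv s)
    (poly_nonz (h1.comp (NPC.Poly.fst NPC.Poly.id)) (h2.comp (NPC.Poly.fst NPC.Poly.id))
      (hc.comp (NPC.Poly.fst NPC.Poly.id))) ?_
  refine NPC.Poly.append (NPC.Poly.snd (NPC.Poly.snd (NPC.Poly.fst NPC.Poly.id))) (poly_winv (NPC.Poly.snd NPC.Poly.id))

theorem poly_cands {h : α → Wd n} (hh : Poly h) : Poly (fun a => cands n (h a)) := by
  unfold cands
  exact NPC.Poly.map (F := fun a x => h a ++ x) (NPC.Poly.const _)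
    (NPC.Poly.append (hh.comp (NPC.Poly.fst NPC.Poly.id)) (NPC.Poly.snd NPC.Poly.id))

theorem poly_choose1 {dec : List (Wd n) × Wd n → Bool} (hdec : Poly dec)
    {D : α → List (Wd n)} {r : α → List (ℕ × Wd n)} {a1 c : α → Wd n} {a2 : α → Option (Wd n)}
    (hD : Poly D) (hr : Poly r) (h1 : Poly a1) (h2 : Poly a2) (hc : Poly c) :
    Poly (fun a => choose1 dec (D a) (r a) (a1 a) (a2 a) (c a)) := by
  unfold choose1
  refine NPC.Poly.head? (NPC.Poly.filter
    (p := fun a c => (tests (r a) (a1 a) (a2 a) c).all fun w => !dec (D a, w)) (poly_cands hc) ?_)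
  refine NPC.Poly.all (p := fun (p : α × Wd n) w => !dec (D p.1, w))
    (poly_tests (hr.comp (NPC.Poly.fst NPC.Poly.id)) (h1.comp (NPC.Poly.fst NPC.Poly.id))
      (h2.comp (NPC.Poly.fst NPC.Poly.id)) (NPC.Poly.snd NPC.Poly.id)) ?_
  exact NPC.Poly.not (hdec.comp (NPC.Poly.pair (hD.comp (NPC.Poly.fst (NPC.Poly.fst NPC.Poly.id))) (NPC.Poly.snd NPC.Poly.id)))

theorem poly_optToList : Poly (fun o : Option (Fin n × Bool) => o.toList) := by
  have h : Poly (fun o : Option (Fin n × Bool) => o.elim [] fun b => [b]) := by fun_prop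
  exact h.congr fun o => by cases o <;> rfl

theorem poly_stepf {dec : List (Wd n) × Wd n → Bool} (hdec : Poly dec)
    {rest : α → List (Wd n)} {e : α → Edge n} {c : α → Wd n} {st : α → St n}
    (hrest : Poly rest) (he : Poly e) (hc : Poly c) (hst : Poly st) :
    Poly (fun a => stepf dec (rest a) (e a) (c a) (st a)) := by
  have hl : Poly (fun a => look (st a).1 (e a).1.1) :=
    poly_look (NPC.Poly.fst hst) (NPC.Poly.fst (NPC.Poly.fst he))
  have hlv : Poly (fun a => (look (st a).1 (e a).1.2).map winv) :=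
    NPC.Poly.optMap_fp (h := fun _ w => winv w) (poly_look (NPC.Poly.fst hst) (NPC.Poly.snd (NPC.Poly.fst he)))
      (poly_winv (NPC.Poly.snd NPC.Poly.id))
  have hr : Poly (fun a => (st a).1.filter fun p => !decide (p.1 = (e a).1.2)) := by
    have h1 := NPC.Poly.fst hst
    have h2 := NPC.Poly.snd (NPC.Poly.fst he)
    fun_prop
  have ha1 : Poly (fun p : α × Wd n => winv p.2 ++ (e p.1).2.toList) :=
    NPC.Poly.append (poly_winv (NPC.Poly.snd NPC.Poly.id))
      (poly_optToList.comp ((NPC.Poly.snd he).comp (NPC.Poly.fst NPC.Poly.id)))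
  have h := NPC.Poly.optElim (o := fun a => look (st a).1 (e a).1.1) (g := fun a => some (st a))
    (h := fun a hu => (choose1 dec (rest a ++ (st a).2)
      ((st a).1.filter fun p => !decide (p.1 = (e a).1.2))
      (winv hu ++ (e a).2.toList) ((look (st a).1 (e a).1.2).map winv) (c a)).map fun c' =>
        (((e a).1.2, c') :: ((st a).1.filter fun p => !decide (p.1 = (e a).1.2)),
          (st a).2 ++ outs (winv hu ++ (e a).2.toList) ((look (st a).1 (e a).1.2).map winv) c'))
    hl (NPC.Poly.some hst) ?_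
  · refine h.congr fun a => ?_
    unfold stepf
    cases look (st a).1 (e a).1.1 <;> rfl
  · refine NPC.Poly.optMap_fp (h := fun (p : α × Wd n) c' =>
        (((e p.1).1.2, c') :: ((st p.1).1.filter fun q => !decide (q.1 = (e p.1).1.2)),
          (st p.1).2 ++ outs (winv p.2 ++ (e p.1).2.toList)
            ((look (st p.1).1 (e p.1).1.2).map winv) c')) ?_ ?_
    · exact poly_choose1 hdec ((NPC.Poly.append hrest (NPC.Poly.snd hst)).comp (NPC.Poly.fst NPC.Poly.id))
        (hr.comp (NPC.Poly.fst NPC.Poly.id)) ha1 (hlv.comp (NPC.Poly.fst NPC.Poly.id)) (hc.comp (NPC.Poly.fst NPC.Poly.id))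
    · refine NPC.Poly.pair (NPC.Poly.cons (NPC.Poly.pair ((NPC.Poly.snd (NPC.Poly.fst he)).comp
        (NPC.Poly.fst (NPC.Poly.fst NPC.Poly.id))) (NPC.Poly.snd NPC.Poly.id)) (hr.comp (NPC.Poly.fst (NPC.Poly.fst NPC.Poly.id))))
        (NPC.Poly.append ((NPC.Poly.snd hst).comp (NPC.Poly.fst (NPC.Poly.fst NPC.Poly.id))) ?_)
      exact poly_outs (ha1.comp (NPC.Poly.fst NPC.Poly.id)) (hlv.comp (NPC.Poly.fst (NPC.Poly.fst NPC.Poly.id)))
        (NPC.Poly.snd NPC.Poly.id)

end

end Pool.Agent.R531.Agp
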