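import Pool.Agent.R531.Agp.PolyA

/-!
# The run is computable in polynomial time
-/

namespace Pool.Agent.R531.Agp

open NPC

section

variable {n : ℕ}

/-- One step of the loop. -/
def loopF (dec : List (Wd n) × Wd n → Bool) (T : List (Fin n × Bool))
    (s : List (Edge n) × List Bool × Option (St n)) :
    List (Edge n) × List Bool × Option (St n) :=
  match s.1 with
  | [] => s
  | e :: π => (π, s.2.1.drop T.length, s.2.2.bind
      (stepf dec (π.map fun e => e.2.toList) e (sel (s.2.1.take T.length) T)))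

theorem loopF_iterate (dec : List (Wd n) × Wd n → Bool) (T : List (Fin n × Bool))
    (π : List (Edge n)) : ∀ (y : List Bool) (o : Option (St n)),
    ((loopF dec T)^[π.length] (π, y, o)).2.2 = o.bind (run dec T π y) := by
  induction π with
  | nil => intro y o; cases o <;> simp [run]
  | cons e π ih =>
    intro y o
    rw [List.length_cons, Function.iterate_succ_apply]
    change ((loopF dec T)^[π.length] (π, y.drop T.length, _)).2.2 = _
    rw [ih]
    cases o <;> simp [run]

/-- The shape of the states. -/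
structure Shp (V N k : ℕ) (st : St n) : Prop where
  l1 : st.1.length ≤ k + 1
  l2 : st.2.length ≤ 2 * k
  r1 : ∀ p ∈ st.1, sz p.1 ≤ V ∧ p.2.length ≤ N + 1
  r2 : ∀ w ∈ st.2, w.length ≤ 2 * N + 3

theorem length_winv (w : Wd n) : (winv w).length = w.length := by simp [winv]

theorem shp_step {dec : List (Wd n) × Wd n → Bool} {V N k : ℕ} {rest : List (Wd n)} {e : Edge n}
    {h : Wd n} {st st' : St n} (hS : Shp V N k st) (hV : sz e.1.2 ≤ V) (hh : h.length ≤ N)
    (hst : stepf dec rest e h st = some st') : Shp V N (k + 1) st' := by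
  obtain ⟨s1, s2⟩ := step_size hst
  unfold stepf at hst
  cases hu : look st.1 e.1.1 with
  | none =>
    rw [hu] at hst
    simp only [Option.some.injEq] at hst
    subst hst
    exact ⟨by have := hS.l1; omega, by have := hS.l2; omega, hS.r1, hS.r2⟩
  | some hu' =>
    rw [hu] at hst
    simp only at hst
    rw [Option.map_eq_some_iff] at hst
    obtain ⟨c0, hc0, rfl⟩ := hst
    have hul := (hS.r1 _ (look_some hu)).2
    simp only at hul
    have hc : c0.length ≤ N + 1 := by
      unfold choose1 at hc0
      have h1 := List.mem_of_mem_head? (Option.mem_def.2 hc0)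
      rw [List.mem_filter] at h1
      obtain ⟨x, hx, rfl⟩ := List.mem_map.1 h1.1
      rw [List.length_append]
      rcases List.mem_cons.1 hx with rfl | hx
      · simp; omega
      · obtain ⟨i, -, rfl⟩ := List.mem_map.1 hx
        simp; omega
    have hel : e.2.toList.length ≤ 1 := by cases e.2 <;> simp
    refine ⟨by have := hS.l1; omega, by have := hS.l2; omega, ?_, ?_⟩
    · intro p hp
      rcases List.mem_cons.1 hp with rfl | hp
      · exact ⟨hV, hc⟩
      · exact hS.r1 p (List.mem_filter.1 hp).1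
    · intro w hw
      rcases List.mem_append.1 hw with hw | hw
      · exact hS.r2 w hw
      · cases hv : look st.1 e.1.2 with
        | none =>
          rw [hv] at hw
          simp only [outs, Option.map_none, List.mem_singleton] at hw
          subst hw
          simp only [List.length_append, length_winv]
          omega
        | some hv' =>
          rw [hv] at hw
          have hvl := (hS.r1 _ (look_some hv)).2
          simp only at hvl
          simp only [outs, Option.map_some, List.mem_cons, List.not_mem_nil, or_false] at hw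
          rcases hw with rfl | rfl
          · simp only [List.length_append, length_winv]; omega
          · simp only [List.length_append, length_winv]; omega

theorem shp_loop {dec : List (Wd n) × Wd n → Bool} {V : ℕ} {T : List (Fin n × Bool)} (k : ℕ) :
    ∀ (π : List (Edge n)) (y : List Bool) (o : Option (St n)) (j : ℕ),
    (∀ e ∈ π, sz e.1.2 ≤ V) → (∀ st ∈ o, Shp V T.length j st) →
    (∃ π', π' <:+ π ∧ ((loopF dec T)^[k] (π, y, o)).1 = π') ∧
    (∃ m, ((loopF dec T)^[k] (π, y, o)).2.1 = y.drop m) ∧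
    ∀ st ∈ ((loopF dec T)^[k] (π, y, o)).2.2, Shp V T.length (j + k) st := by
  induction k with
  | zero =>
    intro π y o j _ h
    exact ⟨⟨π, List.suffix_rfl, rfl⟩, ⟨0, rfl⟩, h⟩
  | succ k ih =>
    intro π y o j hV h
    rw [Function.iterate_succ_apply]
    cases π with
    | nil =>
      change (∃ π', π' <:+ [] ∧ ((loopF dec T)^[k] ([], y, o)).1 = π') ∧
        (∃ m, ((loopF dec T)^[k] ([], y, o)).2.1 = y.drop m) ∧
        ∀ st ∈ ((loopF dec T)^[k] ([], y, o)).2.2, Shp V T.length (j + (k + 1)) st
      obtain ⟨h1, h2, h3⟩ := ih [] y o j hV h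
      refine ⟨h1, h2, fun st hst => ?_⟩
      have := h3 st hst
      exact ⟨by have := this.l1; omega, by have := this.l2; omega, this.r1, this.r2⟩
    | cons e π =>
      change (∃ π', π' <:+ (e :: π) ∧ ((loopF dec T)^[k] (π, y.drop T.length, _)).1 = π') ∧
        (∃ m, ((loopF dec T)^[k] (π, y.drop T.length, _)).2.1 = y.drop m) ∧
        ∀ st ∈ ((loopF dec T)^[k] (π, y.drop T.length, _)).2.2, Shp V T.length (j + (k + 1)) st
      obtain ⟨⟨π', hπ', h1⟩, ⟨m, h2⟩, h3⟩ := ih π (y.drop T.length) (o.bind
        (stepf dec (π.map fun e => e.2.toList) e (sel (y.take T.length) T))) (j + 1)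
        (fun e' he' => hV e' (List.mem_cons_of_mem _ he')) (by
          intro st hst
          rw [Option.mem_def, Option.bind_eq_some_iff] at hst
          obtain ⟨st1, h4, h5⟩ := hst
          exact shp_step (h st1 h4) (hV e List.mem_cons_self) (length_sel_le _ _) h5)
      refine ⟨⟨π', hπ'.trans (List.suffix_cons _ _), h1⟩, ⟨T.length + m, ?_⟩, fun st hst => ?_⟩
      · rw [h2, List.drop_drop]
      · have := h3 st hst
        rwa [show j + (k + 1) = j + 1 + k by ring]

theorem exists_letter_bound (n : ℕ) : ∃ c : ℕ, ∀ l : Fin n × Bool, sz l ≤ c := by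
  refine ⟨Finset.univ.sup (fun l : Fin n × Bool => sz l), fun l => ?_⟩
  exact Finset.le_sup (f := fun l : Fin n × Bool => sz l) (Finset.mem_univ l)

theorem sz_word_le {c : ℕ} (hc : ∀ l : Fin n × Bool, sz l ≤ c) (w : Wd n) {m : ℕ}
    (h : w.length ≤ m) : sz w ≤ m * (c + 1) + 1 := by
  refine (sz_le_length_mul w c fun l _ => hc l).trans ?_
  exact Nat.add_le_add_right (Nat.mul_le_mul_right _ h) 1

theorem sz_st_le {c : ℕ} (hc : ∀ l : Fin n × Bool, sz l ≤ c) {V N k : ℕ} {st : St n}
    (h : Shp V N k st) : sz (some st : Option (St n)) ≤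
      ((k + 1) * (V + ((N + 1) * (c + 1) + 1) + 1 + 1) + 1) +
        ((2 * k) * ((2 * N + 3) * (c + 1) + 1 + 1) + 1) + 1 + 2 := by
  obtain ⟨l1, l2, r1, r2⟩ := h
  have h1 : sz st.1 ≤ (k + 1) * (V + ((N + 1) * (c + 1) + 1) + 1 + 1) + 1 := by
    refine (sz_le_length_mul st.1 (V + ((N + 1) * (c + 1) + 1) + 1) fun p hp => ?_).trans
      (Nat.add_le_add_right (Nat.mul_le_mul_right _ l1) 1)
    have := (r1 p hp).1
    have := sz_word_le hc p.2 (r1 p hp).2
    have : sz p = sz p.1 + sz p.2 + 1 := sz_pair _ _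
    omega
  have h2 : sz st.2 ≤ (2 * k) * ((2 * N + 3) * (c + 1) + 1 + 1) + 1 := by
    refine (sz_le_length_mul st.2 ((2 * N + 3) * (c + 1) + 1) fun w hw => ?_).trans
      (Nat.add_le_add_right (Nat.mul_le_mul_right _ l2) 1)
    exact sz_word_le hc w (r2 w hw)
  have h3 : sz st = sz st.1 + sz st.2 + 1 := sz_pair _ _
  have h4 : sz (some st : Option (St n)) ≤ sz st + 2 := by simp
  omega

theorem poly_sel {α β : Type} [TEnc α] [TEnc β] {y : α → List Bool} {T : α → List β}
    (hy : Poly y) (hT : Poly T) : Poly (fun a => sel (y a) (T a)) := by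
  unfold sel
  fun_prop

theorem poly_stepX {β : Type} [TEnc β] {dec : List (Wd n) × Wd n → Bool} (hdec : Poly dec)
    {rest : β → List (Wd n)} {e : β → Edge n} {c : β → Wd n} {o : β → Option (St n)}
    (h1 : Poly rest) (h2 : Poly e) (h3 : Poly c) (ho : Poly o) :
    Poly (fun b => (o b).bind fun st => stepf dec (rest b) (e b) (c b) st) := by
  have a1 : Poly (fun p : β × St n => rest p.1) := h1.comp (NPC.Poly.fst NPC.Poly.id)
  have a2 : Poly (fun p : β × St n => e p.1) := h2.comp (NPC.Poly.fst NPC.Poly.id)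
  have a3 : Poly (fun p : β × St n => c p.1) := h3.comp (NPC.Poly.fst NPC.Poly.id)
  have a4 : Poly (fun p : β × St n => p.2) := NPC.Poly.snd NPC.Poly.id
  exact NPC.Poly.optBind ho (poly_stepf hdec a1 a2 a3 a4)

theorem poly_stepAux {β : Type} [TEnc β] {dec : List (Wd n) × Wd n → Bool} (hdec : Poly dec)
    {T : β → List (Fin n × Bool)} {y : β → List Bool} {o : β → Option (St n)}
    {e : β → Edge n} {π : β → List (Edge n)} (hT : Poly T) (hy : Poly y) (ho : Poly o)
    (he : Poly e) (hπ : Poly π) : Poly (fun b => ((π b, (y b).drop (T b).length, (o b).bind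
      (stepf dec ((π b).map fun e => e.2.toList) (e b) (sel ((y b).take (T b).length) (T b)))) :
        List (Edge n) × List Bool × Option (St n))) := by
  have hTl : Poly (fun b => (T b).length) := NPC.Poly.length hT
  have hm : Poly (fun b => (π b).map fun e => e.2.toList) :=
    NPC.Poly.map (F := fun _ (e : Edge n) => e.2.toList) hπ
      (poly_optToList.comp (NPC.Poly.snd (NPC.Poly.snd NPC.Poly.id)))
  have hs : Poly (fun b => sel ((y b).take (T b).length) (T b)) :=
    poly_sel (Med.poly_take hy hTl) hT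
  have h3 := poly_stepX hdec hm he hs ho
  have h2 : Poly (fun b => (y b).drop (T b).length) := Med.poly_drop hy hTl
  exact NPC.Poly.pair hπ (NPC.Poly.pair h2 h3)

theorem poly_loopF {β : Type} [TEnc β] {dec : List (Wd n) × Wd n → Bool} (hdec : Poly dec)
    {T : β → List (Fin n × Bool)} {s : β → List (Edge n) × List Bool × Option (St n)}
    (hT : Poly T) (hs : Poly s) : Poly (fun b => loopF dec (T b) (s b)) := by
  have b1 : Poly (fun x : β × Edge n × List (Edge n) => T x.1) := hT.comp (NPC.Poly.fst NPC.Poly.id)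
  have b2 : Poly (fun x : β × Edge n × List (Edge n) => (s x.1).2.1) :=
    (NPC.Poly.fst (NPC.Poly.snd hs)).comp (NPC.Poly.fst NPC.Poly.id)
  have b3 : Poly (fun x : β × Edge n × List (Edge n) => (s x.1).2.2) :=
    (NPC.Poly.snd (NPC.Poly.snd hs)).comp (NPC.Poly.fst NPC.Poly.id)
  have b4 : Poly (fun x : β × Edge n × List (Edge n) => x.2.1) :=
    NPC.Poly.fst (NPC.Poly.snd NPC.Poly.id)
  have b5 : Poly (fun x : β × Edge n × List (Edge n) => x.2.2) :=
    NPC.Poly.snd (NPC.Poly.snd NPC.Poly.id)
  have h1 := poly_stepAux hdec b1 b2 b3 b4 b5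
  have h2 := NPC.Poly.listCases (l := fun b => (s b).1) (g := fun b => s b)
    (h := fun b (e : Edge n) (π : List (Edge n)) => (π, (s b).2.1.drop (T b).length,
      (s b).2.2.bind (stepf dec (π.map fun e : Edge n => e.2.toList) e
        (sel ((s b).2.1.take (T b).length) (T b)))))
    (NPC.Poly.fst hs) hs h1
  refine h2.congr fun b => ?_
  unfold loopF
  cases (s b).1 <;> rfl

theorem poly_run {α : Type} [TEnc α] {dec : List (Wd n) × Wd n → Bool} (hdec : Poly dec)
    {T : α → List (Fin n × Bool)} {π : α → List (Edge n)} {y : α → List Bool} {v : α → ℕ}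
    (hT : Poly T) (hπ : Poly π) (hy : Poly y) (hv : Poly v) :
    Poly (fun a => run dec (T a) (π a) (y a) (st0 n (v a))) := by
  obtain ⟨c, hc⟩ := exists_letter_bound n
  obtain ⟨pT, hpT⟩ := hT.sz_le
  obtain ⟨pπ, hpπ⟩ := hπ.sz_le
  obtain ⟨py, hpy⟩ := hy.sz_le
  obtain ⟨pv, hpv⟩ := hv.sz_le
  have hstep : Poly (fun x : α × List (Edge n) × List Bool × Option (St n) =>
      loopF dec (T x.1) x.2) :=
    poly_loopF hdec (hT.comp (NPC.Poly.fst NPC.Poly.id)) (NPC.Poly.snd NPC.Poly.id)
  have key := NPC.Poly.iterLen (l := π) (s := fun a => (π a, y a, (some (st0 n (v a)) : Option (St n))))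
    (F := fun a s => loopF dec (T a) s) hπ
    (NPC.Poly.pair hπ (NPC.Poly.pair hy (NPC.Poly.some (NPC.Poly.pair (NPC.Poly.cons
      (NPC.Poly.pair hv (NPC.Poly.const _)) (NPC.Poly.const _)) (NPC.Poly.const _))))) hstep
    (pπ + py + ((pπ + 1) * ((pπ + pv) + ((pT + 1) * (Polynomial.C (c + 1)) + 1) + 1 + 1) + 1) +
        ((2 * pπ) * ((2 * pT + 3) * (Polynomial.C (c + 1)) + 1 + 1) + 1) + 10) ?_
  · refine (NPC.Poly.snd (NPC.Poly.snd key)).congr fun a => ?_
    rw [loopF_iterate]
    rfl
  · intro a k hk
    have hlen : ∀ {β : Type} [TEnc β] (l : List β), l.length ≤ sz l := fun l =>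
      (length_lt_sz l).le
    have e1 := hpT a
    have e2 := hpπ a
    have e3 := hpy a
    have e4 := hpv a
    obtain ⟨⟨π', hπ', h1⟩, ⟨m, h2⟩, h3⟩ := shp_loop (dec := dec) (V := sz (π a) + sz (v a))
      (T := T a) k (π a) (y a) (some (st0 n (v a))) 0 (by
        intro e he
        have s1 := sz_le_of_mem he
        have s2 : sz e = sz e.1 + sz e.2 + 1 := sz_pair _ _
        have s3 : sz e.1 = sz e.1.1 + sz e.1.2 + 1 := sz_pair _ _
        omega) (by
        intro st hst
        simp only [Option.mem_def, Option.some.injEq] at hst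
        subst hst
        refine ⟨by simp [st0], by simp [st0], ?_, by simp [st0]⟩
        intro p hp
        simp only [st0, List.mem_singleton] at hp
        subst hp
        simp)
    set s := (loopF dec (T a))^[k] (π a, y a, some (st0 n (v a))) with hs
    have f1 : sz s.1 ≤ sz (π a) := by
      rw [h1]
      obtain ⟨t, ht⟩ := hπ'
      rw [← ht]
      have : π' = (t ++ π').drop t.length := by simp
      rw [this]
      simp only [List.drop_left]
      have h5 := NPC.Poly.sz_drop_le (t ++ π') t.length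
      rwa [List.drop_left] at h5
    have f2 : sz s.2.1 ≤ sz (y a) := by rw [h2]; exact NPC.Poly.sz_drop_le _ _
    have f3 : sz s.2.2 ≤ ((k + 1) * ((sz (π a) + sz (v a)) +
        (((T a).length + 1) * (c + 1) + 1) + 1 + 1) + 1) +
        ((2 * k) * ((2 * (T a).length + 3) * (c + 1) + 1 + 1) + 1) + 1 + 2 := by
      cases ho : s.2.2 with
      | none =>
        have : sz (none : Option (St n)) = 1 := rfl
        rw [this]; omega
      | some st =>
        have := sz_st_le hc (h3 st ho)
        rwa [Nat.zero_add] at this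
    have f4 : sz s = sz s.1 + (sz s.2.1 + sz s.2.2 + 1) + 1 := by
      rw [show sz s = sz s.1 + sz s.2 + 1 from sz_pair _ _,
        show sz s.2 = sz s.2.1 + sz s.2.2 + 1 from sz_pair _ _]
    have g1 : k ≤ pπ.eval (sz a) := (hk.trans (hlen _)).trans e2
    have g2 : (T a).length ≤ pT.eval (sz a) := (hlen _).trans e1
    have f5 : ((k + 1) * ((sz (π a) + sz (v a)) +
        (((T a).length + 1) * (c + 1) + 1) + 1 + 1) + 1) +
        ((2 * k) * ((2 * (T a).length + 3) * (c + 1) + 1 + 1) + 1) ≤
        ((pπ.eval (sz a) + 1) * ((pπ.eval (sz a) + pv.eval (sz a)) +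
        ((pT.eval (sz a) + 1) * (c + 1) + 1) + 1 + 1) + 1) +
        ((2 * pπ.eval (sz a)) * ((2 * pT.eval (sz a) + 3) * (c + 1) + 1 + 1) + 1) := by
      gcongr
    change sz s ≤ _
    rw [f4]
    simp only [Polynomial.eval_add, Polynomial.eval_mul, Polynomial.eval_C, Polynomial.eval_one,
      Polynomial.eval_ofNat]
    omega

end

end Pool.Agent.R531.Agp
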