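import Mathlib

/-!
# Random subproducts of a long periodic sequence in a group with large balls
-/

namespace Pool.Agent.R531.Agp

section walk

variable {Q : Type*} [Group Q]

/-- Square-summable functions on the group. -/
abbrev V (Q : Type*) := lp (fun _ : Q => ℝ) 2

theorem memlp_tr (t : Q) (f : V Q) : Memℓp (fun x => f (t⁻¹ * x) : Q → ℝ) 2 := by
  have h0 : 0 < (2 : ENNReal).toReal := by norm_num
  rw [memℓp_gen_iff h0]
  have h1 := (memℓp_gen_iff h0).1 (lp.memℓp f)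
  exact (Equiv.mulLeft t⁻¹).summable_iff.2 h1

/-- Translation. -/
noncomputable def tr (t : Q) (f : V Q) : V Q := ⟨fun x => f (t⁻¹ * x), memlp_tr t f⟩

@[simp] theorem tr_apply (t : Q) (f : V Q) (x : Q) : tr t f x = f (t⁻¹ * x) := rfl

theorem norm_tr (t : Q) (f : V Q) : ‖tr t f‖ = ‖f‖ := by
  have h0 : 0 < (2 : ENNReal).toReal := by norm_num
  rw [lp.norm_eq_tsum_rpow h0, lp.norm_eq_tsum_rpow h0]
  congr 1
  exact (Equiv.mulLeft t⁻¹).tsum_eq (fun x => ‖f x‖ ^ (2 : ENNReal).toReal)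

theorem tr_sub (t : Q) (f g : V Q) : tr t (f - g) = tr t f - tr t g := by
  ext x; simp

theorem tr_one (f : V Q) : tr 1 f = f := by ext x; simp

theorem tr_mul (s t : Q) (f : V Q) : tr (s * t) f = tr s (tr t f) := by
  ext x; simp [mul_assoc]

/-- A probability distribution. -/
structure Dist (f : V Q) : Prop where
  nonneg : ∀ x, 0 ≤ f x
  hs : HasSum (fun x => f x) 1

/-- One lazy step. -/
noncomputable def hst (t : Q) (f : V Q) : V Q := (1 / 2 : ℝ) • (f + tr t f)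

theorem hst_apply (t : Q) (f : V Q) (x : Q) : hst t f x = (f x + f (t⁻¹ * x)) / 2 := by
  have : hst t f x = (1 / 2 : ℝ) * (f x + f (t⁻¹ * x)) := rfl
  rw [this]; ring

theorem Dist.hst {f : V Q} (hf : Dist f) (t : Q) : Dist (hst t f) := by
  constructor
  · intro x
    rw [hst_apply]
    have := hf.nonneg x
    have := hf.nonneg (t⁻¹ * x)
    linarith
  · have h1 : HasSum (fun x => f (t⁻¹ * x)) 1 := (Equiv.mulLeft t⁻¹).hasSum_iff.2 hf.hs
    have h2 := (hf.hs.add h1).div_const 2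
    have h3 : (1 + 1 : ℝ) / 2 = 1 := by norm_num
    rw [h3] at h2
    have e : (fun x => (Pool.Agent.R531.Agp.hst t f) x) = fun x => (f x + f (t⁻¹ * x)) / 2 :=
      funext (hst_apply t f)
    rw [e]
    exact h2

theorem norm_hst (t : Q) (f : V Q) : ‖hst t f‖ ^ 2 = ‖f‖ ^ 2 - ‖f - tr t f‖ ^ 2 / 4 := by
  have h1 := parallelogram_law_with_norm ℝ f (tr t f)
  rw [norm_tr] at h1
  rw [hst, norm_smul, mul_pow]
  norm_num
  nlinarith [h1]

theorem norm_hst_le (t : Q) (f : V Q) : ‖hst t f‖ ^ 2 ≤ ‖f‖ ^ 2 := by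
  rw [norm_hst]; have := sq_nonneg ‖f - tr t f‖; linarith

theorem norm_hst_sub (t : Q) (f : V Q) : ‖hst t f - f‖ = ‖f - tr t f‖ / 2 := by
  have h : hst t f - f = (-1 / 2 : ℝ) • (f - tr t f) := by
    ext x
    have e1 : ((-1 / 2 : ℝ) • (f - tr t f)) x = (-1 / 2 : ℝ) * (f x - tr t f x) := rfl
    have e2 : (hst t f - f) x = hst t f x - f x := rfl
    rw [e1, e2, hst_apply, tr_apply]; ring
  rw [h, norm_smul]
  norm_num
  ring

/-- Apply all the lazy steps of a list, the last one first. -/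
noncomputable def app (S : List Q) (f : V Q) : V Q := S.foldr hst f

theorem app_append (S T : List Q) (f : V Q) : app (S ++ T) f = app S (app T f) := by
  simp [app]

theorem Dist.app {f : V Q} (hf : Dist f) (S : List Q) : Dist (app S f) := by
  induction S with
  | nil => exact hf
  | cons t S ih => exact ih.hst t

theorem norm_app_le (S : List Q) (f : V Q) : ‖app S f‖ ^ 2 ≤ ‖f‖ ^ 2 := by
  induction S with
  | nil => exact le_rfl
  | cons t S ih => exact (norm_hst_le t _).trans ih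

/-- Averaging over a finite set of group elements. -/
theorem exists_spread {f : V Q} (hf : Dist f) (B : Finset Q) (hB : 2 ≤ (B.card : ℝ) * ‖f‖ ^ 2) :
    ∃ g ∈ B, ‖f‖ ^ 2 ≤ ‖f - tr g f‖ ^ 2 := by
  have h1 : ∀ g, ‖f - tr g f‖ ^ 2 = 2 * ‖f‖ ^ 2 - 2 * inner ℝ f (tr g f) := by
    intro g
    rw [norm_sub_sq_real, norm_tr]; ring
  have h2 : ∀ g, HasSum (fun x => f x * f (g⁻¹ * x)) (inner ℝ f (tr g f)) := by
    intro g
    have := lp.hasSum_inner (𝕜 := ℝ) f (tr g f)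
    simpa [mul_comm] using this
  have h3 : HasSum (fun x => ∑ g ∈ B, f x * f (g⁻¹ * x)) (∑ g ∈ B, inner ℝ f (tr g f)) :=
    hasSum_sum fun g _ => h2 g
  have h4 : ∀ x, ∑ g ∈ B, f x * f (g⁻¹ * x) ≤ f x := by
    intro x
    rw [← Finset.mul_sum]
    have h5 : ∑ g ∈ B, f (g⁻¹ * x) ≤ 1 := by
      classical
      have h6 : ∑ g ∈ B, f (g⁻¹ * x) = ∑ z ∈ B.image (fun g => g⁻¹ * x), f z := by
        rw [Finset.sum_image]
        intro a _ b _ h
        simpa using h
      rw [h6]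
      exact sum_le_hasSum _ (fun i _ => hf.nonneg i) hf.hs
    calc f x * ∑ g ∈ B, f (g⁻¹ * x) ≤ f x * 1 := mul_le_mul_of_nonneg_left h5 (hf.nonneg x)
      _ = f x := mul_one _
  have h5 : ∑ g ∈ B, inner ℝ f (tr g f) ≤ 1 := hasSum_le h4 h3 hf.hs
  by_contra hcon
  push Not at hcon
  have hne : B.Nonempty := by
    by_contra h
    rw [Finset.not_nonempty_iff_eq_empty] at h
    subst h
    simp at hB
    linarith
  have h6 : ∑ g ∈ B, ‖f - tr g f‖ ^ 2 < ∑ g ∈ B, ‖f‖ ^ 2 :=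
    Finset.sum_lt_sum_of_nonempty hne hcon
  have h7 : ∑ g ∈ B, ‖f - tr g f‖ ^ 2 = (B.card : ℝ) * (2 * ‖f‖ ^ 2) -
      2 * ∑ g ∈ B, inner ℝ f (tr g f) := by
    simp only [h1, Finset.sum_sub_distrib, Finset.sum_const, nsmul_eq_mul, Finset.mul_sum]
  have h8 : ∑ g ∈ B, ‖f‖ ^ 2 = (B.card : ℝ) * ‖f‖ ^ 2 := by
    simp only [Finset.sum_const, nsmul_eq_mul]
  rw [h7, h8] at h6
  nlinarith

/-- Displacement along a word. -/
theorem norm_sub_tr_prod (f : V Q) (δ : ℝ) : ∀ w : List Q, (∀ t ∈ w, ‖f - tr t f‖ ≤ δ) →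
    ‖f - tr w.prod f‖ ≤ w.length * δ
  | [], _ => by simp [tr_one]
  | t :: w, h => by
    have ih := norm_sub_tr_prod f δ w fun s hs => h s (List.mem_cons_of_mem _ hs)
    have h1 : f - tr (t :: w).prod f = (f - tr t f) + tr t (f - tr w.prod f) := by
      rw [List.prod_cons, tr_mul, tr_sub]; abel
    rw [h1]
    refine (norm_add_le _ _).trans ?_
    rw [norm_tr]
    have := h t List.mem_cons_self
    rw [List.length_cons]
    push_cast
    linarith

theorem drop_small (S : List Q) (f : V Q) (Δ : ℝ) (hΔ : 0 ≤ Δ)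
    (h : ‖f‖ ^ 2 - ‖app S f‖ ^ 2 ≤ Δ ^ 2) :
    ‖app S f - f‖ ≤ S.length * Δ ∧ ∀ t ∈ S, ‖f - tr t f‖ ≤ 2 * S.length * Δ := by
  induction S with
  | nil => simp [app]
  | cons t S ih =>
    have e0 : app (t :: S) f = hst t (app S f) := rfl
    have e1 := norm_hst t (app S f)
    have e2 := norm_app_le S f
    have e3 := norm_hst_le t (app S f)
    rw [e0] at h
    obtain ⟨ih1, ih2⟩ := ih (by linarith)
    have e4 : ‖app S f - tr t (app S f)‖ ^ 2 ≤ (2 * Δ) ^ 2 := by nlinarith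
    have e5 : ‖app S f - tr t (app S f)‖ ≤ 2 * Δ :=
      (sq_le_sq₀ (norm_nonneg _) (by linarith)).1 e4
    constructor
    · have e6 : app (t :: S) f - f = (hst t (app S f) - app S f) + (app S f - f) := by
        rw [e0]; abel
      rw [e6]
      refine (norm_add_le _ _).trans ?_
      rw [norm_hst_sub, List.length_cons]
      push_cast
      linarith
    · intro s hs
      rcases List.mem_cons.1 hs with rfl | hs
      · have e6 : f - tr s f = (f - app S f) + (app S f - tr s (app S f)) +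
            tr s (app S f - f) := by
          rw [tr_sub]; abel
        rw [e6]
        refine (norm_add_le _ _).trans ?_
        refine (add_le_add (norm_add_le _ _) le_rfl).trans ?_
        rw [norm_tr, norm_sub_rev f, List.length_cons]
        push_cast
        linarith
      · have := ih2 s hs
        rw [List.length_cons]
        push_cast
        nlinarith

/-- One period makes the norm drop, as long as it is large. -/
theorem period_drop {f : V Q} (hf : Dist f) (S : List Q) (r : ℕ) (B : Finset Q)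
    (hBS : ∀ g ∈ B, ∃ w : List Q, w.length ≤ r ∧ (∀ t ∈ w, t ∈ S) ∧ w.prod = g)
    (hB : 2 ≤ (B.card : ℝ) * ‖f‖ ^ 2) :
    ‖f‖ ^ 2 ≤ (4 * r ^ 2 * S.length ^ 2) * (‖f‖ ^ 2 - ‖app S f‖ ^ 2) := by
  obtain ⟨g, hg, hgf⟩ := exists_spread hf B hB
  obtain ⟨w, hw1, hw2, hw3⟩ := hBS g hg
  have h0 : 0 ≤ ‖f‖ ^ 2 - ‖app S f‖ ^ 2 := by have := norm_app_le S f; linarith
  set Δ := Real.sqrt (‖f‖ ^ 2 - ‖app S f‖ ^ 2) with hΔ
  have hΔ2 : Δ ^ 2 = ‖f‖ ^ 2 - ‖app S f‖ ^ 2 := Real.sq_sqrt h0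
  have hΔ0 : 0 ≤ Δ := Real.sqrt_nonneg _
  obtain ⟨-, h2⟩ := drop_small S f Δ hΔ0 hΔ2.ge
  have h3 := norm_sub_tr_prod f (2 * S.length * Δ) w fun t ht => h2 t (hw2 t ht)
  rw [hw3] at h3
  have h4 : ‖f - tr g f‖ ≤ r * (2 * S.length * Δ) := by
    refine h3.trans (mul_le_mul_of_nonneg_right (by exact_mod_cast hw1) (by positivity))
  have h5 : ‖f - tr g f‖ ^ 2 ≤ (r * (2 * S.length * Δ)) ^ 2 :=
    pow_le_pow_left₀ (norm_nonneg _) h4 2
  calc ‖f‖ ^ 2 ≤ ‖f - tr g f‖ ^ 2 := hgf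
    _ ≤ (r * (2 * S.length * Δ)) ^ 2 := h5
    _ = (4 * r ^ 2 * S.length ^ 2) * Δ ^ 2 := by ring
    _ = _ := by rw [hΔ2]

/-- The point mass at the unit. -/
noncomputable def pt (Q : Type*) [Group Q] : V Q := by
  classical exact lp.single 2 (1 : Q) (1 : ℝ)

open Classical in
theorem pt_apply (x : Q) : pt Q x = if x = 1 then 1 else 0 := by
  rw [pt, lp.single_apply]
  by_cases h : x = 1
  · subst h; simp
  · simp [h]

theorem dist_pt : Dist (pt Q) := by
  classical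
  constructor
  · intro x; rw [pt_apply]; split_ifs <;> norm_num
  · have : (fun x => pt Q x) = fun x => if x = 1 then (1 : ℝ) else 0 := funext pt_apply
    rw [this]
    exact hasSum_ite_eq 1 1

theorem norm_pt : ‖pt Q‖ ^ 2 = 1 := by
  classical
  have h0 : 0 < (2 : ENNReal).toReal := by norm_num
  have h1 := lp.norm_rpow_eq_tsum h0 (pt Q)
  have h2 : ‖pt Q‖ ^ (2 : ENNReal).toReal = ‖pt Q‖ ^ 2 := by norm_num
  rw [h2] at h1
  rw [h1]
  have : (fun x => ‖pt Q x‖ ^ (2 : ENNReal).toReal) = fun x => if x = 1 then (1 : ℝ) else 0 := by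
    funext x
    rw [pt_apply]
    split_ifs <;> norm_num
  rw [this]
  exact tsum_ite_eq 1 _

/-- Many periods. -/
theorem norm_periods (S : List Q) (r : ℕ) (B : Finset Q)
    (hBS : ∀ g ∈ B, ∃ w : List Q, w.length ≤ r ∧ (∀ t ∈ w, t ∈ S) ∧ w.prod = g)
    (hB : 0 < B.card) (m : ℕ) :
    ‖app (List.replicate m S).flatten (pt Q)‖ ^ 2 ≤ 2 / B.card ∨
    (0 < (4 * r ^ 2 * S.length ^ 2 : ℝ) ∧
      ‖app (List.replicate m S).flatten (pt Q)‖ ^ 2 ≤
        (1 - 1 / (4 * r ^ 2 * S.length ^ 2)) ^ m) ∨ m = 0 := by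
  induction m with
  | zero => right; right; rfl
  | succ m ih =>
    rw [List.replicate_succ, List.flatten_cons, app_append]
    set f := app (List.replicate m S).flatten (pt Q) with hf
    have hfd : Dist f := dist_pt.app _
    have hBc : (0 : ℝ) < B.card := by exact_mod_cast hB
    by_cases hsm : ‖f‖ ^ 2 ≤ 2 / B.card
    · left
      exact (norm_app_le _ _).trans hsm
    · right; left
      push Not at hsm
      have h1 : 2 ≤ (B.card : ℝ) * ‖f‖ ^ 2 := by
        rw [div_lt_iff₀ hBc] at hsm; linarith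
      have h2 := period_drop hfd S r B hBS h1
      have hf0 : 0 < ‖f‖ ^ 2 := by
        have : (0 : ℝ) < 2 / B.card := by positivity
        linarith
      have h3 : 0 < (4 * r ^ 2 * S.length ^ 2 : ℝ) := by
        by_contra hcon
        push Not at hcon
        have h4 : (0 : ℝ) ≤ 4 * r ^ 2 * S.length ^ 2 := by positivity
        have h5 : (4 * r ^ 2 * S.length ^ 2 : ℝ) = 0 := le_antisymm hcon h4
        rw [h5, zero_mul] at h2
        linarith
      refine ⟨h3, ?_⟩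
      have h4 : ‖app S f‖ ^ 2 ≤ (1 - 1 / (4 * r ^ 2 * S.length ^ 2)) * ‖f‖ ^ 2 := by
        have h5 : ‖f‖ ^ 2 / (4 * r ^ 2 * S.length ^ 2) ≤ ‖f‖ ^ 2 - ‖app S f‖ ^ 2 := by
          rw [div_le_iff₀ h3]; linarith
        have h6 : (1 - 1 / (4 * r ^ 2 * S.length ^ 2 : ℝ)) * ‖f‖ ^ 2 =
          ‖f‖ ^ 2 - ‖f‖ ^ 2 / (4 * r ^ 2 * S.length ^ 2) := by ring
        rw [h6]; linarith
      have h7 : ‖f‖ ^ 2 ≤ (1 - 1 / (4 * r ^ 2 * S.length ^ 2 : ℝ)) ^ m := by
        rcases ih with h | ⟨_, h⟩ | h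
        · exact absurd h (not_le.2 hsm)
        · exact h
        · subst h
          have : f = pt Q := by simp [hf, app]
          rw [this, norm_pt, pow_zero]
      have h8 : 0 ≤ 1 - 1 / (4 * r ^ 2 * S.length ^ 2 : ℝ) := by
        by_contra hcon
        push Not at hcon
        have : (1 - 1 / (4 * r ^ 2 * S.length ^ 2 : ℝ)) * ‖f‖ ^ 2 < 0 :=
          mul_neg_of_neg_of_pos hcon hf0
        have := sq_nonneg ‖app S f‖
        linarith
      calc ‖app S f‖ ^ 2 ≤ (1 - 1 / (4 * r ^ 2 * S.length ^ 2)) * ‖f‖ ^ 2 := h4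
        _ ≤ (1 - 1 / (4 * r ^ 2 * S.length ^ 2)) * (1 - 1 / (4 * r ^ 2 * S.length ^ 2)) ^ m :=
          mul_le_mul_of_nonneg_left h7 h8
        _ = _ := by ring

/-- After `4 r² |S|² t` periods the norm is tiny. -/
theorem norm_final (S : List Q) (r t : ℕ) (B : Finset Q)
    (hBS : ∀ g ∈ B, ∃ w : List Q, w.length ≤ r ∧ (∀ t ∈ w, t ∈ S) ∧ w.prod = g)
    (hB : 2 ^ t ≤ B.card) :
    ‖app (List.replicate (4 * r ^ 2 * S.length ^ 2 * t + 1) S).flatten (pt Q)‖ ^ 2 ≤
      2 / 2 ^ t := by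
  have hB0 : 0 < B.card := lt_of_lt_of_le (by positivity) hB
  rcases norm_periods S r B hBS hB0 (4 * r ^ 2 * S.length ^ 2 * t + 1) with h | ⟨h0, h⟩ | h
  · refine h.trans (div_le_div_of_nonneg_left (by norm_num) (by positivity) ?_)
    exact_mod_cast hB
  · refine h.trans ?_
    set κ : ℕ := 4 * r ^ 2 * S.length ^ 2 with hκ
    have hκr : (4 * r ^ 2 * S.length ^ 2 : ℝ) = (κ : ℝ) := by rw [hκ]; push_cast; ring
    rw [hκr] at h0 ⊢
    have hκ1 : 1 ≤ κ := by
      have : 0 < κ := by exact_mod_cast h0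
      omega
    have hb1 : 0 ≤ 1 - 1 / (κ : ℝ) := by
      rw [sub_nonneg, div_le_one h0]; exact_mod_cast hκ1
    have hb2 : 1 - 1 / (κ : ℝ) ≤ 1 := by
      have : 0 ≤ 1 / (κ : ℝ) := by positivity
      linarith
    have h1 : (1 - 1 / (κ : ℝ)) ^ (κ * t + 1) ≤ (1 - 1 / (κ : ℝ)) ^ (κ * t) :=
      pow_le_pow_of_le_one hb1 hb2 (by omega)
    have h2 : (1 - 1 / (κ : ℝ)) ^ κ ≤ Real.exp (-1) :=
      Real.one_sub_div_pow_le_exp_neg (by exact_mod_cast hκ1)
    have h3 : Real.exp (-1) ≤ 1 / 2 := by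
      rw [Real.exp_neg]
      rw [one_div]
      refine inv_anti₀ (by norm_num) ?_
      have := Real.add_one_le_exp (1 : ℝ)
      linarith
    calc (1 - 1 / (κ : ℝ)) ^ (κ * t + 1) ≤ (1 - 1 / (κ : ℝ)) ^ (κ * t) := h1
      _ = ((1 - 1 / (κ : ℝ)) ^ κ) ^ t := by rw [pow_mul]
      _ ≤ (1 / 2) ^ t := pow_le_pow_left₀ (pow_nonneg hb1 _) (h2.trans h3) t
      _ ≤ 2 / 2 ^ t := by
        rw [div_pow, one_pow]
        exact div_le_div_of_nonneg_right (by norm_num) (by positivity)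
  · omega

end walk

end Pool.Agent.R531.Agp
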